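import Mathlib
set_option autoImplicit false

namespace Bac815
open Filter Topology in
/-- The strong CN (Bruhat-Tits) inequality passes to the completion. -/
theorem J5_completion {T : Type*} [PseudoMetricSpace T]
    (h : ∀ x y : T, ∀ τ ∈ Set.Icc (0 : ℝ) 1, ∃ m : T, ∀ z : T,
      dist z m ^ 2 ≤ (1 - τ) * dist z x ^ 2 + τ * dist z y ^ 2 - τ * (1 - τ) * dist x y ^ 2) :
    ∀ x y : UniformSpace.Completion T, ∀ τ ∈ Set.Icc (0 : ℝ) 1, ∃ m : UniformSpace.Completion T,
      ∀ z : UniformSpace.Completion T,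
        dist z m ^ 2 ≤ (1 - τ) * dist z x ^ 2 + τ * dist z y ^ 2 - τ * (1 - τ) * dist x y ^ 2 := by
  intro x y τ hτ
  have hτ0 : 0 ≤ τ := hτ.1
  have hτ1 : τ ≤ 1 := hτ.2
  have hdr := UniformSpace.Completion.denseRange_coe (α := T)
  have hu : ∃ u : ℕ → T, Tendsto (fun n => (u n : UniformSpace.Completion T)) atTop (𝓝 x) := by
    have h1 : ∀ n : ℕ, ∃ a : T, dist x (a : UniformSpace.Completion T) < 1 / ((n : ℝ) + 1) :=
      fun n => hdr.exists_dist_lt x (by positivity)
    choose u hu using h1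
    refine ⟨u, ?_⟩
    rw [tendsto_iff_dist_tendsto_zero]
    refine squeeze_zero (fun _ => dist_nonneg) (fun n => ?_) tendsto_one_div_add_atTop_nhds_zero_nat
    rw [dist_comm]
    exact (hu n).le
  have hv : ∃ v : ℕ → T, Tendsto (fun n => (v n : UniformSpace.Completion T)) atTop (𝓝 y) := by
    have h1 : ∀ n : ℕ, ∃ a : T, dist y (a : UniformSpace.Completion T) < 1 / ((n : ℝ) + 1) :=
      fun n => hdr.exists_dist_lt y (by positivity)
    choose u hu using h1
    refine ⟨u, ?_⟩
    rw [tendsto_iff_dist_tendsto_zero]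
    refine squeeze_zero (fun _ => dist_nonneg) (fun n => ?_) tendsto_one_div_add_atTop_nhds_zero_nat
    rw [dist_comm]
    exact (hu n).le
  obtain ⟨u, hu⟩ := hu
  obtain ⟨v, hv⟩ := hv
  choose m hm using fun n => h (u n) (v n) τ hτ
  have hd : Tendsto (fun n => dist (u n) (v n)) atTop (𝓝 (dist x y)) := by
    have := hu.dist hv
    simpa only [UniformSpace.Completion.dist_eq] using this
  have hmu : ∀ n, dist (m n) (u n) ≤ τ * dist (u n) (v n) := by
    intro n
    have h1 := hm n (u n)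
    rw [dist_self] at h1
    have h2 : dist (u n) (m n) ^ 2 ≤ (τ * dist (u n) (v n)) ^ 2 := by
      refine h1.trans (le_of_eq ?_)
      ring
    rw [dist_comm]
    exact (pow_le_pow_iff_left₀ dist_nonneg (mul_nonneg hτ0 dist_nonneg) two_ne_zero).mp h2
  have hmv : ∀ n, dist (m n) (v n) ≤ (1 - τ) * dist (u n) (v n) := by
    intro n
    have h1 := hm n (v n)
    rw [dist_self, dist_comm (v n) (u n)] at h1
    have h2 : dist (v n) (m n) ^ 2 ≤ ((1 - τ) * dist (u n) (v n)) ^ 2 := by
      refine h1.trans (le_of_eq ?_)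
      ring
    rw [dist_comm]
    exact (pow_le_pow_iff_left₀ dist_nonneg (mul_nonneg (by linarith) dist_nonneg)
      two_ne_zero).mp h2
  have hcu : Tendsto (fun p : ℕ × ℕ => dist (u p.1) (u p.2)) atTop (𝓝 0) := by
    have := cauchySeq_iff_tendsto_dist_atTop_0.mp hu.cauchySeq
    simpa only [UniformSpace.Completion.dist_eq] using this
  have hcv : Tendsto (fun p : ℕ × ℕ => dist (v p.1) (v p.2)) atTop (𝓝 0) := by
    have := cauchySeq_iff_tendsto_dist_atTop_0.mp hv.cauchySeq
    simpa only [UniformSpace.Completion.dist_eq] using this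
  have hfst : Tendsto (fun p : ℕ × ℕ => dist (u p.1) (v p.1)) atTop (𝓝 (dist x y)) :=
    hd.comp (by rw [← prod_atTop_atTop_eq]; exact tendsto_fst)
  have hsnd : Tendsto (fun p : ℕ × ℕ => dist (u p.2) (v p.2)) atTop (𝓝 (dist x y)) :=
    hd.comp (by rw [← prod_atTop_atTop_eq]; exact tendsto_snd)
  have hbound : ∀ p : ℕ × ℕ, dist (m p.1) (m p.2) ^ 2 ≤
      (1 - τ) * (τ * dist (u p.1) (v p.1) + dist (u p.1) (u p.2)) ^ 2 +
      τ * ((1 - τ) * dist (u p.1) (v p.1) + dist (v p.1) (v p.2)) ^ 2 -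
      τ * (1 - τ) * dist (u p.2) (v p.2) ^ 2 := by
    rintro ⟨n, l⟩
    have h1 := hm l (m n)
    have h2 : dist (m n) (u l) ≤ τ * dist (u n) (v n) + dist (u n) (u l) :=
      (dist_triangle _ (u n) _).trans (by linarith [hmu n])
    have h3 : dist (m n) (v l) ≤ (1 - τ) * dist (u n) (v n) + dist (v n) (v l) :=
      (dist_triangle _ (v n) _).trans (by linarith [hmv n])
    have h4 : dist (m n) (u l) ^ 2 ≤ (τ * dist (u n) (v n) + dist (u n) (u l)) ^ 2 :=
      pow_le_pow_left₀ dist_nonneg h2 2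
    have h5 : dist (m n) (v l) ^ 2 ≤ ((1 - τ) * dist (u n) (v n) + dist (v n) (v l)) ^ 2 :=
      pow_le_pow_left₀ dist_nonneg h3 2
    have h6 := mul_le_mul_of_nonneg_left h4 (show 0 ≤ 1 - τ by linarith)
    have h7 := mul_le_mul_of_nonneg_left h5 hτ0
    simp only
    linarith
  have hlim : Tendsto (fun p : ℕ × ℕ =>
      (1 - τ) * (τ * dist (u p.1) (v p.1) + dist (u p.1) (u p.2)) ^ 2 +
      τ * ((1 - τ) * dist (u p.1) (v p.1) + dist (v p.1) (v p.2)) ^ 2 -
      τ * (1 - τ) * dist (u p.2) (v p.2) ^ 2) atTop (𝓝 0) := by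
    have h1 := (((((hfst.const_mul τ).add hcu).pow 2).const_mul (1 - τ)).add
      ((((hfst.const_mul (1 - τ)).add hcv).pow 2).const_mul τ)).sub
      ((hsnd.pow 2).const_mul (τ * (1 - τ)))
    have h2 : (1 - τ) * (τ * dist x y + 0) ^ 2 + τ * ((1 - τ) * dist x y + 0) ^ 2 -
      τ * (1 - τ) * dist x y ^ 2 = 0 := by ring
    rw [h2] at h1
    exact h1
  have hsq : Tendsto (fun p : ℕ × ℕ => dist (m p.1) (m p.2) ^ 2) atTop (𝓝 0) :=
    squeeze_zero (fun _ => sq_nonneg _) hbound hlim
  have hcm : Tendsto (fun p : ℕ × ℕ => dist (m p.1) (m p.2)) atTop (𝓝 0) := by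
    have h1 := (Real.continuous_sqrt.tendsto 0).comp hsq
    rw [Real.sqrt_zero] at h1
    refine h1.congr fun p => ?_
    simp only [Function.comp_apply]
    exact Real.sqrt_sq dist_nonneg
  have hCau : CauchySeq (fun n => (m n : UniformSpace.Completion T)) := by
    rw [cauchySeq_iff_tendsto_dist_atTop_0]
    simpa only [UniformSpace.Completion.dist_eq] using hcm
  obtain ⟨M, hM⟩ := cauchySeq_tendsto_of_complete hCau
  refine ⟨M, fun z => ?_⟩
  induction z using UniformSpace.Completion.induction_on with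
  | hp =>
    apply isClosed_le
    · fun_prop
    · fun_prop
  | ih z =>
    have h1 : Tendsto (fun n => dist (z : UniformSpace.Completion T) (m n) ^ 2) atTop
        (𝓝 (dist (z : UniformSpace.Completion T) M ^ 2)) :=
      (tendsto_const_nhds.dist hM).pow 2
    have h2 : Tendsto (fun n => (1 - τ) * dist (z : UniformSpace.Completion T) (u n) ^ 2 +
        τ * dist (z : UniformSpace.Completion T) (v n) ^ 2 -
        τ * (1 - τ) * dist (u n : UniformSpace.Completion T) (v n) ^ 2) atTop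
        (𝓝 ((1 - τ) * dist (z : UniformSpace.Completion T) x ^ 2 +
          τ * dist (z : UniformSpace.Completion T) y ^ 2 - τ * (1 - τ) * dist x y ^ 2)) :=
      ((((tendsto_const_nhds.dist hu).pow 2).const_mul (1 - τ)).add
        (((tendsto_const_nhds.dist hv).pow 2).const_mul τ)).sub
        (((hu.dist hv).pow 2).const_mul (τ * (1 - τ)))
    refine le_of_tendsto_of_tendsto' h1 h2 fun n => ?_
    simp only [UniformSpace.Completion.dist_eq]
    exact hm n z

end Bac815
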