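import Mathlib
set_option autoImplicit false
namespace Bac815
open Real NNReal


structure IsCNForm {C : Type*} (Q : C → C → ℝ) : Prop where
  nonneg : ∀ x y, 0 ≤ Q x y
  self : ∀ x, Q x x = 0
  symm : ∀ x y, Q x y = Q y x
  cn : ∀ x y, ∀ τ ∈ Set.Icc (0:ℝ) 1, ∃ m, ∀ z, Q z m ≤ (1-τ) * Q z x + τ * Q z y - τ*(1-τ) * Q x y

theorem IsCNForm.triangle {C : Type*} {Q : C → C → ℝ} (h : IsCNForm Q) (x y z : C) :
    √(Q x z) ≤ √(Q x y) + √(Q y z) := by
  set a := √(Q x y) with ha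
  set b := √(Q y z) with hb
  have ha0 : 0 ≤ a := Real.sqrt_nonneg _
  have hb0 : 0 ≤ b := Real.sqrt_nonneg _
  have ha2 : a ^ 2 = Q x y := Real.sq_sqrt (h.nonneg _ _)
  have hb2 : b ^ 2 = Q y z := Real.sq_sqrt (h.nonneg _ _)
  apply le_of_forall_pos_le_add
  intro η0 hη0
  set η := η0 / 2 with hη
  have hηp : 0 < η := by positivity
  have hs : 0 < a + b + 2 * η := by positivity
  have hτ0 : 0 ≤ (a + η) / (a + b + 2 * η) := by positivity
  have hτ1 : (a + η) / (a + b + 2 * η) ≤ 1 := by rw [div_le_one hs]; linarith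
  obtain ⟨m, hm⟩ := h.cn x z ((a + η) / (a + b + 2 * η)) ⟨hτ0, hτ1⟩
  have h1 := hm y
  have h0 := h.nonneg y m
  rw [h.symm y x, ← ha2, ← hb2] at h1
  have h2 : 1 - (a + η) / (a + b + 2 * η) = (b + η) / (a + b + 2 * η) := by
    field_simp; ring
  rw [h2] at h1
  have h3 : 0 ≤ ((b + η) * a ^ 2 + (a + η) * b ^ 2) * (a + b + 2 * η) - (a + η) * (b + η) * Q x z := by
    have h4 : 0 ≤ ((b + η) / (a + b + 2 * η) * a ^ 2 + (a + η) / (a + b + 2 * η) * b ^ 2 -
      (a + η) / (a + b + 2 * η) * ((b + η) / (a + b + 2 * η)) * Q x z) * (a + b + 2 * η) ^ 2 := by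
      apply mul_nonneg (h0.trans h1) (by positivity)
    have h5 : ((b + η) / (a + b + 2 * η) * a ^ 2 + (a + η) / (a + b + 2 * η) * b ^ 2 -
      (a + η) / (a + b + 2 * η) * ((b + η) / (a + b + 2 * η)) * Q x z) * (a + b + 2 * η) ^ 2 =
      ((b + η) * a ^ 2 + (a + η) * b ^ 2) * (a + b + 2 * η) - (a + η) * (b + η) * Q x z := by
      field_simp
    rwa [h5] at h4
  have h6 : (b + η) * a ^ 2 + (a + η) * b ^ 2 ≤ (a + η) * (b + η) * (a + b + 2 * η) := by
    nlinarith [mul_nonneg ha0 hb0, mul_nonneg ha0 hηp.le, mul_nonneg hb0 hηp.le, sq_nonneg η, mul_nonneg (mul_nonneg ha0 hb0) hηp.le,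
      mul_nonneg (mul_nonneg ha0 ha0) hηp.le, mul_nonneg (mul_nonneg hb0 hb0) hηp.le, mul_nonneg (mul_nonneg hηp.le hηp.le) ha0,
      mul_nonneg (mul_nonneg hηp.le hηp.le) hb0, mul_nonneg (mul_nonneg hηp.le hηp.le) hηp.le]
  have h7 : Q x z ≤ (a + b + 2 * η) ^ 2 := by
    have h8 : (a + η) * (b + η) * Q x z ≤ (a + η) * (b + η) * (a + b + 2 * η) ^ 2 := by
      nlinarith
    exact le_of_mul_le_mul_left h8 (by positivity)
  calc √(Q x z) ≤ √((a + b + 2 * η) ^ 2) := Real.sqrt_le_sqrt h7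
    _ = a + b + 2 * η := Real.sqrt_sq hs.le
    _ = a + b + η0 := by rw [hη]; ring

/-- pseudo-metric of a CN form -/
noncomputable abbrev IsCNForm.pm {C : Type*} {Q : C → C → ℝ} (h : IsCNForm Q) : PseudoMetricSpace C where
  dist x y := √(Q x y)
  dist_self x := by simp [h.self]
  dist_comm x y := by simp [h.symm x y]
  dist_triangle x y z := h.triangle x y z

theorem IsCNForm.quasi {C : Type*} {Q : C → C → ℝ} (h : IsCNForm Q) (x y z : C) :
    Q x z ≤ 2 * Q x y + 2 * Q y z := by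
  obtain ⟨m, hm⟩ := h.cn x z (1/2) (by norm_num)
  have h1 := hm y
  have h0 := h.nonneg y m
  rw [h.symm y x] at h1
  linarith

/-- the carrier of the l2 product -/
structure L2T {C : Type*} (Q : ℕ → C → C → ℝ) (o : C) where
  val : ℕ → C
  summable : Summable fun k => Q k (val k) o

noncomputable def L2Q {C : Type*} (Q : ℕ → C → C → ℝ) (o : C) (u v : L2T Q o) : ℝ := ∑' k, Q k (u.val k) (v.val k)

theorem L2_summable {C : Type*} {Q : ℕ → C → C → ℝ} {o : C} (hQ : ∀ k, IsCNForm (Q k)) (u v : L2T Q o) :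
    Summable fun k => Q k (u.val k) (v.val k) := by
  have h1 : Summable fun k => 2 * Q k (u.val k) o + 2 * Q k (v.val k) o :=
    (u.summable.mul_left 2).add (v.summable.mul_left 2)
  refine Summable.of_nonneg_of_le (fun k => (hQ k).nonneg _ _) (fun k => ?_) h1
  have := (hQ k).quasi (u.val k) o (v.val k)
  rw [(hQ k).symm o (v.val k)] at this
  exact this

theorem L2_form {C : Type*} {Q : ℕ → C → C → ℝ} {o : C} (hQ : ∀ k, IsCNForm (Q k)) : IsCNForm (L2Q Q o) where
  nonneg u v := tsum_nonneg fun k => (hQ k).nonneg _ _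
  self u := by simp [L2Q, (hQ _).self]
  symm u v := tsum_congr fun k => (hQ k).symm _ _
  cn u v τ hτ := by
    choose m hm using fun k => (hQ k).cn (u.val k) (v.val k) τ hτ
    have hms : Summable fun k => Q k (m k) o := by
      have h1 : Summable fun k => (1 - τ) * Q k (u.val k) o + τ * Q k (v.val k) o :=
        (u.summable.mul_left _).add (v.summable.mul_left _)
      refine Summable.of_nonneg_of_le (fun k => (hQ k).nonneg _ _) (fun k => ?_) h1
      have h2 := hm k o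
      rw [(hQ k).symm o (m k), (hQ k).symm o (u.val k), (hQ k).symm o (v.val k)] at h2
      have h3 : 0 ≤ τ * (1 - τ) * Q k (u.val k) (v.val k) :=
        mul_nonneg (mul_nonneg hτ.1 (by linarith [hτ.2])) ((hQ k).nonneg _ _)
      linarith
    refine ⟨⟨m, hms⟩, fun z => ?_⟩
    have s1 := L2_summable hQ z ⟨m, hms⟩
    have s2 := L2_summable hQ z u
    have s3 := L2_summable hQ z v
    have s4 := L2_summable hQ u v
    have := s1.tsum_le_tsum (fun k => hm k (z.val k)) (((s2.mul_left (1 - τ)).add (s3.mul_left τ)).sub (s4.mul_left (τ * (1 - τ))))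
    rw [Summable.tsum_sub ((s2.mul_left (1 - τ)).add (s3.mul_left τ)) (s4.mul_left (τ * (1 - τ))),
      Summable.tsum_add (s2.mul_left (1 - τ)) (s3.mul_left τ), s2.tsum_mul_left, s3.tsum_mul_left, s4.tsum_mul_left] at this
    exact this

theorem L2_coord {C : Type*} {Q : ℕ → C → C → ℝ} {o : C} (hQ : ∀ k, IsCNForm (Q k)) (u v : L2T Q o) (k : ℕ) :
    Q k (u.val k) (v.val k) ≤ L2Q Q o u v :=
  (L2_summable hQ u v).le_tsum k (fun j _ => (hQ j).nonneg _ _)

end Bac815
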