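import Mathlib
set_option autoImplicit false
namespace Bac815
open Matrix
open scoped Matrix.Norms.L2Operator


theorem S_le_of_pow {a b C : ℝ} (_ha : 0 ≤ a) (hb : 0 ≤ b) (h : ∀ n : ℕ, a ^ (2 ^ n) ≤ C * b ^ (2 ^ n - 1)) : a ≤ b := by
  by_contra hlt
  push Not at hlt
  have ha' : 0 < a := lt_of_le_of_lt hb hlt
  rcases hb.eq_or_lt with hb0 | hb0
  · have := h 1
    rw [← hb0] at this
    norm_num at this
    have h2 : 0 < a ^ 2 := by positivity
    linarith
  · have h1 : 1 < a / b := by rw [lt_div_iff₀ hb0]; linarith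
    obtain ⟨n, hn⟩ := pow_unbounded_of_one_lt (C / b) h1
    have h3 : (a / b) ^ n ≤ (a / b) ^ (2 ^ n) := by
      apply pow_le_pow_right₀ h1.le
      exact Nat.lt_two_pow_self.le
    have h4 : (a / b) ^ (2 ^ n) ≤ C / b := by
      rw [div_pow, div_le_div_iff₀ (by positivity) hb0]
      have := h n
      have h5 : b ^ (2 ^ n) = b ^ (2 ^ n - 1) * b := by
        rw [← pow_succ]
        congr 1
        have : 0 < 2 ^ n := by positivity
        omega
      rw [h5]
      nlinarith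
    linarith

theorem S_cordes {E : Type*} [NormedRing E] [StarRing E] [CStarRing E] [NormOneClass E] (a b : E) (ha : IsSelfAdjoint a)
    (hb : IsSelfAdjoint b) : ‖a * b‖ ^ 2 ≤ ‖a ^ 2 * b ^ 2‖ := by
  set S : E := b * a * (a * b) with hS
  have hSsa : IsSelfAdjoint S := by
    rw [hS, isSelfAdjoint_iff]
    simp only [star_mul, ha.star_eq, hb.star_eq]
  have hSn : ‖S‖ = ‖a * b‖ ^ 2 := by
    have : S = star (a * b) * (a * b) := by
      rw [hS, star_mul, ha.star_eq, hb.star_eq]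
    rw [this, CStarRing.norm_star_mul_self, sq]
  have hpow : ∀ n : ℕ, S ^ (n + 1) = b * (a ^ 2 * b ^ 2) ^ n * (a ^ 2 * b) := by
    intro n
    induction n with
    | zero => simp only [zero_add, pow_one, pow_zero, mul_one, hS]; noncomm_ring
    | succ n ih =>
      rw [pow_succ, ih, pow_succ, hS]
      noncomm_ring
  rw [← hSn]
  apply S_le_of_pow (norm_nonneg _) (norm_nonneg _) (C := ‖b‖ * ‖a ^ 2 * b‖)
  intro n
  have h1 := hSsa.nnnorm_pow_two_pow n
  have h2 : ‖S ^ (2 ^ n)‖ = ‖S‖ ^ (2 ^ n) := by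
    have := congrArg NNReal.toReal h1
    simpa using this
  rw [← h2]
  obtain ⟨m, hm⟩ : ∃ m, 2 ^ n = m + 1 := ⟨2 ^ n - 1, by have : 0 < 2 ^ n := by positivity
                                                        omega⟩
  rw [hm, hpow m]
  simp only [Nat.add_sub_cancel]
  calc ‖b * (a ^ 2 * b ^ 2) ^ m * (a ^ 2 * b)‖ ≤ ‖b‖ * ‖(a ^ 2 * b ^ 2) ^ m‖ * ‖a ^ 2 * b‖ := by
        refine (norm_mul_le _ _).trans ?_
        gcongr
        exact norm_mul_le _ _
    _ ≤ ‖b‖ * ‖a ^ 2 * b ^ 2‖ ^ m * ‖a ^ 2 * b‖ := by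
        gcongr
        exact norm_pow_le _ m
    _ = _ := by ring


abbrev M3 := Matrix (Fin 3) (Fin 3) ℝ
abbrev SL3 := Matrix.SpecialLinearGroup (Fin 3) ℝ

theorem S_spec {S : M3} (hS : S.IsHermitian) :
    S = (hS.eigenvectorUnitary : M3) * diagonal hS.eigenvalues * star (hS.eigenvectorUnitary : M3) := by
  have h := hS.spectral_theorem
  rw [Unitary.conjStarAlgAut_apply] at h
  simpa using h

theorem S_exp_conj (U : unitaryGroup (Fin 3) ℝ) (d : Fin 3 → ℝ) :
    NormedSpace.exp ((U : M3) * diagonal d * star (U : M3)) =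
      (U : M3) * diagonal (fun i => Real.exp (d i)) * star (U : M3) := by
  have h := Matrix.exp_units_conj (Unitary.toUnits U) (diagonal d)
  have h1 : ((Unitary.toUnits U : (M3)ˣ) : M3) = (U : M3) := rfl
  have h2 : (((Unitary.toUnits U)⁻¹ : (M3)ˣ) : M3) = star (U : M3) := rfl
  rw [h1, h2] at h
  rw [h, Matrix.exp_diagonal]
  congr 3
  ext i
  rw [Pi.coe_exp]
  simp [Real.exp_eq_exp_ℝ]

theorem S_exp_spec {S : M3} (hS : S.IsHermitian) :
    NormedSpace.exp S = (hS.eigenvectorUnitary : M3) * diagonal (fun i => Real.exp (hS.eigenvalues i)) *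
      star (hS.eigenvectorUnitary : M3) := by
  conv_lhs => rw [S_spec hS]
  exact S_exp_conj _ _

theorem S_norm_conj (U : unitaryGroup (Fin 3) ℝ) (d : Fin 3 → ℝ) :
    ‖(U : M3) * diagonal d * star (U : M3)‖ = ‖d‖ := by
  have h2 : star (U : M3) = ((star U : unitaryGroup (Fin 3) ℝ) : M3) := rfl
  rw [h2, CStarRing.norm_mul_coe_unitary, CStarRing.norm_coe_unitary_mul, Matrix.l2_opNorm_diagonal]

theorem S_det_exp {S : M3} (hS : S.IsHermitian) : (NormedSpace.exp S).det = Real.exp S.trace := by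
  rw [S_exp_spec hS, hS.trace_eq_sum_eigenvalues]
  rw [Matrix.det_mul, Matrix.det_mul, Matrix.det_diagonal, mul_comm, ← mul_assoc, ← Matrix.det_mul]
  have : star (hS.eigenvectorUnitary : M3) * (hS.eigenvectorUnitary : M3) = 1 := by
    simp
  rw [this, Matrix.det_one, one_mul, ← Real.exp_sum]
  simp


theorem S_three (e : Fin 3 → ℝ) (h : ∑ k, e k = 0) (i j : Fin 3) (hi : ∀ k, e k ≤ e i) (hj : ∀ k, e j ≤ e k) :
    ∑ k, e k ^ 2 = 2 * (e i ^ 2 - e i * (-e j) + (-e j) ^ 2) ∧ -e j ≤ 2 * e i ∧ e i ≤ 2 * (-e j) := by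
  rw [Fin.sum_univ_three] at h ⊢
  have hi0 := hi 0
  have hi1 := hi 1
  have hi2 := hi 2
  have hj0 := hj 0
  have hj1 := hj 1
  have hj2 := hj 2
  fin_cases i <;> fin_cases j <;> simp only [Fin.isValue, Fin.reduceFinMk, Fin.mk_one, Fin.zero_eta] at * <;>
    refine ⟨?_, ?_, ?_⟩ <;> try linarith
  all_goals first
    | (have e0 : e 0 = 0 := by linarith
       have e1 : e 1 = 0 := by linarith
       have e2 : e 2 = 0 := by linarith
       simp [e0, e1, e2])
    | (have h2 : e 2 = -e 0 - e 1 := by linarith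
       rw [h2]; ring)

theorem S_norm_exp {S : M3} (hS : S.IsHermitian) : ∃ i j : Fin 3, (∀ k, hS.eigenvalues k ≤ hS.eigenvalues i) ∧
    (∀ k, hS.eigenvalues j ≤ hS.eigenvalues k) ∧ Real.log ‖NormedSpace.exp S‖ = hS.eigenvalues i ∧
    Real.log ‖NormedSpace.exp (-S)‖ = - hS.eigenvalues j := by
  obtain ⟨i, hi⟩ := Finite.exists_max hS.eigenvalues
  obtain ⟨j, hj⟩ := Finite.exists_min hS.eigenvalues
  refine ⟨i, j, hi, hj, ?_, ?_⟩
  · rw [S_exp_spec hS, S_norm_conj]
    have : ‖(fun i => Real.exp (hS.eigenvalues i))‖ = Real.exp (hS.eigenvalues i) := by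
      apply le_antisymm
      · rw [pi_norm_le_iff_of_nonneg (Real.exp_pos _).le]
        intro k
        rw [Real.norm_eq_abs, abs_of_pos (Real.exp_pos _)]
        exact Real.exp_le_exp.mpr (hi k)
      · have := norm_le_pi_norm (fun i => Real.exp (hS.eigenvalues i)) i
        rwa [Real.norm_eq_abs, abs_of_pos (Real.exp_pos _)] at this
    rw [this, Real.log_exp]
  · have h1 : -S = (hS.eigenvectorUnitary : M3) * diagonal (fun i => - hS.eigenvalues i) *
        star (hS.eigenvectorUnitary : M3) := by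
      conv_lhs => rw [S_spec hS]
      have hd : diagonal (fun i => - hS.eigenvalues i) = - diagonal hS.eigenvalues := by
        ext a b
        by_cases hab : a = b
        · subst hab; simp
        · simp [hab]
      rw [hd]
      noncomm_ring
    rw [h1, S_exp_conj, S_norm_conj]
    have : ‖(fun i => Real.exp (- hS.eigenvalues i))‖ = Real.exp (- hS.eigenvalues j) := by
      apply le_antisymm
      · rw [pi_norm_le_iff_of_nonneg (Real.exp_pos _).le]
        intro k
        rw [Real.norm_eq_abs, abs_of_pos (Real.exp_pos _)]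
        exact Real.exp_le_exp.mpr (neg_le_neg (hj k))
      · have := norm_le_pi_norm (fun i => Real.exp (- hS.eigenvalues i)) j
        rwa [Real.norm_eq_abs, abs_of_pos (Real.exp_pos _)] at this
    rw [this, Real.log_exp]

theorem S_trace_sq {S : M3} (hS : S.IsHermitian) : (S * S).trace = ∑ k, hS.eigenvalues k ^ 2 := by
  have h : S * S = (hS.eigenvectorUnitary : M3) * diagonal (fun k => hS.eigenvalues k ^ 2) *
      star (hS.eigenvectorUnitary : M3) := by
    conv_lhs => rw [S_spec hS]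
    have h3 : star (hS.eigenvectorUnitary : M3) * (hS.eigenvectorUnitary : M3) = 1 := by
      simp
    calc (hS.eigenvectorUnitary : M3) * diagonal hS.eigenvalues * star (hS.eigenvectorUnitary : M3) *
          ((hS.eigenvectorUnitary : M3) * diagonal hS.eigenvalues * star (hS.eigenvectorUnitary : M3))
        = (hS.eigenvectorUnitary : M3) * diagonal hS.eigenvalues * (star (hS.eigenvectorUnitary : M3) *
          (hS.eigenvectorUnitary : M3)) * diagonal hS.eigenvalues * star (hS.eigenvectorUnitary : M3) := by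
          noncomm_ring
      _ = _ := by
          rw [h3, mul_one, mul_assoc (hS.eigenvectorUnitary : M3), diagonal_mul_diagonal]
          simp only [sq]
  rw [h, Matrix.trace_mul_comm, ← mul_assoc]
  have h3 : star (hS.eigenvectorUnitary : M3) * (hS.eigenvectorUnitary : M3) = 1 := by simp
  rw [h3, one_mul, Matrix.trace_diagonal]


theorem S_cordes3 (a b : M3) (ha : a.IsHermitian) (hb : b.IsHermitian) : ‖a * b‖ ^ 2 ≤ ‖a ^ 2 * b ^ 2‖ :=
  S_cordes a b ha hb

theorem S_exp_pos_norm (X Y : M3) : 0 < ‖NormedSpace.exp X * NormedSpace.exp Y‖ := by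
  rw [norm_pos_iff]
  intro h
  have h1 : IsUnit (NormedSpace.exp X * NormedSpace.exp Y) :=
    (Matrix.isUnit_exp X).mul (Matrix.isUnit_exp Y)
  rw [h] at h1
  exact not_isUnit_zero h1

theorem S_double (X Y : M3) (hX : X.IsHermitian) (hY : Y.IsHermitian) (t : ℝ) :
    2 * Real.log ‖NormedSpace.exp (t • X) * NormedSpace.exp (t • Y)‖ ≤
      Real.log ‖NormedSpace.exp ((2 * t) • X) * NormedSpace.exp ((2 * t) • Y)‖ := by
  have h := S_cordes3 (NormedSpace.exp (t • X)) (NormedSpace.exp (t • Y))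
    (Matrix.IsHermitian.exp (by
      rw [Matrix.IsHermitian, conjTranspose_smul, hX.eq]; simp))
    (Matrix.IsHermitian.exp (by
      rw [Matrix.IsHermitian, conjTranspose_smul, hY.eq]; simp))
  have e1 : ∀ Z : M3, NormedSpace.exp (t • Z) ^ 2 = NormedSpace.exp ((2 * t) • Z) := by
    intro Z
    rw [mul_smul, two_smul, Matrix.exp_add_of_commute _ _ (Commute.refl _), sq]
  rw [e1, e1] at h
  have := Real.log_le_log (pow_pos (S_exp_pos_norm _ _) 2) h
  rw [Real.log_pow] at this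
  simpa using this

theorem S_double_iter (X Y : M3) (hX : X.IsHermitian) (hY : Y.IsHermitian) (n : ℕ) :
    2 ^ n * Real.log ‖NormedSpace.exp (((2:ℝ) ^ n)⁻¹ • X) * NormedSpace.exp (((2:ℝ) ^ n)⁻¹ • Y)‖ ≤
      Real.log ‖NormedSpace.exp X * NormedSpace.exp Y‖ := by
  induction n with
  | zero => simp
  | succ n ih =>
    refine le_trans ?_ ih
    have h := S_double X Y hX hY (((2:ℝ) ^ (n + 1))⁻¹)
    have e : 2 * ((2:ℝ) ^ (n + 1))⁻¹ = ((2:ℝ) ^ n)⁻¹ := by
      rw [pow_succ]; field_simp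
    rw [e] at h
    have := mul_le_mul_of_nonneg_left h (show (0:ℝ) ≤ 2 ^ n by positivity)
    calc _ = 2 ^ n * (2 * Real.log ‖NormedSpace.exp (((2:ℝ) ^ (n+1))⁻¹ • X) * NormedSpace.exp (((2:ℝ) ^ (n+1))⁻¹ • Y)‖) := by
          ring
      _ ≤ _ := this

/-- operator norm version of the exponential metric increasing property -/
theorem S_emi (X Y : M3) (hX : X.IsHermitian) (hY : Y.IsHermitian) (v : Fin 3 → ℝ) (hv : v ⬝ᵥ v = 1) :
    v ⬝ᵥ ((Y - X) *ᵥ v) ≤ Real.log ‖NormedSpace.exp (-X) * NormedSpace.exp Y‖ := by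
  set φ : ℝ → ℝ := fun t => v ⬝ᵥ ((NormedSpace.exp (t • (-X)) * NormedSpace.exp (t • Y)) *ᵥ v) with hφ
  have hlin : ∀ A : M3, v ⬝ᵥ (A *ᵥ v) = ∑ i, ∑ j, v i * (A i j * v j) := by
    intro A
    simp only [dotProduct, mulVec, Finset.mul_sum]
  set L : M3 →L[ℝ] ℝ := LinearMap.toContinuousLinearMap
    { toFun := fun A => v ⬝ᵥ (A *ᵥ v)
      map_add' := fun A B => by rw [add_mulVec, dotProduct_add]
      map_smul' := fun c A => by rw [smul_mulVec, dotProduct_smul]; rfl } with hL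
  have hL' : ∀ A : M3, L A = v ⬝ᵥ (A *ᵥ v) := fun A => rfl
  have hder : HasDerivAt φ (v ⬝ᵥ ((Y - X) *ᵥ v)) 0 := by
    have h1 := (hasDerivAt_exp_smul_const (𝕂 := ℝ) (-X) 0).mul (hasDerivAt_exp_smul_const (𝕂 := ℝ) Y 0)
    have h2 := L.hasFDerivAt.comp_hasDerivAt (0:ℝ) h1
    simp only [zero_smul, NormedSpace.exp_zero, one_mul, mul_one] at h2
    have e : -X + Y = Y - X := by abel
    rw [e] at h2
    rw [← hL']
    exact h2
  have hφ0 : φ 0 = 1 := by simp [hφ, hv]
  have hlog : HasDerivAt (fun t => Real.log (φ t)) (v ⬝ᵥ ((Y - X) *ᵥ v)) 0 := by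
    have := hder.log (by rw [hφ0]; norm_num)
    rwa [hφ0, div_one] at this
  have hbound : ∀ᶠ n : ℕ in Filter.atTop, (((2:ℝ) ^ n)⁻¹)⁻¹ * Real.log (φ (((2:ℝ) ^ n)⁻¹)) ≤
      Real.log ‖NormedSpace.exp (-X) * NormedSpace.exp Y‖ := by
    have hpos : ∀ᶠ t in nhds (0:ℝ), 0 < φ t := by
      have := hder.continuousAt.eventually (lt_mem_nhds (show (0:ℝ) < φ 0 by rw [hφ0]; norm_num))
      exact this
    have htend : Filter.Tendsto (fun n : ℕ => ((2:ℝ) ^ n)⁻¹) Filter.atTop (nhds 0) := by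
      exact tendsto_inv_atTop_zero.comp (tendsto_pow_atTop_atTop_of_one_lt (one_lt_two (α := ℝ)))
    filter_upwards [htend.eventually hpos] with n hn
    refine le_trans ?_ (S_double_iter (-X) Y hX.neg hY n)
    rw [inv_inv]
    apply mul_le_mul_of_nonneg_left _ (by positivity)
    apply Real.log_le_log hn
    have hcs : ∀ A : M3, v ⬝ᵥ (A *ᵥ v) ≤ ‖A‖ := by
      intro A
      have h1 := Matrix.l2_opNorm_mulVec A (WithLp.toLp 2 v)
      have hvn : ‖(WithLp.toLp 2 v : EuclideanSpace ℝ (Fin 3))‖ = 1 := by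
        rw [EuclideanSpace.norm_eq]
        simp only [dotProduct] at hv
        have : ∑ i, ‖v i‖ ^ 2 = 1 := by
          rw [← hv]
          exact Finset.sum_congr rfl fun i _ => by rw [Real.norm_eq_abs, sq_abs, sq]
        rw [this, Real.sqrt_one]
      rw [hvn, mul_one] at h1
      have h2 := real_inner_le_norm (WithLp.toLp 2 v : EuclideanSpace ℝ (Fin 3)) ((EuclideanSpace.equiv (Fin 3) ℝ).symm (A *ᵥ v))
      rw [hvn, one_mul] at h2
      refine le_trans (le_of_eq ?_) (h2.trans h1)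
      simp [dotProduct, PiLp.inner_apply, mul_comm]
    exact hcs _
  have hlim : Filter.Tendsto (fun n : ℕ => (((2:ℝ) ^ n)⁻¹)⁻¹ * Real.log (φ (((2:ℝ) ^ n)⁻¹))) Filter.atTop
      (nhds (v ⬝ᵥ ((Y - X) *ᵥ v))) := by
    have htend : Filter.Tendsto (fun n : ℕ => ((2:ℝ) ^ n)⁻¹) Filter.atTop (nhdsWithin 0 {0}ᶜ) := by
      rw [tendsto_nhdsWithin_iff]
      refine ⟨tendsto_inv_atTop_zero.comp (tendsto_pow_atTop_atTop_of_one_lt (one_lt_two (α := ℝ))), ?_⟩
      filter_upwards with n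
      simp
    have h := hlog.tendsto_slope_zero.comp htend
    refine h.congr fun n => ?_
    simp [hφ0]
  exact le_of_tendsto hlim hbound


noncomputable def F2 (M : M3) : ℝ :=
  2 * (Real.log ‖M‖ ^ 2 - Real.log ‖M‖ * Real.log ‖M⁻¹‖ + Real.log ‖M⁻¹‖ ^ 2)

theorem S_polar (g : M3) (hg : g.det = 1) : ∃ S : M3, S.IsHermitian ∧ S.trace = 0 ∧
    ∃ k : unitaryGroup (Fin 3) ℝ, g = NormedSpace.exp S * (k : M3) := by
  have hinj : Function.Injective g.vecMul := by
    apply Matrix.vecMul_injective_of_isUnit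
    rw [Matrix.isUnit_iff_isUnit_det, hg]
    exact isUnit_one
  have hA : (g * gᴴ).PosDef := Matrix.PosDef.mul_conjTranspose_self g hinj
  have hμ := hA.eigenvalues_pos
  set U := hA.1.eigenvectorUnitary with hU
  set μ := hA.1.eigenvalues with hμdef
  have hUU : star (U : M3) * (U : M3) = 1 := by simp
  have hUU' : (U : M3) * star (U : M3) = 1 := by simp
  have hspec : g * gᴴ = (U : M3) * diagonal μ * star (U : M3) := S_spec hA.1
  have hdet : ∏ i, μ i = 1 := by
    have h1 := hA.1.det_eq_prod_eigenvalues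
    rw [det_mul, det_conjTranspose, hg] at h1
    exact h1.symm.trans (by simp)
  refine ⟨(U : M3) * diagonal (fun i => (1/2) * Real.log (μ i)) * star (U : M3), ?_, ?_, ?_⟩
  · rw [Matrix.IsHermitian, star_eq_conjTranspose, conjTranspose_mul, conjTranspose_mul, conjTranspose_conjTranspose,
      diagonal_conjTranspose, mul_assoc]
    simp
  · rw [Matrix.trace_mul_comm, ← mul_assoc, hUU, one_mul, Matrix.trace_diagonal, ← Finset.mul_sum,
      ← Real.log_prod (fun i _ => (hμ i).ne'), hdet, Real.log_one, mul_zero]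
  · set E : M3 := (U : M3) * diagonal (fun i => Real.exp (-((1/2) * Real.log (μ i)))) * star (U : M3) with hE
    have hexp := S_exp_conj U (fun i => (1/2) * Real.log (μ i))
    rw [hexp]
    have hEinv : (U : M3) * diagonal (fun i => Real.exp ((1/2) * Real.log (μ i))) * star (U : M3) * E = 1 := by
      rw [hE]
      calc _ = (U : M3) * diagonal (fun i => Real.exp ((1/2) * Real.log (μ i))) * (star (U : M3) * (U : M3)) *
            diagonal (fun i => Real.exp (-((1/2) * Real.log (μ i)))) * star (U : M3) := by noncomm_ring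
        _ = 1 := by
          rw [hUU, mul_one, mul_assoc (U : M3), diagonal_mul_diagonal]
          simp only [← Real.exp_add, add_neg_cancel, Real.exp_zero]
          rw [show (diagonal fun _ : Fin 3 => (1:ℝ)) = 1 from diagonal_one, mul_one, hUU']
    have hEH : Eᴴ = E := by
      rw [hE, star_eq_conjTranspose, conjTranspose_mul, conjTranspose_mul, conjTranspose_conjTranspose,
        diagonal_conjTranspose, mul_assoc]
      simp
    have hEAE : E * (g * gᴴ) * E = 1 := by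
      rw [hspec, hE]
      calc _ = (U : M3) * diagonal (fun i => Real.exp (-((1/2) * Real.log (μ i)))) * (star (U : M3) * (U : M3)) *
            diagonal μ * (star (U : M3) * (U : M3)) *
            diagonal (fun i => Real.exp (-((1/2) * Real.log (μ i)))) * star (U : M3) := by noncomm_ring
        _ = 1 := by
          rw [hUU, mul_one, mul_one, mul_assoc (U : M3), diagonal_mul_diagonal, mul_assoc (U : M3), diagonal_mul_diagonal]
          have : (fun i => Real.exp (-((1/2) * Real.log (μ i))) * μ i * Real.exp (-((1/2) * Real.log (μ i)))) =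
              fun _ => (1:ℝ) := by
            ext i
            have h1 : μ i = Real.exp (Real.log (μ i)) := (Real.exp_log (hμ i)).symm
            nth_rewrite 2 [h1]
            rw [← Real.exp_add, ← Real.exp_add]
            rw [Real.exp_eq_one_iff]; ring
          rw [this, show (diagonal fun _ : Fin 3 => (1:ℝ)) = 1 from diagonal_one, mul_one, hUU']
    refine ⟨⟨E * g, ?_⟩, ?_⟩
    · rw [Matrix.mem_unitaryGroup_iff, star_eq_conjTranspose, conjTranspose_mul, hEH]
      calc E * g * (gᴴ * E) = E * (g * gᴴ) * E := by noncomm_ring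
        _ = 1 := hEAE
    · show g = _ * (E * g)
      rw [← mul_assoc, hEinv, one_mul]

theorem F2_mul_unitary (M : M3) (k : unitaryGroup (Fin 3) ℝ) : F2 (M * (k : M3)) = F2 M := by
  have h1 : (M * (k : M3))⁻¹ = ((star k : unitaryGroup (Fin 3) ℝ) : M3) * M⁻¹ := by
    rw [Matrix.mul_inv_rev]
    congr 1
    apply Matrix.inv_eq_right_inv
    exact Unitary.coe_mul_star_self k
  rw [F2, F2, h1, CStarRing.norm_mul_coe_unitary, CStarRing.norm_coe_unitary_mul]

theorem F2_unitary_mul (M : M3) (k : unitaryGroup (Fin 3) ℝ) : F2 ((k : M3) * M) = F2 M := by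
  have h1 : ((k : M3) * M)⁻¹ = M⁻¹ * ((star k : unitaryGroup (Fin 3) ℝ) : M3) := by
    rw [Matrix.mul_inv_rev]
    congr 1
    apply Matrix.inv_eq_right_inv
    exact Unitary.coe_mul_star_self k
  rw [F2, F2, h1, CStarRing.norm_mul_coe_unitary, CStarRing.norm_coe_unitary_mul]

theorem F2_inv (M : M3) (hM : IsUnit M.det) : F2 M⁻¹ = F2 M := by
  rw [F2, F2, Matrix.nonsing_inv_nonsing_inv M hM]; ring

theorem F2_exp {S : M3} (hS : S.IsHermitian) (ht : S.trace = 0) : F2 (NormedSpace.exp S) = (S * S).trace := by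
  obtain ⟨i, j, hi, hj, h1, h2⟩ := S_norm_exp hS
  have hsum : ∑ k, hS.eigenvalues k = 0 := by
    have := hS.trace_eq_sum_eigenvalues
    rw [ht] at this
    simpa using this.symm
  rw [F2, ← Matrix.exp_neg, h1, h2, S_trace_sq hS, (S_three _ hsum i j hi hj).1]

theorem F2_cone (g : M3) (hg : g.det = 1) : Real.log ‖g⁻¹‖ ≤ 2 * Real.log ‖g‖ ∧ Real.log ‖g‖ ≤ 2 * Real.log ‖g⁻¹‖ := by
  obtain ⟨S, hS, ht, k, rfl⟩ := S_polar g hg
  obtain ⟨i, j, hi, hj, h1, h2⟩ := S_norm_exp hS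
  have hsum : ∑ k, hS.eigenvalues k = 0 := by
    have := hS.trace_eq_sum_eigenvalues
    rw [ht] at this
    simpa using this.symm
  have h3 : (NormedSpace.exp S * (k : M3))⁻¹ = ((star k : unitaryGroup (Fin 3) ℝ) : M3) * NormedSpace.exp (-S) := by
    rw [Matrix.mul_inv_rev, Matrix.exp_neg]
    congr 1
    apply Matrix.inv_eq_right_inv
    exact Unitary.coe_mul_star_self k
  rw [h3, CStarRing.norm_mul_coe_unitary, CStarRing.norm_coe_unitary_mul, h1, h2]
  have := S_three _ hsum i j hi hj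
  exact ⟨this.2.1, this.2.2⟩

theorem F2_emi {X Y : M3} (hX : X.IsHermitian) (hY : Y.IsHermitian) (hXt : X.trace = 0) (hYt : Y.trace = 0) :
    ((Y - X) * (Y - X)).trace ≤ F2 (NormedSpace.exp (-X) * NormedSpace.exp Y) := by
  have hW : (Y - X).IsHermitian := hY.sub hX
  obtain ⟨i, hi⟩ := Finite.exists_max hW.eigenvalues
  obtain ⟨j, hj⟩ := Finite.exists_min hW.eigenvalues
  have hsum : ∑ k, hW.eigenvalues k = 0 := by
    have := hW.trace_eq_sum_eigenvalues
    rw [trace_sub, hXt, hYt] at this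
    simpa using this.symm
  obtain ⟨hF, hc1, hc2⟩ := S_three _ hsum i j hi hj
  rw [S_trace_sq hW, hF]
  have hev : ∀ k, (hW.eigenvectorBasis k).ofLp ⬝ᵥ (hW.eigenvectorBasis k).ofLp = 1 := by
    intro k
    have h1 := hW.eigenvectorBasis.orthonormal.1 k
    rw [EuclideanSpace.norm_eq, Real.sqrt_eq_one] at h1
    rw [dotProduct, ← h1]
    exact Finset.sum_congr rfl fun i _ => by rw [Real.norm_eq_abs, sq_abs, sq]
  have hp : hW.eigenvalues i ≤ Real.log ‖NormedSpace.exp (-X) * NormedSpace.exp Y‖ := by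
    have h1 := S_emi X Y hX hY _ (hev i)
    rw [hW.mulVec_eigenvectorBasis, dotProduct_smul, hev i] at h1
    simpa using h1
  have hinv : (NormedSpace.exp (-X) * NormedSpace.exp Y)⁻¹ = NormedSpace.exp (-Y) * NormedSpace.exp X := by
    rw [Matrix.mul_inv_rev, ← Matrix.exp_neg, ← Matrix.exp_neg, neg_neg]
  have hq : - hW.eigenvalues j ≤ Real.log ‖(NormedSpace.exp (-X) * NormedSpace.exp Y)⁻¹‖ := by
    rw [hinv]
    have h1 := S_emi Y X hY hX _ (hev j)
    have h2 : X - Y = -(Y - X) := by abel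
    rw [h2, neg_mulVec, dotProduct_neg, hW.mulVec_eigenvectorBasis, dotProduct_smul, hev j] at h1
    simpa using h1
  have hdet : (NormedSpace.exp (-X) * NormedSpace.exp Y).det = 1 := by
    rw [det_mul, S_det_exp hX.neg, S_det_exp hY, trace_neg, hXt, hYt]; simp
  obtain ⟨h3, h4⟩ := F2_cone _ hdet
  rw [F2]
  set p := Real.log ‖NormedSpace.exp (-X) * NormedSpace.exp Y‖
  set q := Real.log ‖(NormedSpace.exp (-X) * NormedSpace.exp Y)⁻¹‖
  set a := hW.eigenvalues i
  set b := - hW.eigenvalues j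
  nlinarith [mul_nonneg (sub_nonneg.2 hp) (add_nonneg (sub_nonneg.2 h3) (sub_nonneg.2 hc1)),
    mul_nonneg (sub_nonneg.2 hq) (add_nonneg (sub_nonneg.2 h4) (sub_nonneg.2 hc2))]


theorem F2_nonneg (M : M3) : 0 ≤ F2 M := by
  rw [F2]; nlinarith [sq_nonneg (Real.log ‖M‖ - Real.log ‖M⁻¹‖), sq_nonneg (Real.log ‖M‖), sq_nonneg (Real.log ‖M⁻¹‖)]

theorem F2_ge (M : M3) : Real.log ‖M‖ ^ 2 ≤ F2 M := by
  rw [F2]; nlinarith [sq_nonneg (Real.log ‖M‖ - Real.log ‖M⁻¹‖), sq_nonneg (Real.log ‖M‖), sq_nonneg (Real.log ‖M⁻¹‖)]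

theorem F2_one : F2 (1 : M3) = 0 := by
  rw [F2, inv_one, norm_one, Real.log_one]; norm_num

theorem SL_coe_inv (g : SL3) : ((g⁻¹ : SL3) : M3) = (g : M3)⁻¹ := by
  symm
  apply Matrix.inv_eq_right_inv
  rw [← Matrix.SpecialLinearGroup.coe_mul, mul_inv_cancel, Matrix.SpecialLinearGroup.coe_one]

/-- the element exp Z of SL3 -/
noncomputable def SLexp (Z : M3) (hZ : Z.IsHermitian) (ht : Z.trace = 0) : SL3 :=
  ⟨NormedSpace.exp Z, by rw [S_det_exp hZ, ht, Real.exp_zero]⟩

/-- squared distance on SL3 -/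
noncomputable def Qsl (g h : SL3) : ℝ := F2 ((g⁻¹ * h : SL3) : M3)

theorem Qsl_symm (g h : SL3) : Qsl g h = Qsl h g := by
  rw [Qsl, Qsl]
  have : ((g⁻¹ * h : SL3) : M3) = (((h⁻¹ * g : SL3)) : M3)⁻¹ := by
    rw [← SL_coe_inv, _root_.mul_inv_rev, inv_inv]
  rw [this, F2_inv]
  rw [Matrix.SpecialLinearGroup.det_coe]
  exact isUnit_one

theorem Qsl_cn (g h : SL3) (τ : ℝ) (_hτ : τ ∈ Set.Icc (0:ℝ) 1) : ∃ m : SL3, ∀ z : SL3,
    Qsl z m ≤ (1 - τ) * Qsl z g + τ * Qsl z h - τ * (1 - τ) * Qsl g h := by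
  obtain ⟨Y, hY, hYt, k, hk⟩ := S_polar ((g⁻¹ * h : SL3) : M3) (Matrix.SpecialLinearGroup.det_coe _)
  have hsm : ∀ c : ℝ, (c • Y).IsHermitian := fun c => by
    rw [Matrix.IsHermitian, conjTranspose_smul, hY.eq]; simp
  have hst : ∀ c : ℝ, (c • Y).trace = 0 := fun c => by rw [trace_smul, hYt, smul_zero]
  set m : SL3 := g * SLexp (τ • Y) (hsm τ) (hst τ) with hm
  refine ⟨m, fun z => ?_⟩
  obtain ⟨Z, hZ, hZt, k', hk'⟩ := S_polar ((m⁻¹ * z : SL3) : M3) (Matrix.SpecialLinearGroup.det_coe _)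
  have hgm : ((m⁻¹ * g : SL3) : M3) = NormedSpace.exp (-(τ • Y)) := by
    have : m⁻¹ * g = (SLexp (τ • Y) (hsm τ) (hst τ))⁻¹ := by rw [hm]; group
    rw [this, SL_coe_inv, Matrix.exp_neg]; rfl
  have hhm : ((m⁻¹ * h : SL3) : M3) = NormedSpace.exp ((1 - τ) • Y) * (k : M3) := by
    have : m⁻¹ * h = (SLexp (τ • Y) (hsm τ) (hst τ))⁻¹ * (g⁻¹ * h) := by rw [hm]; group
    rw [this, Matrix.SpecialLinearGroup.coe_mul, SL_coe_inv, hk, ← mul_assoc]
    congr 1
    show (NormedSpace.exp (τ • Y))⁻¹ * NormedSpace.exp Y = _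
    rw [← Matrix.exp_neg, ← Matrix.exp_add_of_commute]
    · congr 1; module
    · exact ((Commute.refl Y).smul_left τ).neg_left
  have hzm : ((z⁻¹ * m : SL3) : M3) = ((star k' : unitaryGroup (Fin 3) ℝ) : M3) * NormedSpace.exp (-Z) := by
    have : z⁻¹ * m = (m⁻¹ * z)⁻¹ := by group
    rw [this, SL_coe_inv, hk', Matrix.mul_inv_rev, Matrix.exp_neg]
    congr 1
    apply Matrix.inv_eq_right_inv
    exact Unitary.coe_mul_star_self k'
  have q1 : Qsl z m = (Z * Z).trace := by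
    rw [Qsl, hzm, F2_unitary_mul, F2_exp hZ.neg (by rw [trace_neg, hZt, neg_zero])]
    simp
  have q2 : ((Z + τ • Y) * (Z + τ • Y)).trace ≤ Qsl z g := by
    have e : (z⁻¹ * g : SL3) = (z⁻¹ * m) * (m⁻¹ * g) := by group
    rw [Qsl, e, Matrix.SpecialLinearGroup.coe_mul, hgm, hzm, mul_assoc, F2_unitary_mul]
    have := F2_emi hZ (hsm τ).neg hZt (by rw [trace_neg, hst, neg_zero])
    refine le_trans (le_of_eq ?_) this
    have e2 : -(τ • Y) - Z = -(Z + τ • Y) := by abel
    rw [e2, neg_mul_neg]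
  have q3 : (((1 - τ) • Y - Z) * ((1 - τ) • Y - Z)).trace ≤ Qsl z h := by
    have e : (z⁻¹ * h : SL3) = (z⁻¹ * m) * (m⁻¹ * h) := by group
    rw [Qsl, e, Matrix.SpecialLinearGroup.coe_mul, hhm, hzm, mul_assoc, F2_unitary_mul, ← mul_assoc, F2_mul_unitary]
    exact F2_emi hZ (hsm (1-τ)) hZt (hst _)
  have q4 : Qsl g h = (Y * Y).trace := by
    rw [Qsl, hk, F2_mul_unitary, F2_exp hY hYt]
  rw [q1, q4]
  have hid : (Z * Z).trace = (1 - τ) * ((Z + τ • Y) * (Z + τ • Y)).trace +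
      τ * (((1 - τ) • Y - Z) * ((1 - τ) • Y - Z)).trace - τ * (1 - τ) * (Y * Y).trace := by
    have e1 : ((Z + τ • Y) * (Z + τ • Y)).trace = (Z*Z).trace + 2 * τ * (Z * Y).trace + τ^2 * (Y * Y).trace := by
      rw [add_mul, mul_add, mul_add]
      simp only [trace_add, mul_smul_comm, smul_mul_assoc, trace_smul, smul_eq_mul]
      rw [Matrix.trace_mul_comm Y Z]; ring
    have e2 : (((1 - τ) • Y - Z) * ((1 - τ) • Y - Z)).trace = (1-τ)^2 * (Y*Y).trace - 2 * (1 - τ) * (Z * Y).trace + (Z * Z).trace := by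
      rw [sub_mul, mul_sub, mul_sub]
      simp only [trace_sub, mul_smul_comm, smul_mul_assoc, trace_smul, smul_eq_mul]
      rw [Matrix.trace_mul_comm Y Z]; ring
    rw [e1, e2]; ring
  rw [hid]
  have h1 := mul_le_mul_of_nonneg_left q2 (show 0 ≤ 1 - τ by linarith [_hτ.2])
  have h2 := mul_le_mul_of_nonneg_left q3 _hτ.1
  linarith

/-- Hadamard type bound -/
theorem det_le_norm (A : M3) : |A.det| ≤ ‖A‖ ^ 3 := by
  have hA : (Aᴴ * A).IsHermitian := isHermitian_conjTranspose_mul_self A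
  have hev : ∀ k, hA.eigenvalues k ≤ ‖A‖ ^ 2 := by
    intro k
    set v := hA.eigenvectorBasis k
    have hv1 : ‖v‖ = 1 := hA.eigenvectorBasis.orthonormal.1 k
    have h1 := Matrix.l2_opNorm_mulVec (Aᴴ * A) v
    rw [hA.mulVec_eigenvectorBasis, hv1, mul_one] at h1
    have h2 : ‖(EuclideanSpace.equiv (Fin 3) ℝ).symm (hA.eigenvalues k • v.ofLp)‖ = |hA.eigenvalues k| := by
      have : (EuclideanSpace.equiv (Fin 3) ℝ).symm (hA.eigenvalues k • v.ofLp) = hA.eigenvalues k • v := rfl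
      rw [this, norm_smul, hv1, mul_one, Real.norm_eq_abs]
    rw [h2] at h1
    have h3 : ‖Aᴴ * A‖ = ‖A‖ ^ 2 := by
      rw [sq]; exact CStarRing.norm_star_mul_self
    rw [h3] at h1
    exact (le_abs_self _).trans h1
  have hpos : (Aᴴ * A).PosSemidef := posSemidef_conjTranspose_mul_self A
  have hev0 : ∀ k, 0 ≤ hA.eigenvalues k := fun k => hpos.eigenvalues_nonneg k
  have hdet : A.det ^ 2 = ∏ k, hA.eigenvalues k := by
    have h1 := hA.det_eq_prod_eigenvalues
    rw [det_mul, det_conjTranspose] at h1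
    rw [sq]; exact h1
  have h4 : A.det ^ 2 ≤ (‖A‖ ^ 3) ^ 2 := by
    rw [hdet, Fin.prod_univ_three]
    have a0 := hev 0; have a1 := hev 1; have a2 := hev 2
    have b0 := hev0 0; have b1 := hev0 1; have b2 := hev0 2
    calc _ ≤ ‖A‖ ^ 2 * ‖A‖ ^ 2 * ‖A‖ ^ 2 := by gcongr
      _ = _ := by ring
  exact abs_le_of_sq_le_sq h4 (by positivity)

end Bac815
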