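import Pool.Agent.H665M.L1
import Pool.Agent.H665M.SL
set_option autoImplicit false
namespace Bac815
open Matrix
open scoped Matrix.Norms.L2Operator


theorem Qsl_form : IsCNForm Qsl where
  nonneg x y := F2_nonneg _
  self x := by rw [Qsl, inv_mul_cancel, Matrix.SpecialLinearGroup.coe_one, F2_one]
  symm := Qsl_symm
  cn := Qsl_cn

/-- SL3 with the symmetric space pseudo-metric -/
structure TS where
  val : SL3

theorem TS_form : IsCNForm (fun x y : TS => Qsl x.val y.val) where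
  nonneg x y := F2_nonneg _
  self x := Qsl_form.self _
  symm x y := Qsl_form.symm _ _
  cn x y τ hτ := by
    obtain ⟨m, hm⟩ := Qsl_cn x.val y.val τ hτ
    exact ⟨⟨m⟩, fun z => hm z.val⟩

noncomputable instance : PseudoMetricSpace TS := TS_form.pm

instance : MulAction SL3 TS where
  smul g x := ⟨g * x.val⟩
  one_smul x := by
    cases x
    show TS.mk (1 * _) = _
    rw [one_mul]
  mul_smul g h x := by
    cases x
    show TS.mk ((g * h) * _) = TS.mk (g * (h * _))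
    rw [mul_assoc]

theorem TS_dist (x y : TS) : dist x y = √(Qsl x.val y.val) := rfl

theorem TS_dist_sq (x y : TS) : dist x y ^ 2 = Qsl x.val y.val := Real.sq_sqrt (F2_nonneg _)

theorem TS_smul_val (g : SL3) (x : TS) : (g • x).val = g * x.val := rfl

theorem TS_iso (g : SL3) (x y : TS) : dist (g • x) (g • y) = dist x y := by
  rw [TS_dist, TS_dist, TS_smul_val, TS_smul_val, Qsl, Qsl]
  congr 3
  group

theorem TS_cn : ∀ x y : TS, ∀ τ ∈ Set.Icc (0 : ℝ) 1, ∃ m : TS, ∀ z : TS,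
      dist z m ^ 2 ≤ (1 - τ) * dist z x ^ 2 + τ * dist z y ^ 2 - τ * (1 - τ) * dist x y ^ 2 := by
  intro x y τ hτ
  obtain ⟨m, hm⟩ := TS_form.cn x y τ hτ
  refine ⟨m, fun z => ?_⟩
  rw [TS_dist_sq, TS_dist_sq, TS_dist_sq, TS_dist_sq]
  exact hm z

theorem TS_dist_ge (g : SL3) (x : TS) : Real.log ‖(((x.val⁻¹ * g * x.val : SL3)) : M3)‖ ≤ dist x (g • x) := by
  rw [TS_dist, TS_smul_val, Qsl, ← mul_assoc]
  exact (le_abs_self _).trans (Real.abs_le_sqrt (F2_ge _))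

theorem grp_pow_sub {G : Type*} [Group G] (g : G) {p q : ℕ} (h : p < q) : g ^ (q - p) = (g ^ p)⁻¹ * g ^ q := by
  rw [eq_inv_mul_iff_mul_eq, ← pow_add, Nat.add_sub_cancel' h.le]

/-- congruence subgroups -/
def Cong (O : Subring M3) (Γ : Subgroup SL3) (hΓ : ∀ g : SL3, g ∈ Γ ↔ (g : M3) ∈ O) (m : ℕ) : Subgroup Γ where
  carrier := {γ | ∃ y ∈ O, ((γ : SL3) : M3) - 1 = (m : ℝ) • y}
  one_mem' := ⟨0, O.zero_mem, by simp⟩
  mul_mem' := by
    rintro a b ⟨y, hy, ha⟩ ⟨z, hz, hb⟩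
    refine ⟨y * ((b : SL3) : M3) + z, O.add_mem (O.mul_mem hy ((hΓ _).1 b.2)) hz, ?_⟩
    have : (((a * b : Γ) : SL3) : M3) - 1 = (((a : SL3) : M3) - 1) * ((b : SL3) : M3) + (((b : SL3) : M3) - 1) := by
      rw [Subgroup.coe_mul, Matrix.SpecialLinearGroup.coe_mul]; noncomm_ring
    rw [this, ha, hb, smul_add, smul_mul_assoc]
  inv_mem' := by
    rintro a ⟨y, hy, ha⟩
    refine ⟨-(((a⁻¹ : Γ) : SL3) : M3) * y, O.mul_mem (O.neg_mem ((hΓ _).1 (a⁻¹).2)) hy, ?_⟩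
    have h1 : (((a⁻¹ : Γ) : SL3) : M3) * ((a : SL3) : M3) = 1 := by
      rw [← Matrix.SpecialLinearGroup.coe_mul, ← Subgroup.coe_mul, inv_mul_cancel]; rfl
    have : (((a⁻¹ : Γ) : SL3) : M3) - 1 = -(((a⁻¹ : Γ) : SL3) : M3) * (((a : SL3) : M3) - 1) := by
      rw [mul_sub, neg_mul, h1]; noncomm_ring
    rw [this, ha, mul_smul_comm]

section cong
variable {O : Subring M3} {Γ : Subgroup SL3} {hΓ : ∀ g : SL3, g ∈ Γ ↔ (g : M3) ∈ O}

theorem mem_Cong (m : ℕ) (γ : Γ) : γ ∈ Cong O Γ hΓ m ↔ ∃ y ∈ O, ((γ : SL3) : M3) - 1 = (m : ℝ) • y := Iff.rfl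

theorem Cong_normal (m : ℕ) : (Cong O Γ hΓ m).Normal := by
  constructor
  rintro a ⟨y, hy, ha⟩ g
  refine ⟨((g : SL3) : M3) * y * (((g⁻¹ : Γ) : SL3) : M3),
    O.mul_mem (O.mul_mem ((hΓ _).1 g.2) hy) ((hΓ _).1 (g⁻¹).2), ?_⟩
  have h1 : ((g : SL3) : M3) * (((g⁻¹ : Γ) : SL3) : M3) = 1 := by
    rw [← Matrix.SpecialLinearGroup.coe_mul, ← Subgroup.coe_mul, mul_inv_cancel]; rfl
  have : (((g * a * g⁻¹ : Γ) : SL3) : M3) - 1 = ((g : SL3) : M3) * (((a : SL3) : M3) - 1) * (((g⁻¹ : Γ) : SL3) : M3) := by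
    rw [Subgroup.coe_mul, Subgroup.coe_mul, Matrix.SpecialLinearGroup.coe_mul, Matrix.SpecialLinearGroup.coe_mul,
      mul_sub, sub_mul, mul_one, h1]
  rw [this, ha, mul_smul_comm, smul_mul_assoc]

theorem Cong_mono {m n : ℕ} (h : m ∣ n) : Cong O Γ hΓ n ≤ Cong O Γ hΓ m := by
  rintro a ⟨y, hy, ha⟩
  obtain ⟨t, rfl⟩ := h
  refine ⟨(t : ℝ) • y, ?_, ?_⟩
  · rw [Nat.cast_smul_eq_nsmul ℝ t y]
    exact O.nsmul_mem hy t
  · rw [ha, smul_smul]; push_cast; rfl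

theorem Cong_sys (hdi : ∀ x ∈ O, ∃ n : ℤ, x.det = n) (hdn : ∀ x ∈ O, x.det = 0 → x = 0)
    (m : ℕ) (hm : 3 ≤ m) (γ : Γ) (hγ : γ ∈ Cong O Γ hΓ m) (hne : γ ≠ 1) (x : TS) :
    Real.log (m - 1) ≤ dist x (γ • x) := by
  obtain ⟨y, hy, hgy⟩ := hγ
  have hy0 : y ≠ 0 := by
    intro h
    apply hne
    rw [h, smul_zero, sub_eq_zero] at hgy
    apply Subtype.ext
    apply Matrix.SpecialLinearGroup.ext
    intro i j
    rw [hgy]; rfl
  obtain ⟨n, hn⟩ := hdi y hy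
  have hn0 : n ≠ 0 := by
    intro h
    exact hy0 (hdn y hy (by rw [hn, h]; simp))
  have h1 : (1 : ℝ) ≤ |y.det| := by
    rw [hn]
    have : (1 : ℤ) ≤ |n| := Int.one_le_abs hn0
    exact_mod_cast this
  refine le_trans ?_ (TS_dist_ge (γ : SL3) x)
  set M : M3 := (((x.val⁻¹ * (γ : SL3) * x.val : SL3)) : M3) with hM
  have hm3 : (3 : ℝ) ≤ m := by exact_mod_cast hm
  apply Real.log_le_log (by linarith)
  have hxx : ((x.val⁻¹ : SL3) : M3) * ((x.val : SL3) : M3) = 1 := by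
    rw [← Matrix.SpecialLinearGroup.coe_mul, inv_mul_cancel]; rfl
  have h2 : M - 1 = (m : ℝ) • (((x.val⁻¹ : SL3) : M3) * y * ((x.val : SL3) : M3)) := by
    have : M - 1 = ((x.val⁻¹ : SL3) : M3) * (((γ : SL3) : M3) - 1) * ((x.val : SL3) : M3) := by
      rw [hM, Matrix.SpecialLinearGroup.coe_mul, Matrix.SpecialLinearGroup.coe_mul, mul_sub, sub_mul, mul_one, hxx]
    rw [this, hgy, mul_smul_comm, smul_mul_assoc]
  have h3 : |(M - 1).det| = (m : ℝ) ^ 3 * |y.det| := by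
    rw [h2, det_smul, det_mul, det_mul, Matrix.SpecialLinearGroup.det_coe, Matrix.SpecialLinearGroup.det_coe,
      abs_mul, abs_pow, one_mul, mul_one]
    simp
  have h4 := det_le_norm (M - 1)
  rw [h3] at h4
  have h5 : (m : ℝ) ^ 3 ≤ ‖M - 1‖ ^ 3 := by
    refine le_trans ?_ h4
    have : (0:ℝ) ≤ (m:ℝ)^3 := by positivity
    nlinarith
  have h6 : (m : ℝ) ≤ ‖M - 1‖ := le_of_pow_le_pow_left₀ (by norm_num) (norm_nonneg _) h5
  have h7 : ‖M - 1‖ ≤ ‖M‖ + 1 := by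
    refine (norm_sub_le _ _).trans ?_
    rw [norm_one]
  linarith

theorem Cong_pow (b : Module.Basis (Fin 9) ℝ M3) (hb : ∀ x, x ∈ O ↔ x ∈ Submodule.span ℤ (Set.range b))
    (m : ℕ) (hm : 1 ≤ m) (γ : Γ) (j : ℕ) : ∃ N, j ≤ N ∧ 1 ≤ N ∧ γ ^ N ∈ Cong O Γ hΓ m := by
  have hOrepr : ∀ x ∈ O, ∀ i, ∃ c : ℤ, b.repr x i = c := by
    intro x hx i
    have := (b.mem_span_iff_repr_mem ℤ x).1 ((hb x).1 hx) i
    obtain ⟨c, hc⟩ := this
    exact ⟨c, hc.symm⟩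
  have hreprO : ∀ x, (∀ i, ∃ c : ℤ, b.repr x i = c) → x ∈ O := by
    intro x hx
    rw [hb, b.mem_span_iff_repr_mem ℤ x]
    intro i
    obtain ⟨c, hc⟩ := hx i
    exact ⟨c, hc.symm⟩
  have : NeZero m := ⟨by omega⟩
  have hmem : ∀ k : ℕ, (((γ ^ k : Γ) : SL3) : M3) ∈ O := fun k => (hΓ _).1 (γ ^ k).2
  choose c hc using fun k : ℕ => hOrepr _ (hmem k)
  obtain ⟨p, q, hpq, hf⟩ := Finite.exists_ne_map_eq_of_infinite (fun k : ℕ => fun i : Fin 9 => (c k i : ZMod m))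
  wlog hlt : p < q generalizing p q
  · exact this q p hpq.symm hf.symm (lt_of_le_of_ne (not_lt.1 hlt) hpq.symm)
  have hdiff : ∃ y ∈ O, (((γ ^ q : Γ) : SL3) : M3) - (((γ ^ p : Γ) : SL3) : M3) = (m : ℝ) • y := by
    have hdvd : ∀ i, ∃ t : ℤ, c q i - c p i = m * t := by
      intro i
      have := congrFun hf i
      have h2 : ((c p i : ℤ) : ZMod m) = ((c q i : ℤ) : ZMod m) := this
      rw [ZMod.intCast_eq_intCast_iff_dvd_sub] at h2
      exact h2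
    choose t ht using hdvd
    refine ⟨b.repr.symm (Finsupp.equivFunOnFinite.symm fun i => (t i : ℝ)), ?_, ?_⟩
    · apply hreprO
      intro i
      refine ⟨t i, ?_⟩
      simp
    · apply b.repr.injective
      ext i
      rw [map_sub, map_smul, Finsupp.sub_apply, Finsupp.smul_apply, hc q i, hc p i]
      simp only [LinearEquiv.apply_symm_apply, Finsupp.equivFunOnFinite_symm_apply_apply, smul_eq_mul]
      have := ht i
      have h3 : ((c q i - c p i : ℤ) : ℝ) = ((m * t i : ℤ) : ℝ) := by rw [this]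
      push_cast at h3
      exact h3
  obtain ⟨y, hy, hyd⟩ := hdiff
  have hd : γ ^ (q - p) ∈ Cong O Γ hΓ m := by
    refine ⟨((((γ ^ p)⁻¹ : Γ) : SL3) : M3) * y, O.mul_mem ((hΓ _).1 ((γ ^ p)⁻¹).2) hy, ?_⟩
    have e1 : (((γ ^ (q - p) : Γ) : SL3) : M3) = ((((γ ^ p)⁻¹ : Γ) : SL3) : M3) * (((γ ^ q : Γ) : SL3) : M3) := by
      rw [← Matrix.SpecialLinearGroup.coe_mul, ← Subgroup.coe_mul]
      rw [grp_pow_sub γ hlt]
    have e2 : ((((γ ^ p)⁻¹ : Γ) : SL3) : M3) * (((γ ^ p : Γ) : SL3) : M3) = 1 := by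
      rw [← Matrix.SpecialLinearGroup.coe_mul, ← Subgroup.coe_mul, inv_mul_cancel]; rfl
    rw [e1]
    nth_rewrite 1 [← e2]
    rw [← mul_sub, hyd, mul_smul_comm]
  refine ⟨(q - p) * (j + 1), ?_, ?_, ?_⟩
  · have : 1 ≤ q - p := by omega
    nlinarith
  · have : 1 ≤ q - p := by omega
    nlinarith
  · rw [pow_mul]
    exact (Cong O Γ hΓ m).pow_mem hd _
end cong

end Bac815
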