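import Mathlib
set_option autoImplicit false
namespace Bac815
open Real

/-- `x cos x ≤ sin x` on `[0,π]`. -/
lemma x_cos_le_sin {x : ℝ} (h0 : 0 ≤ x) (h1 : x ≤ π) : x * cos x ≤ sin x := by
  have hanti : MonotoneOn (fun x : ℝ => sin x - x * cos x) (Set.Icc 0 π) := by
    apply monotoneOn_of_deriv_nonneg (convex_Icc 0 π)
    · fun_prop
    · intro x _
      apply DifferentiableAt.differentiableWithinAt
      fun_prop
    · intro x hx
      rw [interior_Icc] at hx
      have hd : HasDerivAt (fun x : ℝ => sin x - x * cos x) (cos x - (1 * cos x + x * (- sin x))) x :=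
        (Real.hasDerivAt_sin x).sub ((hasDerivAt_id x).mul (Real.hasDerivAt_cos x))
      rw [hd.deriv]
      have := Real.sin_pos_of_pos_of_lt_pi hx.1 hx.2
      nlinarith [hx.1]
  have := hanti (Set.left_mem_Icc.2 Real.pi_pos.le) ⟨h0, h1⟩ h0
  simp at this
  linarith

/-- comparison: `y'' + y ≤ 0`, `y(0) = y(c) = 0`, then `y ≥ 0`. -/
lemma sturm {c : ℝ} (hc : 0 < c) (hcπ : c < π) (y y' y'' : ℝ → ℝ)
    (hy : ∀ u ∈ Set.Icc 0 c, HasDerivAt y (y' u) u)
    (hy' : ∀ u ∈ Set.Icc 0 c, HasDerivAt y' (y'' u) u)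
    (hle : ∀ u ∈ Set.Icc 0 c, y'' u + y u ≤ 0) (h0 : y 0 = 0) (h1 : y c = 0)
    (u : ℝ) (hu : u ∈ Set.Icc 0 c) : 0 ≤ y u := by
  set z : ℝ → ℝ := fun u => y' u * sin u - y u * cos u with hz
  have hzd : ∀ u ∈ Set.Icc 0 c, HasDerivAt z ((y'' u + y u) * sin u) u := by
    intro u hu
    have h := ((hy' u hu).mul (Real.hasDerivAt_sin u)).sub ((hy u hu).mul (Real.hasDerivAt_cos u))
    refine h.congr_deriv ?_
    ring
  have hzanti : AntitoneOn z (Set.Icc 0 c) := by
    apply antitoneOn_of_deriv_nonpos (convex_Icc 0 c)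
    · intro u hu
      exact (hzd u hu).continuousAt.continuousWithinAt
    · intro u hu
      exact (hzd u (interior_subset hu)).differentiableAt.differentiableWithinAt
    · intro u hu
      rw [(hzd u (interior_subset hu)).deriv]
      rw [interior_Icc] at hu
      have := Real.sin_pos_of_pos_of_lt_pi hu.1 (hu.2.trans hcπ)
      exact mul_nonpos_of_nonpos_of_nonneg (hle u ⟨hu.1.le, hu.2.le⟩) this.le
  have hz0 : z 0 = 0 := by simp [hz, h0]
  have hzle : ∀ u ∈ Set.Icc 0 c, z u ≤ 0 := by
    intro u hu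
    have := hzanti (Set.left_mem_Icc.2 hc.le) hu hu.1
    rw [hz0] at this
    exact this
  rcases eq_or_lt_of_le hu.1 with h | hupos
  · rw [← h, h0]
  have hsin : ∀ v ∈ Set.Icc u c, 0 < sin v := fun v hv =>
    Real.sin_pos_of_pos_of_lt_pi (hupos.trans_le hv.1) (hv.2.trans_lt hcπ)
  have hq : AntitoneOn (fun v => y v / sin v) (Set.Icc u c) := by
    have hqd : ∀ v ∈ Set.Icc u c, HasDerivAt (fun v => y v / sin v) (z v / (sin v)^2) v := by
      intro v hv
      exact (hy v ⟨hupos.le.trans hv.1, hv.2⟩).div (Real.hasDerivAt_sin v) (hsin v hv).ne'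
    apply antitoneOn_of_deriv_nonpos (convex_Icc u c)
    · intro v hv
      exact (hqd v hv).continuousAt.continuousWithinAt
    · intro v hv
      exact (hqd v (interior_subset hv)).differentiableAt.differentiableWithinAt
    · intro v hv
      rw [(hqd v (interior_subset hv)).deriv]
      have hv' := interior_subset hv
      exact div_nonpos_of_nonpos_of_nonneg (hzle v ⟨hupos.le.trans hv'.1, hv'.2⟩) (sq_nonneg _)
  have := hq (Set.left_mem_Icc.2 hu.2) (Set.right_mem_Icc.2 hu.2) hu.2
  simp only [h1, zero_div] at this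
  have hs := hsin u (Set.left_mem_Icc.2 hu.2)
  have := mul_nonneg this hs.le
  rwa [div_mul_cancel₀ _ hs.ne'] at this

/-- Flat versus spherical comparison (`the median of the flat triangle with sides a,b,c is shorter than
the corresponding median of the spherical triangle'). -/
theorem J1_spherical (a b c θ e : ℝ) (ha : 0 ≤ a) (hb : 0 ≤ b) (hc : 0 < c) (hcπ : c < π)
    (hθ0 : 0 ≤ θ) (hθc : θ ≤ c) (h1 : a ≤ b + c) (h2 : b ≤ a + c) (h3 : c ≤ a + b)
    (hper : a + b + c < 2 * π) (he : 0 ≤ e)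
    (he2 : e ^ 2 ≤ (1 - θ / c) * a ^ 2 + (θ / c) * b ^ 2 - (θ / c) * (1 - θ / c) * c ^ 2) :
    sin (c - θ) * cos a + sin θ * cos b ≤ sin c * cos e ∧ e ≤ π := by
  obtain ⟨u0, hu0⟩ : ∃ u0 : ℝ, u0 = (c - (b ^ 2 - a ^ 2) / c) / 2 := ⟨_, rfl⟩
  obtain ⟨K, hK⟩ : ∃ K : ℝ, K = a ^ 2 - u0 ^ 2 := ⟨_, rfl⟩
  have hu0c : 2 * c * u0 = c ^ 2 - b ^ 2 + a ^ 2 := by
    rw [hu0]; field_simp; ring
  have hK0 : 0 ≤ K := by
    have h4 : 4 * c ^ 2 * K = (a + c - b) * (a + c + b) * ((b - a + c) * (b + a - c)) := by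
      have : 4 * c ^ 2 * K = 4 * c ^ 2 * a ^ 2 - (2 * c * u0) ^ 2 := by rw [hK]; ring
      rw [this, hu0c]; ring
    have h5 : 0 ≤ (a + c - b) * (a + c + b) * ((b - a + c) * (b + a - c)) := by
      apply mul_nonneg
      · exact mul_nonneg (by linarith) (by linarith)
      · exact mul_nonneg (by linarith) (by linarith)
    rw [← h4] at h5
    exact nonneg_of_mul_nonneg_right h5 (by positivity)
  set g : ℝ → ℝ := fun u => (u - u0) ^ 2 + K with hg
  have hgK : ∀ u, K ≤ g u := fun u => by simp only [hg]; nlinarith [sq_nonneg (u - u0)]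
  have hg0 : g 0 = a ^ 2 := by simp only [hg, hK]; ring
  have hgc : g c = b ^ 2 := by simp only [hg, hK]; nlinarith [hu0c]
  have hgθ : ∀ u, g u = (1 - u / c) * a ^ 2 + (u / c) * b ^ 2 - (u / c) * (1 - u / c) * c ^ 2 := by
    intro u
    simp only [hg, hK, hu0]
    field_simp
    ring
  have haπ : a < π := by linarith
  have hbπ : b < π := by linarith
  have hgπ : ∀ u ∈ Set.Icc 0 c, g u < π ^ 2 := by
    intro u hu
    rw [hgθ]
    have hq0 : 0 ≤ u / c := div_nonneg hu.1 hc.le
    have hq1 : u / c ≤ 1 := (div_le_one hc).2 hu.2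
    have ha2 : a ^ 2 < π ^ 2 := by nlinarith
    have hb2 : b ^ 2 < π ^ 2 := by nlinarith
    have h6 : 0 ≤ (u / c) * (1 - u / c) * c ^ 2 :=
      mul_nonneg (mul_nonneg hq0 (by linarith)) (sq_nonneg _)
    rcases eq_or_lt_of_le hq0 with h | h
    · rw [← h]; simpa using ha2
    · nlinarith [mul_pos h (sub_pos.2 hb2), mul_nonneg (sub_nonneg.2 hq1) (sub_pos.2 ha2).le]
  have hθ : θ ∈ Set.Icc 0 c := ⟨hθ0, hθc⟩
  have he3 : e ≤ sqrt (g θ) := by
    apply Real.le_sqrt_of_sq_le
    rw [hgθ]; exact he2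
  have hsπ : ∀ u ∈ Set.Icc 0 c, sqrt (g u) < π := fun u hu => by
    rw [Real.sqrt_lt' Real.pi_pos]
    exact hgπ u hu
  refine ⟨?_, he3.trans (hsπ θ hθ).le⟩
  have hsinc : 0 < sin c := Real.sin_pos_of_pos_of_lt_pi hc hcπ
  have hcos : cos (sqrt (g θ)) ≤ cos e :=
    Real.cos_le_cos_of_nonneg_of_le_pi he (hsπ θ hθ).le he3
  refine le_trans ?_ (mul_le_mul_of_nonneg_left hcos hsinc.le)
  have hsa : sqrt (g 0) = a := by rw [hg0, Real.sqrt_sq ha]
  have hsb : sqrt (g c) = b := by rw [hgc, Real.sqrt_sq hb]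
  rcases eq_or_lt_of_le hK0 with hKz | hKpos
  · -- K = 0
    have hcosu : ∀ u, cos (sqrt (g u)) = cos (u - u0) := by
      intro u
      simp only [hg, ← hKz, add_zero]
      rw [Real.sqrt_sq_eq_abs, Real.cos_abs]
    have e1 : cos a = cos (0 - u0) := by rw [← hcosu 0, hsa]
    have e2 : cos b = cos (c - u0) := by rw [← hcosu c, hsb]
    rw [e1, e2, hcosu θ]
    apply le_of_eq
    simp only [Real.cos_sub, Real.sin_sub, Real.cos_zero, Real.sin_zero]
    ring
  · -- K > 0
    have hgpos : ∀ u, 0 < g u := fun u => hKpos.trans_le (hgK u)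
    set s : ℝ → ℝ := fun u => sqrt (g u) with hs
    have hspos : ∀ u, 0 < s u := fun u => Real.sqrt_pos.2 (hgpos u)
    have hssq : ∀ u, s u ^ 2 = g u := fun u => Real.sq_sqrt (hgpos u).le
    have hgd : ∀ u, HasDerivAt g (2 * (u - u0)) u := by
      intro u
      have h := (((hasDerivAt_id u).sub_const u0).pow 2).add_const K
      refine h.congr_deriv ?_
      simp
    have hsd : ∀ u, HasDerivAt s ((u - u0) / s u) u := by
      intro u
      have h := (hgd u).sqrt (hgpos u).ne'
      refine h.congr_deriv ?_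
      have := (hspos u).ne'
      simp only [hs] at this ⊢
      field_simp
    set y : ℝ → ℝ := fun u => sin c * cos (s u) - sin (c - u) * cos a - sin u * cos b with hy
    set y' : ℝ → ℝ := fun u => sin c * (- sin (s u) * ((u - u0) / s u)) + cos (c - u) * cos a
      - cos u * cos b with hy'
    set y'' : ℝ → ℝ := fun u => sin c * (- cos (s u) * ((u - u0) / s u) ^ 2
      - sin (s u) * ((1 * s u - (u - u0) * ((u - u0) / s u)) / (s u) ^ 2)) + sin (c - u) * cos a
      + sin u * cos b with hy''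
    have key := sturm hc hcπ y y' y'' ?_ ?_ ?_ ?_ ?_ θ hθ
    · simp only [hy] at key
      show _ ≤ sin c * cos (s θ)
      linarith
    · intro u _
      have h1 := ((hsd u).cos).const_mul (sin c)
      have h2 := (((hasDerivAt_id u).const_sub c).sin).mul_const (cos a)
      have h3 := (Real.hasDerivAt_sin u).mul_const (cos b)
      have h := (h1.sub h2).sub h3
      refine h.congr_deriv ?_
      simp only [hy', id]
      ring
    · intro u _
      have h1 := (((hsd u).sin.neg).mul (((hasDerivAt_id u).sub_const u0).div (hsd u) (hspos u).ne')).const_mul (sin c)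
      have h2 := (((hasDerivAt_id u).const_sub c).cos).mul_const (cos a)
      have h3 := (Real.hasDerivAt_cos u).mul_const (cos b)
      have h := (h1.add h2).sub h3
      refine h.congr_deriv ?_
      simp only [hy'', id, Pi.div_apply, Pi.neg_apply]
      ring
    · intro u hu
      have hcalc : y'' u + y u = sin c * ((K / (s u) ^ 3) * (s u * cos (s u) - sin (s u))) := by
        have h1 := hssq u
        have h2 := (hspos u).ne'
        have h3 : (u - u0) ^ 2 = s u ^ 2 - K := by rw [h1]; simp only [hg]; ring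
        have h4 : ((u - u0) / s u) ^ 2 = (s u ^ 2 - K) / s u ^ 2 := by rw [div_pow, h3]
        have h5 : (1 * s u - (u - u0) * ((u - u0) / s u)) / (s u) ^ 2 = K / (s u) ^ 3 := by
          have : (u - u0) * ((u - u0) / s u) = (s u ^ 2 - K) / s u := by rw [← h3]; ring
          rw [this]; field_simp; ring
        simp only [hy'', hy]
        rw [h4, h5]
        field_simp
        ring
      rw [hcalc]
      apply mul_nonpos_of_nonneg_of_nonpos hsinc.le
      apply mul_nonpos_of_nonneg_of_nonpos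
      · exact div_nonneg hK0 (pow_nonneg (hspos u).le _)
      · have := x_cos_le_sin (hspos u).le (hsπ u hu).le
        simp only [hs] at this ⊢
        linarith
    · simp only [hy]
      have : s 0 = a := hsa
      rw [this]; simp
    · simp only [hy]
      have : s c = b := hsb
      rw [this]; simp

end Bac815
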