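import Pool.Agent.H665M.L3
import Pool.Agent.H665M.C1
import Pool.Agent.H665M.J1
set_option autoImplicit false
namespace Bac815
open Matrix Real Filter
open scoped Matrix.Norms.L2Operator NNReal


theorem lim_eps (m : ℕ) (hm : 1 ≤ m) (η : ℝ) (hη : 0 < η) :
    ∃ t : ℕ, 1 ≤ t ∧ 2 * π / Real.log (((m * t : ℕ) : ℝ) - 1) ≤ η := by
  have h1 : Tendsto (fun t : ℕ => Real.log (((m * t : ℕ) : ℝ) - 1)) atTop atTop := by
    apply Real.tendsto_log_atTop.comp
    apply tendsto_atTop_add_const_right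
    apply tendsto_natCast_atTop_atTop.comp
    exact tendsto_id.const_mul_atTop' (by omega)
  have h2 : Tendsto (fun t : ℕ => 2 * π / Real.log (((m * t : ℕ) : ℝ) - 1)) atTop (nhds 0) :=
    h1.const_div_atTop _
  have h3 := (h2.eventually (gt_mem_nhds hη)).and (eventually_ge_atTop 1)
  obtain ⟨t, ht1, ht2⟩ := h3.exists
  exact ⟨t, ht2, ht1.le⟩

theorem exists_seq (Dn : ℕ → ℝ) (hD : ∀ n, 0 ≤ Dn n) (Nf : ℕ → ℕ → ℕ) (m0 : ℕ) (hm0 : 4 ≤ m0) :
    ∃ M : ℕ → ℕ, M 0 = m0 ∧ (∀ k, M k ∣ M (k+1)) ∧ (∀ k, 4 ≤ M k) ∧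
      (∀ k, 2 * π / Real.log ((M (k+1) : ℝ) - 1) ≤ (2 * π / Real.log ((M k : ℝ) - 1)) / 2) ∧
      (∀ k, 2 * π / Real.log ((M (k+1) : ℝ) - 1) * (1 + Dn (Nf (M k) k)) ≤ (1/2)^(k+1)) := by
  have hnext : ∀ m k : ℕ, ∃ m' : ℕ, 4 ≤ m → (m ∣ m' ∧ 4 ≤ m' ∧
      2 * π / Real.log ((m' : ℝ) - 1) ≤ (2 * π / Real.log ((m : ℝ) - 1)) / 2 ∧
      2 * π / Real.log ((m' : ℝ) - 1) * (1 + Dn (Nf m k)) ≤ (1/2)^(k+1)) := by
    intro m k
    by_cases hm : 4 ≤ m
    · have hlog : 0 < Real.log ((m : ℝ) - 1) := by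
        apply Real.log_pos
        have : (4 : ℝ) ≤ m := by exact_mod_cast hm
        linarith
      have hD1 : 0 < 1 + Dn (Nf m k) := by linarith [hD (Nf m k)]
      obtain ⟨t, ht1, ht⟩ := lim_eps m (by omega) (min ((2 * π / Real.log ((m : ℝ) - 1)) / 2) ((1/2)^(k+1) / (1 + Dn (Nf m k))))
        (lt_min (by positivity) (by positivity))
      refine ⟨m * t, fun _ => ⟨dvd_mul_right _ _, ?_, ht.trans (min_le_left _ _), ?_⟩⟩
      · nlinarith
      · have := ht.trans (min_le_right _ _)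
        rwa [le_div_iff₀ hD1] at this
    · exact ⟨0, fun h => absurd h hm⟩
  choose nx hnx using hnext
  let M : ℕ → ℕ := fun k => Nat.rec m0 (fun k m => nx m k) k
  have hM1 : ∀ k, M (k+1) = nx (M k) k := fun k => rfl
  have hM4 : ∀ k, 4 ≤ M k := by
    intro k
    induction k with
    | zero => exact hm0
    | succ k ih => rw [hM1]; exact (hnx _ k ih).2.1
  refine ⟨M, rfl, fun k => ?_, hM4, fun k => ?_, fun k => ?_⟩
  · rw [hM1]; exact (hnx _ k (hM4 k)).1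
  · rw [hM1]; exact (hnx _ k (hM4 k)).2.2.1
  · rw [hM1]; exact (hnx _ k (hM4 k)).2.2.2

theorem exists_space {O : Subring M3} {Γ : Subgroup SL3} (hΓ : ∀ g : SL3, g ∈ Γ ↔ (g : M3) ∈ O)
    (hdi : ∀ x ∈ O, ∃ n : ℤ, x.det = n) (hdn : ∀ x ∈ O, x.det = 0 → x = 0)
    (b : Module.Basis (Fin 9) ℝ M3) (hb : ∀ x, x ∈ O ↔ x ∈ Submodule.span ℤ (Set.range b))
    (γ : Γ) (hinf : ∀ N, 1 ≤ N → γ ^ N ≠ 1) :
    ∃ (P : PD' Γ TS) (N : ℕ → ℕ), (∀ j, j ≤ N j) ∧ (∀ x : P.X, γ • x ≠ x) ∧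
      ∀ x : P.X, Tendsto (fun j => dist ((γ ^ (N j)) • x) x) atTop (nhds 0) := by
  -- the element δ
  obtain ⟨a, -, ha1, ha4⟩ := Cong_pow (hΓ := hΓ) b hb 4 (by norm_num) γ 0
  set δ := γ ^ a with hδdef
  have hδ1 : δ ≠ 1 := hinf a ha1
  set t0 : TS := ⟨1⟩ with ht0
  -- the initial level
  obtain ⟨m0, hm04, hm0δ⟩ : ∃ m0 : ℕ, 4 ∣ m0 ∧ 4 ≤ m0 ∧ δ ∉ Cong O Γ hΓ m0 := by
    have h1 : Tendsto (fun t : ℕ => Real.log (((4 * t : ℕ) : ℝ) - 1)) atTop atTop := by
      apply Real.tendsto_log_atTop.comp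
      apply tendsto_atTop_add_const_right
      apply tendsto_natCast_atTop_atTop.comp
      exact tendsto_id.const_mul_atTop' (by omega)
    obtain ⟨t, ht1, ht2⟩ := ((h1.eventually (eventually_gt_atTop (dist t0 (δ • t0)))).and (eventually_ge_atTop 1)).exists
    refine ⟨4 * t, dvd_mul_right _ _, by omega, fun hmem => ?_⟩
    have := Cong_sys hdi hdn (4 * t) (by omega) δ hmem hδ1 t0
    linarith
  obtain ⟨hm04', hm0δ⟩ := hm0δ
  have hNex : ∀ m k : ℕ, ∃ N, k ≤ N ∧ (1 ≤ m → γ ^ N ∈ Cong O Γ hΓ m) := by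
    intro m k
    by_cases hm : 1 ≤ m
    · obtain ⟨N, h1, _, h3⟩ := Cong_pow (hΓ := hΓ) b hb m hm γ k
      exact ⟨N, h1, fun _ => h3⟩
    · exact ⟨k, le_rfl, fun h => absurd h hm⟩
  choose Nf hNf1 hNf2 using hNex
  obtain ⟨M, hM0, hMd, hM4, hMh, hMD⟩ := exists_seq (fun n => dist ((γ ^ n) • t0) t0) (fun n => dist_nonneg) Nf m0 hm04'
  set ε : ℕ → ℝ := fun k => 2 * π / Real.log ((M k : ℝ) - 1) with hε
  have hlogpos : ∀ k, 0 < Real.log ((M k : ℝ) - 1) := fun k => by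
    apply Real.log_pos
    have : (4 : ℝ) ≤ M k := by exact_mod_cast hM4 k
    linarith
  have hεpos : ∀ k, 0 < ε k := fun k => div_pos (by positivity) (hlogpos k)
  have hdvd : ∀ i j, i ≤ j → M i ∣ M j := by
    intro i j hij
    induction hij with
    | refl => exact dvd_rfl
    | step _ ih => exact ih.trans (hMd _)
  have hgeo : ∀ i n, ε (i + n) ≤ ε i * (1/2)^n := by
    intro i n
    induction n with
    | zero => simp
    | succ n ih =>
      have := hMh (i + n)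
      calc ε (i + (n+1)) ≤ ε (i + n) / 2 := this
        _ ≤ ε i * (1/2)^n / 2 := by gcongr
        _ = _ := by rw [pow_succ]; ring
  have hεsum : Summable fun k => ε k ^ 2 := by
    have h1 : Summable fun k : ℕ => ε 0 ^ 2 * (1/4 : ℝ)^k :=
      (summable_geometric_of_lt_one (by norm_num) (by norm_num)).mul_left _
    refine Summable.of_nonneg_of_le (fun k => sq_nonneg _) (fun k => ?_) h1
    have h2 := hgeo 0 k
    rw [zero_add] at h2
    calc ε k ^ 2 ≤ (ε 0 * (1/2)^k)^2 := by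
          have := (hεpos k).le
          gcongr
      _ = ε 0 ^ 2 * (1/4)^k := by rw [mul_pow, ← pow_mul, mul_comm k 2, pow_mul]; norm_num
  have hsys : ∀ k, ∀ l ∈ Cong O Γ hΓ (M k), l ≠ 1 → ∀ x : TS, 2 * π ≤ ε k * dist x (l • x) := by
    intro k l hl hl1 x
    have h1 := Cong_sys hdi hdn (M k) (by have := hM4 k; omega) l hl hl1 x
    calc 2 * π = ε k * Real.log ((M k : ℝ) - 1) := by
          rw [hε]; field_simp [(hlogpos k).ne']
      _ ≤ _ := mul_le_mul_of_nonneg_left h1 (hεpos k).le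
  let P0 : PD Γ TS :=
    { t0 := t0
      Λ := fun k => Cong O Γ hΓ (M k)
      normal := fun k => Cong_normal (M k)
      ε := ε
      εpos := hεpos
      εsum := hεsum
      iso := fun g x y => TS_iso (g : SL3) x y
      cn := TS_cn
      sys := hsys }
  let P : PD' Γ TS := { P0 with form' := fun k => P0.form (fun a b c θ e => J1_spherical a b c θ e) k }
  set N : ℕ → ℕ := fun j => Nf (M j) j with hN
  refine ⟨P, N, fun j => hNf1 _ _, ?_, ?_⟩
  · -- no fixed point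
    intro x hx
    have hδx : δ • x = x := by
      have : ∀ n : ℕ, (γ ^ n) • x = x := by
        intro n
        induction n with
        | zero => simp
        | succ n ih => rw [pow_succ, mul_smul, hx, ih]
      exact this a
    refine P.no_fixed δ (Real.log 3) (Real.log_pos (by norm_num)) ?_ x hδx
    intro k l hl y
    have hlC : l ∈ Cong O Γ hΓ (M k) := hl
    have h4k : l ∈ Cong O Γ hΓ 4 := Cong_mono ((hm04.trans (hM0 ▸ hdvd 0 k (Nat.zero_le k)))) hlC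
    have hlδ : l * δ ∈ Cong O Γ hΓ 4 := (Cong O Γ hΓ 4).mul_mem h4k ha4
    have hne : l * δ ≠ 1 := by
      intro h
      have h1 : δ = l⁻¹ := (inv_eq_of_mul_eq_one_right h).symm
      apply hm0δ
      rw [h1]
      exact (Cong O Γ hΓ m0).inv_mem (Cong_mono (hM0 ▸ hdvd 0 k (Nat.zero_le k)) hlC)
    have := Cong_sys hdi hdn 4 (by norm_num) (l * δ) hlδ hne y
    norm_num at this
    exact this
  · -- recurrence
    intro x
    apply P.recur (fun j => γ ^ (N j))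
    · intro j i hij
      show γ ^ (N j) ∈ Cong O Γ hΓ (M i)
      exact Cong_mono (hdvd i j hij) (hNf2 (M j) j (by have := hM4 j; omega))
    · intro j k hjk
      show ε k * dist ((γ ^ (N j)) • t0) t0 ≤ (1/2)^k
      obtain ⟨n, rfl⟩ : ∃ n, k = (j + 1) + n := ⟨k - (j+1), by omega⟩
      have h1 := hgeo (j+1) n
      have h2 := hMD j
      have h3 : (0:ℝ) ≤ dist ((γ ^ (N j)) • t0) t0 := dist_nonneg
      have h4 : 0 ≤ ε (j+1) := (hεpos _).le
      calc ε (j + 1 + n) * dist ((γ ^ (N j)) • t0) t0 ≤ ε (j+1) * (1/2)^n * dist ((γ ^ (N j)) • t0) t0 := by gcongr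
        _ ≤ ε (j+1) * (1/2)^n * (1 + dist ((γ ^ (N j)) • t0) t0) := by
          apply mul_le_mul_of_nonneg_left (by linarith) (by positivity)
        _ = (1/2)^n * (ε (j+1) * (1 + dist ((γ ^ (N j)) • t0) t0)) := by ring
        _ ≤ (1/2)^n * (1/2)^(j+1) := by gcongr
        _ = (1/2)^(j+1+n) := by rw [← pow_add, add_comm]

end Bac815
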