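import Mathlib
set_option autoImplicit false
namespace Bac815
open Matrix Filter


/-- elementary matrices in SL3 -/
def El (a b : Fin 3) (h : a ≠ b) (t : ℝ) : Matrix.SpecialLinearGroup (Fin 3) ℝ :=
  ⟨Matrix.transvection a b t, Matrix.det_transvection_of_ne a b h t⟩

theorem El_zero (a b : Fin 3) (h : a ≠ b) : El a b h 0 = 1 := by
  apply Subtype.ext
  simp [El]

theorem El_continuous (a b : Fin 3) (h : a ≠ b) : Continuous (El a b h) := by
  apply Continuous.subtype_mk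
  unfold Matrix.transvection
  apply continuous_const.add
  apply continuous_matrix
  intro i j
  simp only [Matrix.single_apply]
  split_ifs
  · exact continuous_id
  · exact continuous_const

/-- diagonal element -/
def Dg (d : Fin 3 → ℝ) (hd : d 0 * d 1 * d 2 = 1) : Matrix.SpecialLinearGroup (Fin 3) ℝ :=
  ⟨Matrix.diagonal d, by rw [Matrix.det_diagonal, Fin.prod_univ_three, hd]⟩

theorem Dg_conj (D : Fin 3 → ℝ) (hD : D 0 * D 1 * D 2 = 1) (a b : Fin 3) (h : a ≠ b) (t s : ℝ)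
    (hs : D a * s = t * D b) : El a b h t * Dg D hD = Dg D hD * El a b h s := by
  apply Subtype.ext
  show Matrix.transvection a b t * Matrix.diagonal D = Matrix.diagonal D * Matrix.transvection a b s
  rw [Matrix.transvection, Matrix.transvection, add_mul, mul_add, one_mul, mul_one]
  congr 1
  ext i j
  rw [Matrix.mul_diagonal, Matrix.diagonal_mul, Matrix.single_apply, Matrix.single_apply]
  split_ifs with h1
  · rw [← h1.1, ← h1.2, ← hs]
  · simp

theorem Dg_pow (d : Fin 3 → ℝ) (hd : d 0 * d 1 * d 2 = 1) (n : ℕ) :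
    ∃ h, (Dg d hd) ^ n = Dg (fun i => d i ^ n) h := by
  have h : (fun i => d i ^ n) 0 * (fun i => d i ^ n) 1 * (fun i => d i ^ n) 2 = 1 := by
    show d 0 ^ n * d 1 ^ n * d 2 ^ n = 1
    rw [← mul_pow, ← mul_pow, hd, one_pow]
  refine ⟨h, ?_⟩
  apply Subtype.ext
  rw [Matrix.SpecialLinearGroup.coe_pow]
  show (Matrix.diagonal d) ^ n = _
  rw [Matrix.diagonal_pow]
  rfl

/-- a subgroup containing all elementary matrices contains the diagonal ones -/
theorem Dg_mem (S : Subgroup (Matrix.SpecialLinearGroup (Fin 3) ℝ))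
    (hS : ∀ a b h t, El a b h t ∈ S) (d : Fin 3 → ℝ) (hd : d 0 * d 1 * d 2 = 1) : Dg d hd ∈ S := by
  have h0 : d 0 ≠ 0 := by rintro h; simp [h] at hd
  have h1 : d 1 ≠ 0 := by rintro h; simp [h] at hd
  have h2 : d 2 ≠ 0 := by rintro h; simp [h] at hd
  have e01 : ∀ t, El 0 1 (by decide) t ∈ S := fun t => hS _ _ _ _
  have e10 : ∀ t, El 1 0 (by decide) t ∈ S := fun t => hS _ _ _ _
  have e12 : ∀ t, El 1 2 (by decide) t ∈ S := fun t => hS _ _ _ _
  have e21 : ∀ t, El 2 1 (by decide) t ∈ S := fun t => hS _ _ _ _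
  have key : Dg d hd =
      (El 0 1 (by decide) (d 0) * El 1 0 (by decide) (-(d 0)⁻¹) * El 0 1 (by decide) (d 0) *
        (El 0 1 (by decide) (-1) * El 1 0 (by decide) 1 * El 0 1 (by decide) (-1))) *
      (El 1 2 (by decide) (d 0 * d 1) * El 2 1 (by decide) (-(d 0 * d 1)⁻¹) * El 1 2 (by decide) (d 0 * d 1) *
        (El 1 2 (by decide) (-1) * El 2 1 (by decide) 1 * El 1 2 (by decide) (-1))) := by
    have hd2 : d 2 = (d 0 * d 1)⁻¹ := by
      exact eq_inv_of_mul_eq_one_left (by linarith)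
    apply Subtype.ext
    simp only [Matrix.SpecialLinearGroup.coe_mul]
    show Matrix.diagonal d = _
    have m01 : ∀ t, ((El 0 1 (by decide) t : Matrix.SpecialLinearGroup (Fin 3) ℝ) : Matrix (Fin 3) (Fin 3) ℝ) = !![1, t, 0; 0, 1, 0; 0, 0, 1] := by
      intro t; show Matrix.transvection 0 1 t = _
      ext i j; fin_cases i <;> fin_cases j <;> simp [Matrix.transvection]
    have m10 : ∀ t, ((El 1 0 (by decide) t : Matrix.SpecialLinearGroup (Fin 3) ℝ) : Matrix (Fin 3) (Fin 3) ℝ) = !![1, 0, 0; t, 1, 0; 0, 0, 1] := by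
      intro t; show Matrix.transvection 1 0 t = _
      ext i j; fin_cases i <;> fin_cases j <;> simp [Matrix.transvection]
    have m12 : ∀ t, ((El 1 2 (by decide) t : Matrix.SpecialLinearGroup (Fin 3) ℝ) : Matrix (Fin 3) (Fin 3) ℝ) = !![1, 0, 0; 0, 1, t; 0, 0, 1] := by
      intro t; show Matrix.transvection 1 2 t = _
      ext i j; fin_cases i <;> fin_cases j <;> simp [Matrix.transvection]
    have m21 : ∀ t, ((El 2 1 (by decide) t : Matrix.SpecialLinearGroup (Fin 3) ℝ) : Matrix (Fin 3) (Fin 3) ℝ) = !![1, 0, 0; 0, 1, 0; 0, t, 1] := by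
      intro t; show Matrix.transvection 2 1 t = _
      ext i j; fin_cases i <;> fin_cases j <;> simp [Matrix.transvection]
    simp only [m01, m10, m12, m21]
    have A1 : (!![1, d 0, 0; 0, 1, 0; 0, 0, 1] * !![1, 0, 0; -(d 0)⁻¹, 1, 0; 0, 0, 1] * !![1, d 0, 0; 0, 1, 0; 0, 0, 1] *
        (!![1, -1, 0; 0, 1, 0; 0, 0, 1] * !![1, 0, 0; 1, 1, 0; 0, 0, 1] * !![1, -1, 0; 0, 1, 0; 0, 0, 1]) : Matrix (Fin 3) (Fin 3) ℝ) =
        !![d 0, 0, 0; 0, (d 0)⁻¹, 0; 0, 0, 1] := by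
      ext i j; fin_cases i <;> fin_cases j <;> simp [Matrix.mul_apply, Fin.sum_univ_three] <;> (try field_simp) <;> (try ring_nf) <;> (try simp)
    have A2 : (!![1, 0, 0; 0, 1, d 0 * d 1; 0, 0, 1] * !![1, 0, 0; 0, 1, 0; 0, -(d 0 * d 1)⁻¹, 1] * !![1, 0, 0; 0, 1, d 0 * d 1; 0, 0, 1] *
        (!![1, 0, 0; 0, 1, -1; 0, 0, 1] * !![1, 0, 0; 0, 1, 0; 0, 1, 1] * !![1, 0, 0; 0, 1, -1; 0, 0, 1]) : Matrix (Fin 3) (Fin 3) ℝ) =
        !![1, 0, 0; 0, d 0 * d 1, 0; 0, 0, (d 0 * d 1)⁻¹] := by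
      ext i j; fin_cases i <;> fin_cases j <;> simp [Matrix.mul_apply, Fin.sum_univ_three] <;> (try field_simp) <;> (try ring_nf) <;> (try simp)
    rw [A1, A2]
    ext i j; fin_cases i <;> fin_cases j <;> simp [Matrix.mul_apply, Fin.sum_univ_three, h0, hd2]
  rw [key]
  exact S.mul_mem
    (S.mul_mem (S.mul_mem (S.mul_mem (e01 _) (e10 _)) (e01 _)) (S.mul_mem (S.mul_mem (e01 _) (e10 _)) (e01 _)))
    (S.mul_mem (S.mul_mem (S.mul_mem (e12 _) (e21 _)) (e12 _)) (S.mul_mem (S.mul_mem (e12 _) (e21 _)) (e12 _)))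

/-- Mautner phenomenon -/
theorem mautner {G : Type*} [Group G] [TopologicalSpace G] {Z : Type*} [MetricSpace Z] (ρ : G →* (Z ≃ᵢ Z))
    (z : Z) (hc : Continuous fun g : G => ρ g z) (g v : ℕ → G) (u : G)
    (hu : ∀ j, u = g j * v j * (g j)⁻¹) (hv : Tendsto v atTop (nhds 1))
    (hg : Tendsto (fun j => dist (ρ (g j) z) z) atTop (nhds 0)) : ρ u z = z := by
  have h1 : ∀ j, dist (ρ u z) z ≤ 2 * dist (ρ (g j) z) z + dist (ρ (v j) z) z := by
    intro j
    have e0 : dist (ρ (g j)⁻¹ z) z = dist (ρ (g j) z) z := by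
      rw [← (ρ (g j)).isometry.dist_eq (ρ (g j)⁻¹ z) z]
      have : ρ (g j) (ρ (g j)⁻¹ z) = z := by
        rw [← IsometryEquiv.mul_apply, ← map_mul, mul_inv_cancel, map_one]; rfl
      rw [this, dist_comm]
    have e1 : ρ u z = ρ (g j) (ρ (v j) (ρ (g j)⁻¹ z)) := by
      conv_lhs => rw [hu j, map_mul, map_mul]
      rfl
    have e2 : z = ρ (g j) (ρ (g j)⁻¹ z) := by
      rw [← IsometryEquiv.mul_apply, ← map_mul, mul_inv_cancel, map_one]; rfl
    have e3 : dist (ρ u z) z = dist (ρ (v j) (ρ (g j)⁻¹ z)) (ρ (g j)⁻¹ z) := by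
      rw [e1]
      nth_rewrite 2 [e2]
      exact (ρ (g j)).isometry.dist_eq _ _
    rw [e3]
    have e4 := dist_triangle4 (ρ (v j) (ρ (g j)⁻¹ z)) (ρ (v j) z) z (ρ (g j)⁻¹ z)
    rw [(ρ (v j)).isometry.dist_eq, dist_comm z (ρ (g j)⁻¹ z), e0] at e4
    linarith
  have h2 : Tendsto (fun j => dist (ρ (v j) z) z) atTop (nhds 0) := by
    have h3 : Tendsto (fun j => ρ (v j) z) atTop (nhds (ρ 1 z)) := (hc.tendsto 1).comp hv
    rw [map_one] at h3
    exact tendsto_iff_dist_tendsto_zero.1 h3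
  have h4 : Tendsto (fun j => 2 * dist (ρ (g j) z) z + dist (ρ (v j) z) z) atTop (nhds 0) := by
    have := (hg.const_mul 2).add h2
    simpa using this
  have h5 : dist (ρ u z) z ≤ 0 := ge_of_tendsto' h4 h1
  exact dist_le_zero.1 h5

end Bac815
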