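import Mathlib
set_option autoImplicit false

namespace Bac815
open Filter Topology in
/-- Bruhat-Tits fixed point theorem (circumcentre lemma) in a complete metric space with the CN inequality. -/
theorem J2_fixedPoint {X : Type*} [MetricSpace X] [CompleteSpace X]
    (hCN : ∀ x y : X, ∃ m : X, ∀ z : X,
      dist z m ^ 2 ≤ (dist z x ^ 2 + dist z y ^ 2) / 2 - dist x y ^ 2 / 4)
    {H : Type*} [Group H] (φ : H →* (X ≃ᵢ X)) (x₀ : X)
    (hb : Bornology.IsBounded (Set.range fun h : H => φ h x₀)) :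
    ∃ x : X, ∀ h : H, φ h x = x := by
  obtain ⟨r, hr⟩ : ∃ r : X → ℝ, ∀ x, r x = ⨆ h : H, dist x (φ h x₀) := ⟨_, fun _ => rfl⟩
  have hbdd : ∀ x, BddAbove (Set.range fun h : H => dist x (φ h x₀)) := by
    intro x
    obtain ⟨C, hC⟩ := (Metric.isBounded_iff_subset_closedBall x).1 hb
    refine ⟨C, ?_⟩
    rintro _ ⟨h, rfl⟩
    have := hC ⟨h, rfl⟩
    rw [Metric.mem_closedBall, dist_comm] at this
    exact this
  have h1 : ∀ x h, dist x (φ h x₀) ≤ r x := by
    intro x h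
    rw [hr]
    exact le_ciSup (hbdd x) h
  have h2 : ∀ x C, (∀ h, dist x (φ h x₀) ≤ C) → r x ≤ C := by
    intro x C h
    rw [hr]
    exact ciSup_le h
  have h3 : ∀ x, 0 ≤ r x := fun x => dist_nonneg.trans (h1 x 1)
  have hX : Nonempty X := ⟨x₀⟩
  obtain ⟨R, hR⟩ : ∃ R : ℝ, R = ⨅ x, r x := ⟨_, rfl⟩
  have hRbdd : BddBelow (Set.range r) := ⟨0, by rintro _ ⟨x, rfl⟩; exact h3 x⟩
  have hR0 : 0 ≤ R := by rw [hR]; exact le_ciInf h3
  have hRle : ∀ x, R ≤ r x := by intro x; rw [hR]; exact ciInf_le hRbdd x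
  have key : ∀ x y, dist x y ^ 2 ≤ 2 * r x ^ 2 + 2 * r y ^ 2 - 4 * R ^ 2 := by
    intro x y
    obtain ⟨m, hm⟩ := hCN x y
    have h4 : ∀ h, dist m (φ h x₀) ^ 2 ≤ (r x ^ 2 + r y ^ 2) / 2 - dist x y ^ 2 / 4 := by
      intro h
      have e := hm (φ h x₀)
      have e1 : dist (φ h x₀) x ^ 2 ≤ r x ^ 2 := by
        rw [dist_comm]; exact pow_le_pow_left₀ dist_nonneg (h1 x h) 2
      have e2 : dist (φ h x₀) y ^ 2 ≤ r y ^ 2 := by
        rw [dist_comm]; exact pow_le_pow_left₀ dist_nonneg (h1 y h) 2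
      rw [dist_comm]
      linarith
    have hQ : 0 ≤ (r x ^ 2 + r y ^ 2) / 2 - dist x y ^ 2 / 4 := (sq_nonneg _).trans (h4 1)
    have h5 : r m ≤ Real.sqrt ((r x ^ 2 + r y ^ 2) / 2 - dist x y ^ 2 / 4) :=
      h2 m _ (fun h => Real.le_sqrt_of_sq_le (h4 h))
    have h6 : R ^ 2 ≤ (r x ^ 2 + r y ^ 2) / 2 - dist x y ^ 2 / 4 := by
      rw [← Real.sq_sqrt hQ]
      exact pow_le_pow_left₀ hR0 ((hRle m).trans h5) 2
    linarith
  -- minimising sequence
  have hseq : ∀ n : ℕ, ∃ x, r x < R + 1 / ((n : ℝ) + 1) := by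
    intro n
    have : (⨅ x, r x) < R + 1 / ((n : ℝ) + 1) := by
      rw [← hR]
      have : (0 : ℝ) < 1 / ((n : ℝ) + 1) := by positivity
      linarith
    exact exists_lt_of_ciInf_lt this
  choose x hx using hseq
  have htend : Tendsto (fun n : ℕ => R + 1 / ((n : ℝ) + 1)) atTop (𝓝 R) := by
    have := (tendsto_one_div_add_atTop_nhds_zero_nat (𝕜 := ℝ)).const_add R
    simpa using this
  have hcau : CauchySeq x := by
    refine cauchySeq_of_le_tendsto_0
      (fun N : ℕ => Real.sqrt (4 * (R + 1 / ((N : ℝ) + 1)) ^ 2 - 4 * R ^ 2)) ?_ ?_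
    · intro n m N hn hm
      apply Real.le_sqrt_of_sq_le
      have hmono : ∀ k : ℕ, N ≤ k → r (x k) ^ 2 ≤ (R + 1 / ((N : ℝ) + 1)) ^ 2 := by
        intro k hk
        apply pow_le_pow_left₀ (h3 _)
        refine (hx k).le.trans ?_
        have hk' : (N : ℝ) ≤ k := by exact_mod_cast hk
        gcongr
      have := key (x n) (x m)
      have := hmono n hn
      have := hmono m hm
      linarith
    · have e : Tendsto (fun N : ℕ => Real.sqrt (4 * (R + 1 / ((N : ℝ) + 1)) ^ 2 - 4 * R ^ 2))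
          atTop (𝓝 (Real.sqrt (4 * R ^ 2 - 4 * R ^ 2))) :=
        (((htend.pow 2).const_mul 4).sub_const _).sqrt
      simpa using e
  obtain ⟨y, hy⟩ := cauchySeq_tendsto_of_complete hcau
  have hry : r y ≤ R := by
    apply h2
    intro h
    have e1 : Tendsto (fun n => dist (x n) (φ h x₀)) atTop (𝓝 (dist y (φ h x₀))) :=
      hy.dist tendsto_const_nhds
    exact le_of_tendsto_of_tendsto' e1 htend (fun n => (h1 _ h).trans (hx n).le)
  refine ⟨y, fun g => ?_⟩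
  have hrg : r (φ g y) ≤ R := by
    refine (h2 _ _ (fun h => ?_)).trans hry
    have e : φ h x₀ = φ g (φ (g⁻¹ * h) x₀) := by
      rw [← IsometryEquiv.mul_apply, ← map_mul, mul_inv_cancel_left]
    rw [e, (φ g).dist_eq]
    exact h1 _ _
  have e1 := key (φ g y) y
  have e2 : r y ^ 2 ≤ R ^ 2 := pow_le_pow_left₀ (h3 _) hry 2
  have e3 : r (φ g y) ^ 2 ≤ R ^ 2 := pow_le_pow_left₀ (h3 _) hrg 2
  have e4 : dist (φ g y) y ^ 2 ≤ 0 := by linarith
  have e5 : dist (φ g y) y = 0 := by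
    have := sq_nonneg (dist (φ g y) y)
    exact pow_eq_zero_iff (two_ne_zero) |>.1 (le_antisymm e4 this)
  exact dist_eq_zero.1 e5

end Bac815
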