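import Mathlib
set_option autoImplicit false

namespace Bac815
/-- The maximal-order-like properties we need of a subring of the real 3 x 3 matrices. -/
structure J3_GoodOrder (O : Subring (Matrix (Fin 3) (Fin 3) ℝ)) : Prop where
  basis : ∃ b : Module.Basis (Fin 9) ℝ (Matrix (Fin 3) (Fin 3) ℝ),
    ∀ x, x ∈ O ↔ x ∈ Submodule.span ℤ (Set.range b)
  det_int : ∀ x ∈ O, ∃ n : ℤ, x.det = n
  det_ne : ∀ x ∈ O, x.det = 0 → x = 0
  adj : ∀ x ∈ O, x.adjugate ∈ O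

namespace J3aux

/-- conjugates -/
noncomputable def t (x : ℝ) : Fin 3 → ℝ := ![x, x ^ 2 - 2, 1 - x - x ^ 2]

lemma t_cubic (x : ℝ) (hx : x ^ 3 = -x ^ 2 + 2 * x + 1) (i : Fin 3) :
    (t x i) ^ 3 = -(t x i) ^ 2 + 2 * (t x i) + 1 := by
  fin_cases i
  · simpa [t] using hx
  · simp only [t, Fin.mk_one, Matrix.cons_val_one, Matrix.cons_val_zero, Matrix.cons_val]
    linear_combination (x ^ 3 - x ^ 2 - 2 * x + 1) * hx
  · simp only [t, Fin.reduceFinMk, Matrix.cons_val]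
    linear_combination (-x ^ 3 - 2 * x ^ 2 + x + 1) * hx

lemma t_succ (x : ℝ) (hx : x ^ 3 = -x ^ 2 + 2 * x + 1) (i : Fin 3) :
    t x (i + 1) = (t x i) ^ 2 - 2 := by
  fin_cases i
  · simp [t]
  · simp only [t, Fin.mk_one, Fin.reduceAdd, Matrix.cons_val_one, Matrix.cons_val_zero, Matrix.cons_val]
    linear_combination (-(x - 1)) * hx
  · simp only [t, Fin.reduceFinMk, Fin.reduceAdd, Matrix.cons_val, Matrix.cons_val_zero]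
    linear_combination (-(x + 1)) * hx

/-- values of integer quadratic polynomials -/
def A (x : ℝ) (hx : x ^ 3 = -x ^ 2 + 2 * x + 1) : Subring (Fin 3 → ℝ) where
  carrier := {f | ∃ a0 a1 a2 : ℤ, ∀ i, f i = a0 + a1 * t x i + a2 * (t x i) ^ 2}
  mul_mem' := by
    rintro f g ⟨a0, a1, a2, hf⟩ ⟨b0, b1, b2, hg⟩
    refine ⟨a0 * b0 + (a1 * b2 + a2 * b1) - a2 * b2, a0 * b1 + a1 * b0 + 2 * (a1 * b2 + a2 * b1) - a2 * b2,
      a0 * b2 + a1 * b1 + a2 * b0 - (a1 * b2 + a2 * b1) + 3 * (a2 * b2), fun i => ?_⟩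
    rw [Pi.mul_apply, hf, hg]
    push_cast
    linear_combination ((a1 : ℝ) * b2 + a2 * b1 + a2 * b2 * (t x i - 1)) * t_cubic x hx i
  one_mem' := ⟨1, 0, 0, fun i => by simp⟩
  add_mem' := by
    rintro f g ⟨a0, a1, a2, hf⟩ ⟨b0, b1, b2, hg⟩
    refine ⟨a0 + b0, a1 + b1, a2 + b2, fun i => ?_⟩
    rw [Pi.add_apply, hf, hg]
    push_cast
    ring
  zero_mem' := ⟨0, 0, 0, fun i => by simp⟩
  neg_mem' := by
    rintro f ⟨a0, a1, a2, hf⟩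
    refine ⟨-a0, -a1, -a2, fun i => ?_⟩
    rw [Pi.neg_apply, hf]
    push_cast
    ring

/-- cyclic shift -/
def sh (f : Fin 3 → ℝ) : Fin 3 → ℝ := fun i => f (i + 1)

lemma sh_mem (x : ℝ) (hx : x ^ 3 = -x ^ 2 + 2 * x + 1) (f : Fin 3 → ℝ) (hf : f ∈ A x hx) :
    sh f ∈ A x hx := by
  obtain ⟨a0, a1, a2, hf⟩ := hf
  refine ⟨a0 - 2 * a1 + 3 * a2, -a2, a1 - a2, fun i => ?_⟩
  rw [sh, hf, t_succ x hx]
  push_cast
  linear_combination ((a2 : ℝ) * (t x i - 1)) * t_cubic x hx i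

/-- the matrix attached to a triple -/
def Mx (f g h : Fin 3 → ℝ) : Matrix (Fin 3) (Fin 3) ℝ :=
  !![f 0, g 0, h 0; 2 * h 1, f 1, g 1; 2 * g 2, 2 * h 2, f 2]

lemma Mx_mul (f g h f' g' h' : Fin 3 → ℝ) : Mx f g h * Mx f' g' h' =
    Mx (f * f' + (g * sh h' + g * sh h') + (h * sh (sh g') + h * sh (sh g')))
      (f * g' + g * sh f' + (h * sh (sh h') + h * sh (sh h')))
      (f * h' + g * sh g' + h * sh (sh f')) := by
  ext i j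
  fin_cases i <;> fin_cases j <;>
    simp [Mx, Matrix.mul_apply, Fin.sum_univ_three, sh] <;> ring

lemma Mx_add (f g h f' g' h' : Fin 3 → ℝ) : Mx f g h + Mx f' g' h' = Mx (f + f') (g + g') (h + h') := by
  ext i j
  fin_cases i <;> fin_cases j <;> simp [Mx] <;> ring

lemma Mx_neg (f g h : Fin 3 → ℝ) : -Mx f g h = Mx (-f) (-g) (-h) := by
  ext i j
  fin_cases i <;> fin_cases j <;> simp [Mx]

lemma Mx_one : Mx 1 0 0 = 1 := by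
  ext i j
  fin_cases i <;> fin_cases j <;> simp [Mx]

lemma Mx_zero : Mx 0 0 0 = 0 := by
  ext i j
  fin_cases i <;> fin_cases j <;> simp [Mx]

lemma Mx_adj (f g h : Fin 3 → ℝ) : (Mx f g h).adjugate =
    Mx (sh f * sh (sh f) - (sh g * sh (sh h) + sh g * sh (sh h)))
      (h * sh (sh h) + h * sh (sh h) - g * sh (sh f))
      (g * sh g - h * sh f) := by
  rw [Mx, Matrix.adjugate_fin_three_of]
  ext i j
  fin_cases i <;> fin_cases j <;> simp [Mx, sh] <;> ring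

/-- the order -/
def O (x : ℝ) (hx : x ^ 3 = -x ^ 2 + 2 * x + 1) : Subring (Matrix (Fin 3) (Fin 3) ℝ) where
  carrier := {M | ∃ f ∈ A x hx, ∃ g ∈ A x hx, ∃ h ∈ A x hx, M = Mx f g h}
  mul_mem' := by
    rintro M M' ⟨f, hf, g, hg, h, hh, rfl⟩ ⟨f', hf', g', hg', h', hh', rfl⟩
    have s := sh_mem x hx
    refine ⟨_, ?_, _, ?_, _, ?_, Mx_mul f g h f' g' h'⟩
    · exact add_mem (add_mem (mul_mem hf hf') (add_mem (mul_mem hg (s _ hh')) (mul_mem hg (s _ hh'))))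
        (add_mem (mul_mem hh (s _ (s _ hg'))) (mul_mem hh (s _ (s _ hg'))))
    · exact add_mem (add_mem (mul_mem hf hg') (mul_mem hg (s _ hf')))
        (add_mem (mul_mem hh (s _ (s _ hh'))) (mul_mem hh (s _ (s _ hh'))))
    · exact add_mem (add_mem (mul_mem hf hh') (mul_mem hg (s _ hg'))) (mul_mem hh (s _ (s _ hf')))
  one_mem' := ⟨1, one_mem _, 0, zero_mem _, 0, zero_mem _, Mx_one.symm⟩
  add_mem' := by
    rintro M M' ⟨f, hf, g, hg, h, hh, rfl⟩ ⟨f', hf', g', hg', h', hh', rfl⟩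
    exact ⟨_, add_mem hf hf', _, add_mem hg hg', _, add_mem hh hh', Mx_add f g h f' g' h'⟩
  zero_mem' := ⟨0, zero_mem _, 0, zero_mem _, 0, zero_mem _, Mx_zero.symm⟩
  neg_mem' := by
    rintro M ⟨f, hf, g, hg, h, hh, rfl⟩
    exact ⟨_, neg_mem hf, _, neg_mem hg, _, neg_mem hh, Mx_neg f g h⟩

/-- integer form of the norm -/
def N (a0 a1 a2 : ℤ) : ℤ := a0 ^ 3 - a0 ^ 2 * a1 + 5 * a0 ^ 2 * a2 - 2 * a0 * a1 ^ 2 - a0 * a1 * a2 +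
  6 * a0 * a2 ^ 2 + a1 ^ 3 - a1 ^ 2 * a2 - 2 * a1 * a2 ^ 2 + a2 ^ 3

/-- integer trilinear form -/
def T (a0 a1 a2 b0 b1 b2 c0 c1 c2 : ℤ) : ℤ :=
  3*a0*b0*c0 -a0*b0*c1 +5*a0*b0*c2 -a0*b1*c0 -2*a0*b1*c1 -4*a0*b1*c2 +5*a0*b2*c0 +3*a0*b2*c1 +6*a0*b2*c2 -a1*b0*c0 -2*a1*b0*c1 +3*a1*b0*c2 -2*a1*b1*c0 +3*a1*b1*c1 -a1*b1*c2 -4*a1*b2*c0 -a1*b2*c1 -2*a1*b2*c2 +5*a2*b0*c0 -4*a2*b0*c1 +6*a2*b0*c2 +3*a2*b1*c0 -a2*b1*c1 -2*a2*b1*c2 +6*a2*b2*c0 -2*a2*b2*c1 +3*a2*b2*c2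

/-- function with given coordinates -/
noncomputable def fn (x : ℝ) (a : Fin 3 → ℝ) : Fin 3 → ℝ := fun i => a 0 + a 1 * t x i + a 2 * (t x i) ^ 2

lemma sq1 (x : ℝ) (hx : x ^ 3 = -x ^ 2 + 2 * x + 1) : (x ^ 2 - 2) ^ 2 = 3 - x - x ^ 2 := by
  linear_combination (x - 1) * hx

lemma sq2 (x : ℝ) (hx : x ^ 3 = -x ^ 2 + 2 * x + 1) : (1 - x - x ^ 2) ^ 2 = x + 2 := by
  linear_combination (x + 1) * hx

lemma fn_vals (x : ℝ) (hx : x ^ 3 = -x ^ 2 + 2 * x + 1) (a : Fin 3 → ℝ) :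
    fn x a 0 = a 0 + a 1 * x + a 2 * x ^ 2 ∧ fn x a 1 = a 0 + a 1 * (x ^ 2 - 2) + a 2 * (3 - x - x ^ 2) ∧
    fn x a 2 = a 0 + a 1 * (1 - x - x ^ 2) + a 2 * (x + 2) := by
  refine ⟨by simp [fn, t], ?_, ?_⟩
  · rw [← sq1 x hx]; simp [fn, t]
  · rw [← sq2 x hx]; simp [fn, t]

lemma N_eq (x : ℝ) (hx : x ^ 3 = -x ^ 2 + 2 * x + 1) (a : Fin 3 → ℤ) :
    fn x (fun i => (a i : ℝ)) 0 * fn x (fun i => (a i : ℝ)) 1 * fn x (fun i => (a i : ℝ)) 2 =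
      ((N (a 0) (a 1) (a 2) : ℤ) : ℝ) := by
  obtain ⟨h0, h1, h2⟩ := fn_vals x hx (fun i => (a i : ℝ))
  rw [h0, h1, h2, N]
  push_cast
  generalize (a 0 : ℝ) = a0
  generalize (a 1 : ℝ) = a1
  generalize (a 2 : ℝ) = a2
  linear_combination (a0*a1*a2*x -a0*a1^2*x -a0*a2^2*x -2*a1*a2^2 -2*a1*a2^2*x +2*a1*a2^2*x^2 +a1*a2^2*x^3 -a1^2*a2 +3*a1^2*a2*x +a1^2*a2*x^2 -a1^2*a2*x^3 +a1^3 -a1^3*x^2 +a2^3 -2*a2^3*x -a2^3*x^2) * hx

set_option maxHeartbeats 4000000 in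
lemma T_eq (x : ℝ) (hx : x ^ 3 = -x ^ 2 + 2 * x + 1) (a b c : Fin 3 → ℤ) :
    fn x (fun i => (a i : ℝ)) 0 * fn x (fun i => (b i : ℝ)) 1 * fn x (fun i => (c i : ℝ)) 2 +
    fn x (fun i => (a i : ℝ)) 1 * fn x (fun i => (b i : ℝ)) 2 * fn x (fun i => (c i : ℝ)) 0 +
    fn x (fun i => (a i : ℝ)) 2 * fn x (fun i => (b i : ℝ)) 0 * fn x (fun i => (c i : ℝ)) 1 =
      ((T (a 0) (a 1) (a 2) (b 0) (b 1) (b 2) (c 0) (c 1) (c 2) : ℤ) : ℝ) := by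
  obtain ⟨h0, h1, h2⟩ := fn_vals x hx (fun i => (a i : ℝ))
  obtain ⟨k0, k1, k2⟩ := fn_vals x hx (fun i => (b i : ℝ))
  obtain ⟨l0, l1, l2⟩ := fn_vals x hx (fun i => (c i : ℝ))
  rw [h0, h1, h2, k0, k1, k2, l0, l1, l2, T]
  push_cast
  generalize (a 0 : ℝ) = a0
  generalize (a 1 : ℝ) = a1
  generalize (a 2 : ℝ) = a2
  generalize (b 0 : ℝ) = b0
  generalize (b 1 : ℝ) = b1
  generalize (b 2 : ℝ) = b2
  generalize (c 0 : ℝ) = c0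
  generalize (c 1 : ℝ) = c1
  generalize (c 2 : ℝ) = c2
  linear_combination (-a0*b1*c1*x -a0*b1*c2*x +2*a0*b2*c1*x -a0*b2*c2*x -a1*b0*c1*x +2*a1*b0*c2*x -a1*b1*c0*x +3*a1*b1*c1 -3*a1*b1*c1*x^2 -a1*b1*c2 +3*a1*b1*c2*x +a1*b1*c2*x^2 -a1*b1*c2*x^3 -a1*b2*c0*x -a1*b2*c1 +3*a1*b2*c1*x +a1*b2*c1*x^2 -a1*b2*c1*x^3 -2*a1*b2*c2 -2*a1*b2*c2*x +2*a1*b2*c2*x^2 +a1*b2*c2*x^3 -a2*b0*c1*x -a2*b0*c2*x +2*a2*b1*c0*x -a2*b1*c1 +3*a2*b1*c1*x +a2*b1*c1*x^2 -a2*b1*c1*x^3 -2*a2*b1*c2 -2*a2*b1*c2*x +2*a2*b1*c2*x^2 +a2*b1*c2*x^3 -a2*b2*c0*x -2*a2*b2*c1 -2*a2*b2*c1*x +2*a2*b2*c1*x^2 +a2*b2*c1*x^3 +3*a2*b2*c2 -6*a2*b2*c2*x -3*a2*b2*c2*x^2) * hx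

/-- integer determinant form -/
def D (a b c : Fin 3 → ℤ) : ℤ := N (a 0) (a 1) (a 2) + 2 * N (b 0) (b 1) (b 2) + 4 * N (c 0) (c 1) (c 2) -
  2 * T (a 0) (a 1) (a 2) (b 0) (b 1) (b 2) (c 0) (c 1) (c 2)

lemma det_eq (x : ℝ) (hx : x ^ 3 = -x ^ 2 + 2 * x + 1) (a b c : Fin 3 → ℤ) :
    (Mx (fn x (fun i => (a i : ℝ))) (fn x (fun i => (b i : ℝ))) (fn x (fun i => (c i : ℝ)))).det =
      ((D a b c : ℤ) : ℝ) := by
  have h1 := N_eq x hx a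
  have h2 := N_eq x hx b
  have h3 := N_eq x hx c
  have h4 := T_eq x hx a b c
  rw [D]
  push_cast
  rw [← h1, ← h2, ← h3, ← h4, Mx, Matrix.det_fin_three]
  simp
  ring

lemma N_even (a0 a1 a2 : ℤ) (h : (2 : ℤ) ∣ N a0 a1 a2) : (2 : ℤ) ∣ a0 ∧ (2 : ℤ) ∣ a1 ∧ (2 : ℤ) ∣ a2 := by
  have h1 : ((N a0 a1 a2 : ℤ) : ZMod 2) = 0 := (ZMod.intCast_zmod_eq_zero_iff_dvd _ 2).2 (by exact_mod_cast h)
  have key : ∀ a b c : ZMod 2, a ^ 3 - a ^ 2 * b + 5 * a ^ 2 * c - 2 * a * b ^ 2 - a * b * c +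
      6 * a * c ^ 2 + b ^ 3 - b ^ 2 * c - 2 * b * c ^ 2 + c ^ 3 = 0 → a = 0 ∧ b = 0 ∧ c = 0 := by decide
  rw [N] at h1
  push_cast at h1
  obtain ⟨r0, r1, r2⟩ := key _ _ _ h1
  exact ⟨by exact_mod_cast (ZMod.intCast_zmod_eq_zero_iff_dvd _ 2).1 r0,
    by exact_mod_cast (ZMod.intCast_zmod_eq_zero_iff_dvd _ 2).1 r1,
    by exact_mod_cast (ZMod.intCast_zmod_eq_zero_iff_dvd _ 2).1 r2⟩

lemma N_two (a b c : ℤ) : N (2 * a) (2 * b) (2 * c) = 8 * N a b c := by unfold N; ring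

lemma T_1 (a0 a1 a2 b0 b1 b2 c0 c1 c2 : ℤ) : T (2 * a0) (2 * a1) (2 * a2) b0 b1 b2 c0 c1 c2 =
    2 * T a0 a1 a2 b0 b1 b2 c0 c1 c2 := by unfold T; ring

lemma T_2 (a0 a1 a2 b0 b1 b2 c0 c1 c2 : ℤ) : T a0 a1 a2 (2 * b0) (2 * b1) (2 * b2) c0 c1 c2 =
    2 * T a0 a1 a2 b0 b1 b2 c0 c1 c2 := by unfold T; ring

lemma T_3 (a0 a1 a2 b0 b1 b2 c0 c1 c2 : ℤ) : T a0 a1 a2 b0 b1 b2 (2 * c0) (2 * c1) (2 * c2) =
    2 * T a0 a1 a2 b0 b1 b2 c0 c1 c2 := by unfold T; ring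

lemma D_zero (m : ℕ) : ∀ a0 a1 a2 b0 b1 b2 c0 c1 c2 : ℤ,
    a0.natAbs + a1.natAbs + a2.natAbs + (b0.natAbs + b1.natAbs + b2.natAbs) +
      (c0.natAbs + c1.natAbs + c2.natAbs) ≤ m →
    N a0 a1 a2 + 2 * N b0 b1 b2 + 4 * N c0 c1 c2 - 2 * T a0 a1 a2 b0 b1 b2 c0 c1 c2 = 0 →
    a0 = 0 ∧ a1 = 0 ∧ a2 = 0 ∧ b0 = 0 ∧ b1 = 0 ∧ b2 = 0 ∧ c0 = 0 ∧ c1 = 0 ∧ c2 = 0 := by
  induction m using Nat.strong_induction_on with
  | _ m ih =>
    intro a0 a1 a2 b0 b1 b2 c0 c1 c2 hm hD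
    have e1 : (2 : ℤ) ∣ N a0 a1 a2 :=
      ⟨T a0 a1 a2 b0 b1 b2 c0 c1 c2 - N b0 b1 b2 - 2 * N c0 c1 c2, by linarith⟩
    obtain ⟨⟨p0, rfl⟩, ⟨p1, rfl⟩, ⟨p2, rfl⟩⟩ := N_even _ _ _ e1
    rw [N_two, T_1] at hD
    have e2 : (2 : ℤ) ∣ N b0 b1 b2 :=
      ⟨T p0 p1 p2 b0 b1 b2 c0 c1 c2 - 2 * N p0 p1 p2 - N c0 c1 c2, by linarith⟩
    obtain ⟨⟨q0, rfl⟩, ⟨q1, rfl⟩, ⟨q2, rfl⟩⟩ := N_even _ _ _ e2
    rw [N_two, T_2] at hD
    have e3 : (2 : ℤ) ∣ N c0 c1 c2 :=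
      ⟨T p0 p1 p2 q0 q1 q2 c0 c1 c2 - N p0 p1 p2 - 2 * N q0 q1 q2, by linarith⟩
    obtain ⟨⟨r0, rfl⟩, ⟨r1, rfl⟩, ⟨r2, rfl⟩⟩ := N_even _ _ _ e3
    rw [N_two, T_3] at hD
    have hD' : N p0 p1 p2 + 2 * N q0 q1 q2 + 4 * N r0 r1 r2 - 2 * T p0 p1 p2 q0 q1 q2 r0 r1 r2 = 0 := by
      linarith
    by_cases hz : p0 = 0 ∧ p1 = 0 ∧ p2 = 0 ∧ q0 = 0 ∧ q1 = 0 ∧ q2 = 0 ∧ r0 = 0 ∧ r1 = 0 ∧ r2 = 0
    · obtain ⟨rfl, rfl, rfl, rfl, rfl, rfl, rfl, rfl, rfl⟩ := hz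
      simp
    · exfalso
      apply hz
      have hlt : p0.natAbs + p1.natAbs + p2.natAbs + (q0.natAbs + q1.natAbs + q2.natAbs) +
        (r0.natAbs + r1.natAbs + r2.natAbs) < m := by
        simp only [Int.natAbs_mul] at hm
        rw [show Int.natAbs 2 = 2 from rfl] at hm
        have hpos : 0 < p0.natAbs + p1.natAbs + p2.natAbs + (q0.natAbs + q1.natAbs + q2.natAbs) +
          (r0.natAbs + r1.natAbs + r2.natAbs) := by
          rw [Nat.pos_iff_ne_zero]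
          intro h0
          apply hz
          simp only [Nat.add_eq_zero_iff, Int.natAbs_eq_zero] at h0
          tauto
        generalize p0.natAbs = u0 at *
        generalize p1.natAbs = u1 at *
        generalize p2.natAbs = u2 at *
        generalize q0.natAbs = u3 at *
        generalize q1.natAbs = u4 at *
        generalize q2.natAbs = u5 at *
        generalize r0.natAbs = u6 at *
        generalize r1.natAbs = u7 at *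
        generalize r2.natAbs = u8 at *
        omega
      exact ih _ hlt p0 p1 p2 q0 q1 q2 r0 r1 r2 le_rfl hD'

lemma mem_A_iff (x : ℝ) (hx : x ^ 3 = -x ^ 2 + 2 * x + 1) (f : Fin 3 → ℝ) :
    f ∈ A x hx ↔ ∃ a : Fin 3 → ℤ, f = fn x (fun i => (a i : ℝ)) := by
  constructor
  · rintro ⟨a0, a1, a2, h⟩
    exact ⟨![a0, a1, a2], by funext i; rw [h]; simp [fn]⟩
  · rintro ⟨a, rfl⟩
    exact ⟨a 0, a 1, a 2, fun i => rfl⟩

lemma fn_zero (x : ℝ) (h01 : t x 0 ≠ t x 1) (h02 : t x 0 ≠ t x 2) (h12 : t x 1 ≠ t x 2)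
    (a : Fin 3 → ℝ) (h : fn x a = 0) : a = 0 := by
  have e0 := congrFun h 0
  have e1 := congrFun h 1
  have e2 := congrFun h 2
  simp only [fn, Pi.zero_apply] at e0 e1 e2
  have d1 : a 1 + a 2 * (t x 0 + t x 1) = 0 := by
    have : (t x 0 - t x 1) * (a 1 + a 2 * (t x 0 + t x 1)) = 0 := by linear_combination e0 - e1
    rcases mul_eq_zero.1 this with h | h
    · exact absurd (sub_eq_zero.1 h) h01
    · exact h
  have d2 : a 1 + a 2 * (t x 0 + t x 2) = 0 := by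
    have : (t x 0 - t x 2) * (a 1 + a 2 * (t x 0 + t x 2)) = 0 := by linear_combination e0 - e2
    rcases mul_eq_zero.1 this with h | h
    · exact absurd (sub_eq_zero.1 h) h02
    · exact h
  have d3 : a 2 = 0 := by
    have : (t x 1 - t x 2) * a 2 = 0 := by linear_combination d1 - d2
    rcases mul_eq_zero.1 this with h | h
    · exact absurd (sub_eq_zero.1 h) h12
    · exact h
  have d4 : a 1 = 0 := by rw [d3] at d1; linarith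
  have d5 : a 0 = 0 := by rw [d3, d4] at e0; linarith
  funext i
  fin_cases i
  · exact d5
  · exact d4
  · exact d3

/-- the linear map from coordinates -/
noncomputable def L (x : ℝ) : (Fin 3 → Fin 3 → ℝ) →ₗ[ℝ] Matrix (Fin 3) (Fin 3) ℝ where
  toFun c := Mx (fn x (c 0)) (fn x (c 1)) (fn x (c 2))
  map_add' c d := by
    rw [Mx_add]
    congr 1 <;> (funext i; simp [fn]; ring)
  map_smul' r c := by
    ext i j
    fin_cases i <;> fin_cases j <;> simp [Mx, fn] <;> ring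

lemma L_inj (x : ℝ) (h01 : t x 0 ≠ t x 1) (h02 : t x 0 ≠ t x 2) (h12 : t x 1 ≠ t x 2) :
    Function.Injective (L x) := by
  rw [injective_iff_map_eq_zero]
  intro c hc
  have hM : Mx (fn x (c 0)) (fn x (c 1)) (fn x (c 2)) = 0 := hc
  have key : ∀ i j, Mx (fn x (c 0)) (fn x (c 1)) (fn x (c 2)) i j = 0 := fun i j => by rw [hM]; rfl
  have k00 := key 0 0
  have k11 := key 1 1
  have k22 := key 2 2
  have k01 := key 0 1
  have k12 := key 1 2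
  have k20 := key 2 0
  have k02 := key 0 2
  have k10 := key 1 0
  have k21 := key 2 1
  simp [Mx] at k00 k11 k22 k01 k12 k20 k02 k10 k21
  have c0 : c 0 = 0 := fn_zero x h01 h02 h12 _ (by
    funext i; fin_cases i
    · exact k00
    · exact k11
    · exact k22)
  have c1 : c 1 = 0 := fn_zero x h01 h02 h12 _ (by
    funext i; fin_cases i
    · exact k01
    · exact k12
    · exact k20)
  have c2 : c 2 = 0 := fn_zero x h01 h02 h12 _ (by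
    funext i; fin_cases i
    · exact k02
    · exact k10
    · exact k21)
  funext i
  fin_cases i
  · exact c0
  · exact c1
  · exact c2

end J3aux

open J3aux in
/-- The cyclic division algebra (Q(cos(2π/7)), σ, 2) gives such a subring containing an explicit unit. -/
theorem J3_order : ∃ O : Subring (Matrix (Fin 3) (Fin 3) ℝ), J3_GoodOrder O ∧
    ∃ d : Fin 3 → ℝ, Matrix.diagonal d ∈ O ∧ d 0 * d 1 * d 2 = 1 ∧
      0 < |d 1| ∧ |d 1| < |d 0| ∧ |d 0| < |d 2| := by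
  obtain ⟨x, ⟨hx1, hx2⟩, hxr⟩ : ∃ x ∈ Set.Icc (1.2 : ℝ) 1.3, x ^ 3 + x ^ 2 - 2 * x - 1 = 0 := by
    have hc : ContinuousOn (fun x : ℝ => x ^ 3 + x ^ 2 - 2 * x - 1) (Set.Icc 1.2 1.3) := by fun_prop
    have := intermediate_value_Icc (show (1.2 : ℝ) ≤ 1.3 by norm_num) hc
    exact this ⟨by norm_num, by norm_num⟩
  have hx : x ^ 3 = -x ^ 2 + 2 * x + 1 := by linarith
  have t0 : t x 0 = x := rfl
  have t1 : t x 1 = x ^ 2 - 2 := rfl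
  have t2 : t x 2 = 1 - x - x ^ 2 := rfl
  have b1 : x ^ 2 - 2 < 0 := by nlinarith
  have b1' : -0.57 < x ^ 2 - 2 := by nlinarith
  have b2 : 1 - x - x ^ 2 < -1.6 := by nlinarith
  have h01 : t x 0 ≠ t x 1 := by rw [t0, t1]; intro h; linarith
  have h02 : t x 0 ≠ t x 2 := by rw [t0, t2]; intro h; linarith
  have h12 : t x 1 ≠ t x 2 := by rw [t1, t2]; intro h; linarith
  refine ⟨O x hx, ⟨?_, ?_, ?_, ?_⟩, t x, ?_, ?_, ?_, ?_, ?_⟩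
  · -- basis
    let eL : (Fin 3 → Fin 3 → ℝ) ≃ₗ[ℝ] Matrix (Fin 3) (Fin 3) ℝ :=
      LinearEquiv.ofInjectiveOfFinrankEq (L x) (L_inj x h01 h02 h12) (by
        simp [Module.finrank_matrix, Module.finrank_pi_fintype])
    have heL : ∀ c, eL c = Mx (fn x (c 0)) (fn x (c 1)) (fn x (c 2)) := fun c => rfl
    let b0 : Module.Basis (Σ _ : Fin 3, Fin 3) ℝ (Fin 3 → Fin 3 → ℝ) :=
      Pi.basis (fun _ => Pi.basisFun ℝ (Fin 3))
    let e9 : (Σ _ : Fin 3, Fin 3) ≃ Fin 9 := (Equiv.sigmaEquivProd (Fin 3) (Fin 3)).trans finProdFinEquiv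
    refine ⟨(b0.map eL).reindex e9, fun M => ?_⟩
    rw [Module.Basis.range_reindex]
    rw [Submodule.mem_span_range_iff_exists_fun]
    have hsum : ∀ c : (Σ _ : Fin 3, Fin 3) → ℤ, ∑ i, c i • (b0.map eL) i =
        Mx (fn x (fun i => ((c ⟨0, i⟩ : ℤ) : ℝ))) (fn x (fun i => ((c ⟨1, i⟩ : ℤ) : ℝ)))
          (fn x (fun i => ((c ⟨2, i⟩ : ℤ) : ℝ))) := by
      intro c
      have e1 : ∑ i, c i • (b0.map eL) i = eL (∑ i, ((c i : ℤ) : ℝ) • b0 i) := by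
        rw [map_sum]
        apply Finset.sum_congr rfl
        intro i _
        rw [map_smul, Module.Basis.map_apply, Int.cast_smul_eq_zsmul]
      have e2 : (∑ i, ((c i : ℤ) : ℝ) • b0 i) = fun i j => ((c ⟨i, j⟩ : ℤ) : ℝ) := by
        have := b0.sum_repr (fun i j => ((c ⟨i, j⟩ : ℤ) : ℝ))
        rw [← this]
        apply Finset.sum_congr rfl
        intro i _
        congr 1
      rw [e1, e2, heL]
    constructor
    · rintro ⟨f, hf, g, hg, h, hh, rfl⟩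
      obtain ⟨a, rfl⟩ := (mem_A_iff x hx f).1 hf
      obtain ⟨b, rfl⟩ := (mem_A_iff x hx g).1 hg
      obtain ⟨c, rfl⟩ := (mem_A_iff x hx h).1 hh
      refine ⟨fun s => (![a, b, c] s.1) s.2, ?_⟩
      rw [hsum]
      simp
    · rintro ⟨c, rfl⟩
      rw [hsum]
      exact ⟨_, (mem_A_iff x hx _).2 ⟨_, rfl⟩, _, (mem_A_iff x hx _).2 ⟨_, rfl⟩, _,
        (mem_A_iff x hx _).2 ⟨_, rfl⟩, rfl⟩
  · rintro M ⟨f, hf, g, hg, h, hh, rfl⟩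
    obtain ⟨a, rfl⟩ := (mem_A_iff x hx f).1 hf
    obtain ⟨b, rfl⟩ := (mem_A_iff x hx g).1 hg
    obtain ⟨c, rfl⟩ := (mem_A_iff x hx h).1 hh
    exact ⟨_, det_eq x hx a b c⟩
  · rintro M ⟨f, hf, g, hg, h, hh, rfl⟩ hdet
    obtain ⟨a, rfl⟩ := (mem_A_iff x hx f).1 hf
    obtain ⟨b, rfl⟩ := (mem_A_iff x hx g).1 hg
    obtain ⟨c, rfl⟩ := (mem_A_iff x hx h).1 hh
    rw [det_eq x hx a b c] at hdet
    have hD : D a b c = 0 := by exact_mod_cast hdet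
    obtain ⟨z0, z1, z2, z3, z4, z5, z6, z7, z8⟩ := D_zero _ _ _ _ _ _ _ _ _ _ le_rfl hD
    rw [← Mx_zero]
    congr 1
    · funext i; simp [fn, z0, z1, z2]
    · funext i; simp [fn, z3, z4, z5]
    · funext i; simp [fn, z6, z7, z8]
  · rintro M ⟨f, hf, g, hg, h, hh, rfl⟩
    have s := sh_mem x hx
    refine ⟨_, ?_, _, ?_, _, ?_, Mx_adj f g h⟩
    · exact sub_mem (mul_mem (s _ hf) (s _ (s _ hf))) (add_mem (mul_mem (s _ hg) (s _ (s _ hh)))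
        (mul_mem (s _ hg) (s _ (s _ hh))))
    · exact sub_mem (add_mem (mul_mem hh (s _ (s _ hh))) (mul_mem hh (s _ (s _ hh))))
        (mul_mem hg (s _ (s _ hf)))
    · exact sub_mem (mul_mem hg (s _ hg)) (mul_mem hh (s _ hf))
  · refine ⟨t x, ⟨0, 1, 0, fun i => by simp⟩, 0, zero_mem _, 0, zero_mem _, ?_⟩
    ext i j
    fin_cases i <;> fin_cases j <;> simp [Mx, Matrix.diagonal]
  · rw [t0, t1, t2]
    linear_combination (1 - x ^ 2) * hx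
  · rw [t1, abs_of_neg b1]; linarith
  · rw [t0, t1, abs_of_neg b1, abs_of_pos (by linarith)]; linarith
  · rw [t0, t2, abs_of_pos (show (0:ℝ) < x by linarith), abs_of_neg (by linarith)]; linarith

end Bac815
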