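import Mathlib
set_option autoImplicit false

namespace Bac815
structure J4_GoodOrder (O : Subring (Matrix (Fin 3) (Fin 3) ℝ)) : Prop where
  basis : ∃ b : Module.Basis (Fin 9) ℝ (Matrix (Fin 3) (Fin 3) ℝ),
    ∀ x, x ∈ O ↔ x ∈ Submodule.span ℤ (Set.range b)
  det_int : ∀ x ∈ O, ∃ n : ℤ, x.det = n
  det_ne : ∀ x ∈ O, x.det = 0 → x = 0
  adj : ∀ x ∈ O, x.adjugate ∈ O

/-- The norm-one unit group of such an order is discrete in SL(3,R). -/
theorem J4_discrete (O : Subring (Matrix (Fin 3) (Fin 3) ℝ)) (hO : J4_GoodOrder O)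
    (Γ : Subgroup (Matrix.SpecialLinearGroup (Fin 3) ℝ))
    (hΓ : ∀ g : Matrix.SpecialLinearGroup (Fin 3) ℝ, g ∈ Γ ↔ (g : Matrix (Fin 3) (Fin 3) ℝ) ∈ O) :
    DiscreteTopology Γ := by
  obtain ⟨b, hb⟩ := hO.basis
  apply discreteTopology_of_isOpen_singleton_one
  let F : Γ → (Fin 9 → ℝ) := fun γ => b.equivFun (((γ : Matrix.SpecialLinearGroup (Fin 3) ℝ) : Matrix (Fin 3) (Fin 3) ℝ) - 1)
  have hF : Continuous F := by
    have h1 : Continuous (b.equivFun : Matrix (Fin 3) (Fin 3) ℝ → (Fin 9 → ℝ)) :=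
      LinearMap.continuous_of_finiteDimensional (b.equivFun : Matrix (Fin 3) (Fin 3) ℝ →ₗ[ℝ] (Fin 9 → ℝ))
    have h2 : Continuous (fun γ : Γ => (((γ : Matrix.SpecialLinearGroup (Fin 3) ℝ) : Matrix (Fin 3) (Fin 3) ℝ) - 1)) := by
      apply Continuous.sub _ continuous_const
      exact continuous_subtype_val.comp continuous_subtype_val
    exact h1.comp h2
  let U : Set (Fin 9 → ℝ) := {v | ∀ i, |v i| < 1}
  have hU : IsOpen U := by
    have : U = ⋂ i, {v : Fin 9 → ℝ | |v i| < 1} := by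
      ext v; simp [U]
    rw [this]
    exact isOpen_iInter_of_finite fun i =>
      isOpen_lt (continuous_abs.comp (continuous_apply i)) continuous_const
  have hpre : F ⁻¹' U = {1} := by
    ext γ
    simp only [Set.mem_preimage, Set.mem_singleton_iff]
    constructor
    · intro h
      have h1 : (((γ : Matrix.SpecialLinearGroup (Fin 3) ℝ) : Matrix (Fin 3) (Fin 3) ℝ) - 1) ∈ O :=
        sub_mem ((hΓ _).1 γ.2) (one_mem O)
      rw [hb, b.mem_span_iff_repr_mem ℤ] at h1
      have h2 : F γ = 0 := by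
        funext i
        obtain ⟨n, hn⟩ := h1 i
        have h3 : |F γ i| < 1 := h i
        have h4 : F γ i = (n : ℝ) := by
          have h4' : F γ i = b.repr ((((γ : Matrix.SpecialLinearGroup (Fin 3) ℝ) : Matrix (Fin 3) (Fin 3) ℝ) - 1)) i := rfl
          rw [h4', ← hn]
          simp
        rw [h4] at h3 ⊢
        have h5 : |n| < 1 := by exact_mod_cast h3
        have h6 : n = 0 := Int.abs_lt_one_iff.1 h5
        simp [h6]
      have h7 : (((γ : Matrix.SpecialLinearGroup (Fin 3) ℝ) : Matrix (Fin 3) (Fin 3) ℝ) - 1) = 0 :=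
        b.equivFun.map_eq_zero_iff.1 h2
      apply Subtype.ext
      apply Subtype.ext
      exact sub_eq_zero.1 h7
    · rintro rfl
      intro i
      simp [F]
  rw [← hpre]
  exact hU.preimage hF

theorem J4_minkowski (O : Subring (Matrix (Fin 3) (Fin 3) ℝ)) (hO : J4_GoodOrder O) :
    ∃ R : ℝ, ∀ g : Matrix.SpecialLinearGroup (Fin 3) ℝ,
      ∃ x ∈ O, x ≠ 0 ∧ ∀ i j, |(x * (g : Matrix (Fin 3) (Fin 3) ℝ)) i j| ≤ R := by
  classical
  obtain ⟨b, hb⟩ := hO.basis
  let E := Fin 3 → Fin 3 → ℝ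
  let L : E ≃ₗ[ℝ] Matrix (Fin 3) (Fin 3) ℝ := Matrix.ofLinearEquiv ℝ
  let b' : Module.Basis (Fin 9) ℝ E := b.map L.symm
  let μ : MeasureTheory.Measure E := MeasureTheory.volume
  set c := μ (Metric.ball (0 : E) 1) with hc
  set d := μ (ZSpan.fundamentalDomain b') * 2 ^ Module.finrank ℝ E with hd
  have hcpos : c ≠ 0 := (Metric.measure_ball_pos μ _ one_pos).ne'
  have hcfin : c ≠ ⊤ := MeasureTheory.measure_ball_lt_top.ne
  have hdfin : d ≠ ⊤ := by
    apply ENNReal.mul_ne_top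
    · exact (ZSpan.fundamentalDomain_isBounded b').measure_lt_top.ne
    · exact ENNReal.pow_ne_top (by norm_num)
  have hk : Module.finrank ℝ E ≠ 0 := Module.finrank_pos.ne'
  obtain ⟨R, hR1, hR⟩ : ∃ R : ℝ, 1 ≤ R ∧ d < μ (Metric.closedBall (0 : E) R) := by
    have h0 : 0 ≤ (d / c).toReal := ENNReal.toReal_nonneg
    refine ⟨(d / c).toReal + 1, by linarith, ?_⟩
    rw [MeasureTheory.Measure.addHaar_closedBall μ _ (by linarith)]
    have h1 : d / c < ENNReal.ofReal ((d / c).toReal + 1) := by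
      rw [ENNReal.lt_ofReal_iff_toReal_lt (ENNReal.div_ne_top hdfin hcpos)]
      linarith
    have h2 : ENNReal.ofReal ((d / c).toReal + 1) ≤
        ENNReal.ofReal (((d / c).toReal + 1) ^ Module.finrank ℝ E) :=
      ENNReal.ofReal_le_ofReal (le_self_pow₀ (by linarith) hk)
    exact (ENNReal.div_lt_iff (Or.inl hcpos) (Or.inl hcfin)).1 (lt_of_lt_of_le h1 h2)
  refine ⟨R, fun g => ?_⟩
  let f : (Fin 3 → ℝ) →ₗ[ℝ] (Fin 3 → ℝ) := Matrix.toLin' (Matrix.transpose (g : Matrix (Fin 3) (Fin 3) ℝ))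
  have hf : MeasureTheory.MeasurePreserving f MeasureTheory.volume MeasureTheory.volume := by
    refine ⟨(LinearMap.continuous_of_finiteDimensional f).measurable, ?_⟩
    have hdet : (Matrix.transpose (g : Matrix (Fin 3) (Fin 3) ℝ)).det = 1 := by rw [Matrix.det_transpose]; exact g.2
    have := Real.map_matrix_volume_pi_eq_smul_volume_pi (M := (Matrix.transpose (g : Matrix (Fin 3) (Fin 3) ℝ)))
      (by rw [hdet]; exact one_ne_zero)
    rw [hdet] at this
    simpa using this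
  have hT : MeasureTheory.MeasurePreserving (fun (v : E) i => f (v i)) μ μ :=
    MeasureTheory.volume_preserving_pi (fun _ => hf)
  let T : E →ₗ[ℝ] E := LinearMap.pi (fun i => f ∘ₗ LinearMap.proj i)
  have hTeq : (T : E → E) = fun (v : E) i => f (v i) := rfl
  have hs : μ (T ⁻¹' Metric.closedBall (0 : E) R) = μ (Metric.closedBall (0 : E) R) := by
    rw [hTeq]
    exact hT.measure_preimage Metric.isClosed_closedBall.measurableSet.nullMeasurableSet
  have hcount : Countable (Submodule.span ℤ (Set.range b')).toAddSubgroup := by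
    change Countable (Submodule.span ℤ (Set.range b'))
    infer_instance
  obtain ⟨x, hx0, hx⟩ := MeasureTheory.exists_ne_zero_mem_lattice_of_measure_mul_two_pow_lt_measure
    (ZSpan.isAddFundamentalDomain' b' μ) (s := T ⁻¹' Metric.closedBall (0 : E) R)
    (by
      intro v hv
      simp only [Set.mem_preimage, map_neg, Metric.mem_closedBall, dist_zero_right, norm_neg] at hv ⊢
      exact hv)
    ((convex_closedBall (0 : E) R).linear_preimage T)
    (by rw [hs]; exact hR)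
  refine ⟨L x, ?_, ?_, ?_⟩
  · rw [hb, b.mem_span_iff_repr_mem ℤ]
    have h1 : (x : E) ∈ Submodule.span ℤ (Set.range b') := x.2
    rw [b'.mem_span_iff_repr_mem ℤ] at h1
    intro i
    have := h1 i
    simpa [b'] using this
  · intro h
    apply hx0
    apply Subtype.ext
    exact L.map_eq_zero_iff.1 h
  · intro i j
    have h1 : ‖T x‖ ≤ R := mem_closedBall_zero_iff.1 hx
    rw [pi_norm_le_iff_of_nonneg (by linarith)] at h1
    have h2 := h1 i
    rw [pi_norm_le_iff_of_nonneg (by linarith)] at h2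
    have h3 := h2 j
    have h4 : (L x * (g : Matrix (Fin 3) (Fin 3) ℝ)) i j = T x i j := by
      have h5 : T x i j = ((g : Matrix (Fin 3) (Fin 3) ℝ).transpose.mulVec ((x : E) i)) j := by
        change (Matrix.toLin' (Matrix.transpose (g : Matrix (Fin 3) (Fin 3) ℝ))) ((x : E) i) j = _
        rw [Matrix.toLin'_apply]
      rw [h5, Matrix.mul_apply]
      simp only [Matrix.mulVec, dotProduct, Matrix.transpose_apply]
      apply Finset.sum_congr rfl
      intro k _
      rw [mul_comm]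
      rfl
    rw [h4]
    exact h3

theorem J4_keys (O : Subring (Matrix (Fin 3) (Fin 3) ℝ)) (hO : J4_GoodOrder O) (N : ℕ) :
    ∃ S : Set (Matrix (Fin 3) (Fin 3) ℝ), S.Finite ∧ (∀ y ∈ S, y.det ≠ 0) ∧
      ∀ x ∈ O, x ≠ 0 → |x.det| ≤ N → ∃ y ∈ S, ∃ δ ∈ O, δ.det = 1 ∧ x = y * δ := by
  classical
  obtain ⟨b, hb⟩ := hO.basis
  have hb' : ∀ x, x ∈ O ↔ ∀ i, ∃ n : ℤ, b.repr x i = n := by
    intro x
    rw [hb, b.mem_span_iff_repr_mem ℤ]
    constructor
    · intro h i
      obtain ⟨n, hn⟩ := h i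
      exact ⟨n, by rw [← hn]; simp⟩
    · intro h i
      obtain ⟨n, hn⟩ := h i
      exact ⟨n, by rw [hn]; simp⟩
  set M := N.factorial with hM
  have : NeZero M := ⟨Nat.factorial_ne_zero N⟩
  let key : Matrix (Fin 3) (Fin 3) ℝ → ℤ × (Fin 9 → ZMod M) :=
    fun x => (⌊x.det⌋, fun i => ((⌊b.repr x i⌋ : ℤ) : ZMod M))
  let X : Set (Matrix (Fin 3) (Fin 3) ℝ) := {x | x ∈ O ∧ x ≠ 0 ∧ |x.det| ≤ N}
  have hfin : (key '' X).Finite := by
    apply ((Set.finite_Icc (-(N : ℤ)) N).prod (Set.finite_univ (α := Fin 9 → ZMod M))).subset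
    rintro _ ⟨x, ⟨hxO, hx0, hx⟩, rfl⟩
    refine ⟨?_, trivial⟩
    obtain ⟨n, hn⟩ := hO.det_int x hxO
    simp only [key, hn, Int.floor_intCast, Set.mem_Icc]
    rw [hn] at hx
    have : |n| ≤ (N : ℤ) := by exact_mod_cast hx
    exact abs_le.1 this
  refine ⟨(fun k => Function.invFunOn key X k) '' (key '' X), hfin.image _, ?_, ?_⟩
  · rintro _ ⟨k, hk, rfl⟩ h0
    have h1 : Function.invFunOn key X k ∈ X := Function.invFunOn_mem hk
    exact h1.2.1 (hO.det_ne _ h1.1 h0)
  · intro x hxO hx0 hx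
    have hxX : x ∈ X := ⟨hxO, hx0, hx⟩
    have hk : key x ∈ key '' X := ⟨x, hxX, rfl⟩
    set y := Function.invFunOn key X (key x) with hy
    have hyX : y ∈ X := Function.invFunOn_mem hk
    have hkey : key y = key x := Function.invFunOn_eq hk
    refine ⟨y, ⟨key x, hk, rfl⟩, ?_⟩
    obtain ⟨n, hn⟩ := hO.det_int x hxO
    obtain ⟨n', hn'⟩ := hO.det_int y hyX.1
    have hnn : n' = n := by
      have := congrArg Prod.fst hkey
      simpa [key, hn, hn'] using this
    subst hnn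
    have hn0 : n' ≠ 0 := by
      rintro rfl
      exact hx0 (hO.det_ne x hxO (by simpa using hn))
    have hnN : |n'| ≤ (N : ℤ) := by
      rw [hn] at hx
      exact_mod_cast hx
    have hdvd : n' ∣ (M : ℤ) := by
      rw [← Int.natAbs_dvd]
      apply Int.natCast_dvd_natCast.2
      apply Nat.dvd_factorial (Int.natAbs_pos.2 hn0)
      have := abs_le.1 hnN
      omega
    let z : Matrix (Fin 3) (Fin 3) ℝ := ((n' : ℝ)⁻¹) • (x - y)
    have hnR : (n' : ℝ) ≠ 0 := by exact_mod_cast hn0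
    have hz : z ∈ O := by
      rw [hb']
      intro i
      obtain ⟨a, ha⟩ := (hb' x).1 hxO i
      obtain ⟨c, hc⟩ := (hb' y).1 hyX.1 i
      have h1 := congrFun (congrArg Prod.snd hkey) i
      simp only [key, ha, hc, Int.floor_intCast] at h1
      have h2 : (M : ℤ) ∣ a - c := by
        have := (ZMod.intCast_eq_intCast_iff_dvd_sub c a M).1 h1
        exact this
      obtain ⟨q, hq⟩ := hdvd.trans h2
      refine ⟨q, ?_⟩
      simp only [z, map_smul, map_sub, Finsupp.smul_apply, Finsupp.sub_apply, ha, hc, smul_eq_mul]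
      have h3 : (a : ℝ) - c = n' * q := by exact_mod_cast hq
      rw [h3]
      field_simp
    have hxz : x = y + (n' : ℝ) • z := by
      simp only [z, smul_smul, mul_inv_cancel₀ hnR, one_smul]
      abel
    refine ⟨1 + y.adjugate * z, add_mem (one_mem O) (mul_mem (hO.adj y hyX.1) hz), ?_, ?_⟩
    · have h1 : x = y * (1 + y.adjugate * z) := by
        rw [mul_add, mul_one, ← mul_assoc, Matrix.mul_adjugate, hn', Matrix.smul_mul, one_mul]
        exact hxz
      have h2 := congrArg Matrix.det h1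
      rw [Matrix.det_mul, hn, hn'] at h2
      have h3 : (n' : ℝ) * 1 = n' * (1 + y.adjugate * z).det := by rw [mul_one]; exact h2
      exact (mul_left_cancel₀ hnR h3).symm
    · rw [mul_add, mul_one, ← mul_assoc, Matrix.mul_adjugate, hn', Matrix.smul_mul, one_mul]
      exact hxz

/-- ... and cocompact. -/
theorem J4_cocompact (O : Subring (Matrix (Fin 3) (Fin 3) ℝ)) (hO : J4_GoodOrder O)
    (Γ : Subgroup (Matrix.SpecialLinearGroup (Fin 3) ℝ))
    (hΓ : ∀ g : Matrix.SpecialLinearGroup (Fin 3) ℝ, g ∈ Γ ↔ (g : Matrix (Fin 3) (Fin 3) ℝ) ∈ O) :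
    CompactSpace (Matrix.SpecialLinearGroup (Fin 3) ℝ ⧸ Γ) := by
  obtain ⟨R, hR⟩ := J4_minkowski O hO
  obtain ⟨N, hN⟩ := exists_nat_ge (Nat.factorial 3 • R ^ 3)
  obtain ⟨S, hS, hSdet, hkey⟩ := J4_keys O hO N
  let K : Set (Matrix (Fin 3) (Fin 3) ℝ) := {v | ∀ i j, |v i j| ≤ R}
  have hK : IsCompact K := by
    have h1 : K = Set.univ.pi (fun _ => Set.univ.pi (fun _ => Set.Icc (-R) R)) := by
      refine Set.ext fun v => ⟨fun h i _ j _ => abs_le.1 (h i j), fun h i j => abs_le.2 (h i trivial j trivial)⟩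
    rw [h1]
    exact isCompact_univ_pi fun _ => isCompact_univ_pi fun _ => isCompact_Icc
  have hemb : Topology.IsClosedEmbedding
      (fun g : Matrix.SpecialLinearGroup (Fin 3) ℝ => (g : Matrix (Fin 3) (Fin 3) ℝ)) := by
    apply IsClosed.isClosedEmbedding_subtypeVal
    exact isClosed_eq (Continuous.matrix_det continuous_id) continuous_const
  let C : Set (Matrix.SpecialLinearGroup (Fin 3) ℝ) :=
    ⋃ y ∈ S, (fun g : Matrix.SpecialLinearGroup (Fin 3) ℝ => (g : Matrix (Fin 3) (Fin 3) ℝ)) ⁻¹'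
      ((fun v => y⁻¹ * v) '' K)
  have hC : IsCompact C := by
    apply hS.isCompact_biUnion
    intro y hy
    apply hemb.isCompact_preimage
    apply hK.image
    exact continuous_const.matrix_mul continuous_id
  have hcov : ∀ g : Matrix.SpecialLinearGroup (Fin 3) ℝ, ∃ γ ∈ Γ, γ * g ∈ C := by
    intro g
    obtain ⟨x, hxO, hx0, hx⟩ := hR g
    have hdet : |x.det| ≤ N := by
      have h1 : (x * (g : Matrix (Fin 3) (Fin 3) ℝ)).det = x.det := by
        rw [Matrix.det_mul, g.2, mul_one]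
      have h2 := Matrix.det_le (A := x * (g : Matrix (Fin 3) (Fin 3) ℝ))
        (abv := AbsoluteValue.abs) (x := R) hx
      rw [h1] at h2
      simp only [Fintype.card_fin] at h2
      exact le_trans h2 hN
    obtain ⟨y, hy, δ, hδO, hδ, hxy⟩ := hkey x hxO hx0 hdet
    refine ⟨⟨δ, hδ⟩, (hΓ _).2 hδO, ?_⟩
    simp only [C, Set.mem_iUnion, Set.mem_preimage, Set.mem_image]
    refine ⟨y, hy, x * (g : Matrix (Fin 3) (Fin 3) ℝ), hx, ?_⟩
    rw [hxy, Matrix.mul_assoc, Matrix.nonsing_inv_mul_cancel_left _ _ (isUnit_iff_ne_zero.2 (hSdet y hy))]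
    rfl
  refine ⟨?_⟩
  have h3 : (Set.univ : Set (Matrix.SpecialLinearGroup (Fin 3) ℝ ⧸ Γ)) =
      (fun g : Matrix.SpecialLinearGroup (Fin 3) ℝ => (QuotientGroup.mk g⁻¹ : Matrix.SpecialLinearGroup (Fin 3) ℝ ⧸ Γ)) '' C := by
    symm
    rw [Set.eq_univ_iff_forall]
    intro q
    obtain ⟨g', rfl⟩ := QuotientGroup.mk_surjective q
    obtain ⟨γ, hγ, hc⟩ := hcov g'⁻¹
    refine ⟨γ * g'⁻¹, hc, ?_⟩
    simp only [mul_inv_rev, inv_inv]
    rw [QuotientGroup.eq]
    simpa using hγ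
  rw [h3]
  apply hC.image
  exact (QuotientGroup.continuous_mk).comp continuous_inv

end Bac815
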