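import Mathlib
set_option autoImplicit false

namespace Bac815
/-- `IsGeodesic α x y`: α : [0,1] → X is a constant-speed shortest path from x to y. -/
def J6_IsGeodesic {X : Type*} [MetricSpace X] (α : ℝ → X) (x y : X) : Prop :=
  α 0 = x ∧ α 1 = y ∧ ∀ s ∈ Set.Icc (0 : ℝ) 1, ∀ t ∈ Set.Icc (0 : ℝ) 1,
    dist (α s) (α t) = |s - t| * dist x y

lemma J6_basic {X : Type*} [MetricSpace X] {x y m : X} {τ : ℝ} (h0 : 0 ≤ τ) (h1 : τ ≤ 1)
    (hm : ∀ z : X, dist z m ^ 2 ≤ (1 - τ) * dist z x ^ 2 + τ * dist z y ^ 2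
      - τ * (1 - τ) * dist x y ^ 2) :
    dist x m = τ * dist x y ∧ dist y m = (1 - τ) * dist x y := by
  have hd : 0 ≤ dist x y := dist_nonneg
  have hx : dist x m ≤ τ * dist x y := by
    have := hm x
    rw [dist_self] at this
    apply abs_le_of_sq_le_sq' _ (mul_nonneg h0 hd) |>.2
    nlinarith
  have hy : dist y m ≤ (1 - τ) * dist x y := by
    have := hm y
    rw [dist_self, dist_comm y x] at this
    apply abs_le_of_sq_le_sq' _ (mul_nonneg (by linarith) hd) |>.2
    nlinarith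
  have ht := dist_triangle x m y
  rw [dist_comm m y] at ht
  constructor <;> linarith

lemma J6_star {X : Type*} [MetricSpace X]
    (h : ∀ x y : X, ∀ τ ∈ Set.Icc (0 : ℝ) 1, ∃ m : X, ∀ z : X,
      dist z m ^ 2 ≤ (1 - τ) * dist z x ^ 2 + τ * dist z y ^ 2 - τ * (1 - τ) * dist x y ^ 2)
    {x y : X} {α : ℝ → X} (hα : J6_IsGeodesic α x y) {t : ℝ} (ht : t ∈ Set.Icc (0 : ℝ) 1) (z : X) :
    dist z (α t) ^ 2 ≤ (1 - t) * dist z x ^ 2 + t * dist z y ^ 2 - t * (1 - t) * dist x y ^ 2 := by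
  obtain ⟨m, hm⟩ := h x y t ht
  obtain ⟨h0, h1, hg⟩ := hα
  have e1 : dist (α t) x = t * dist x y := by
    rw [← h0, hg t ht 0 ⟨le_rfl, zero_le_one⟩, h0, sub_zero, abs_of_nonneg ht.1]
  have e2 : dist (α t) y = (1 - t) * dist x y := by
    have := hg t ht 1 ⟨zero_le_one, le_rfl⟩
    rw [h1] at this
    rw [this, abs_sub_comm, abs_of_nonneg (by linarith [ht.2])]
  have h2 := hm (α t)
  rw [e1, e2] at h2
  have h3 : dist (α t) m ^ 2 ≤ 0 := by
    calc dist (α t) m ^ 2 ≤ _ := h2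
      _ = 0 := by ring
  have h4 : dist (α t) m = 0 := by
    have := sq_nonneg (dist (α t) m)
    have h5 : dist (α t) m ^ 2 = 0 := le_antisymm h3 this
    exact pow_eq_zero_iff (two_ne_zero) |>.1 h5
  rw [dist_eq_zero.1 h4]
  exact hm z

/-- From the strong CN inequality to the literal definition of CAT(0) by comparison triangles. -/
theorem J6_geodesic {X : Type*} [MetricSpace X]
    (h : ∀ x y : X, ∀ τ ∈ Set.Icc (0 : ℝ) 1, ∃ m : X, ∀ z : X,
      dist z m ^ 2 ≤ (1 - τ) * dist z x ^ 2 + τ * dist z y ^ 2 - τ * (1 - τ) * dist x y ^ 2) :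
    (∀ x y : X, ∃ α : ℝ → X, J6_IsGeodesic α x y) ∧
    (∀ (x y z : X) (α β : ℝ → X), J6_IsGeodesic α x y → J6_IsGeodesic β x z →
      ∀ x' y' z' : EuclideanSpace ℝ (Fin 2), dist x' y' = dist x y → dist x' z' = dist x z →
        dist y' z' = dist y z → ∀ s ∈ Set.Icc (0 : ℝ) 1, ∀ t ∈ Set.Icc (0 : ℝ) 1,
        dist (α s) (β t) ≤ dist (AffineMap.lineMap x' y' s : EuclideanSpace ℝ (Fin 2))
          (AffineMap.lineMap x' z' t)) := by
  classical
  constructor
  · intro x y
    have : Nonempty X := ⟨x⟩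
    choose! m hm using h x y
    have hd : 0 ≤ dist x y := dist_nonneg
    have hb : ∀ t ∈ Set.Icc (0 : ℝ) 1, dist x (m t) = t * dist x y ∧
        dist y (m t) = (1 - t) * dist x y := fun t ht => J6_basic ht.1 ht.2 (hm t ht)
    refine ⟨m, ?_, ?_, ?_⟩
    · have := (hb 0 ⟨le_rfl, zero_le_one⟩).1
      rw [zero_mul] at this
      exact (dist_eq_zero.1 this).symm
    · have := (hb 1 ⟨zero_le_one, le_rfl⟩).2
      rw [sub_self, zero_mul] at this
      exact (dist_eq_zero.1 this).symm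
    · intro s hs t ht
      apply le_antisymm
      · have h1 := hm t ht (m s)
        rw [dist_comm (m s) x, dist_comm (m s) y, (hb s hs).1, (hb s hs).2] at h1
        have h2 : dist (m s) (m t) ^ 2 ≤ (|s - t| * dist x y) ^ 2 := by
          rw [mul_pow, sq_abs]
          calc _ ≤ _ := h1
            _ = _ := by ring
        exact abs_le_of_sq_le_sq' h2 (mul_nonneg (abs_nonneg _) hd) |>.2
      · have h1 := abs_dist_sub_le (m s) (m t) x
        rw [dist_comm (m s) x, dist_comm (m t) x, (hb s hs).1, (hb t ht).1, ← sub_mul, abs_mul,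
          abs_of_nonneg hd] at h1
        exact h1
  · intro x y z α β hα hβ x' y' z' hxy hxz hyz s hs t ht
    have h1 := J6_star h hβ ht (α s)
    have h2 := J6_star h hα hs z
    have e1 : dist (α s) x = s * dist x y := by
      obtain ⟨h0, -, hg⟩ := hα
      rw [← h0, hg s hs 0 ⟨le_rfl, zero_le_one⟩, h0, sub_zero, abs_of_nonneg hs.1]
    rw [e1] at h1
    rw [dist_comm z (α s), dist_comm z x, dist_comm z y] at h2
    have h3 : dist (α s) (β t) ^ 2 ≤ (1 - t) * (s * dist x y) ^ 2 + t * ((1 - s) * dist x z ^ 2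
        + s * dist y z ^ 2 - s * (1 - s) * dist x y ^ 2) - t * (1 - t) * dist x z ^ 2 := by
      have := mul_le_mul_of_nonneg_left h2 ht.1
      linarith
    apply abs_le_of_sq_le_sq' _ dist_nonneg |>.2
    refine h3.trans (le_of_eq ?_)
    have p1 : dist x y ^ 2 = ‖y' - x'‖ ^ 2 := by rw [← hxy, dist_comm, dist_eq_norm]
    have p2 : dist x z ^ 2 = ‖z' - x'‖ ^ 2 := by rw [← hxz, dist_comm, dist_eq_norm]
    have p3 : dist y z ^ 2 = ‖(y' - x') - (z' - x')‖ ^ 2 := by
      rw [← hyz, dist_eq_norm]; congr 2; abel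
    have p4 : dist (AffineMap.lineMap x' y' s : EuclideanSpace ℝ (Fin 2))
        (AffineMap.lineMap x' z' t) ^ 2 = ‖s • (y' - x') - t • (z' - x')‖ ^ 2 := by
      rw [dist_eq_norm]
      congr 2
      rw [AffineMap.lineMap_apply, AffineMap.lineMap_apply]
      simp only [vsub_eq_sub, vadd_eq_add]
      abel
    rw [p4, mul_pow, p1, p2, p3, norm_sub_sq_real (y' - x'), norm_sub_sq_real (s • (y' - x')),
      norm_smul, norm_smul, real_inner_smul_left, real_inner_smul_right, mul_pow, mul_pow,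
      Real.norm_eq_abs, Real.norm_eq_abs, sq_abs, sq_abs]
    ring

end Bac815
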