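import Pool.Agent.H665M.C2
import Pool.Agent.H665M.F1
import Pool.Agent.H665M.J2
import Pool.Agent.H665M.J3
import Pool.Agent.H665M.J4
import Pool.Agent.H665M.J6
set_option autoImplicit false
namespace Bac815
open Filter

/-- an isometric action as a homomorphism to the isometry group -/
def actHom {H X : Type} [Group H] [MetricSpace X] (ρ : H → X → X) (h1 : ∀ x, ρ 1 x = x)
    (h2 : ∀ g h x, ρ (g * h) x = ρ g (ρ h x)) (h3 : ∀ g x y, dist (ρ g x) (ρ g y) = dist x y) :
    H →* (X ≃ᵢ X) where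
  toFun g :=
    { toFun := ρ g
      invFun := ρ g⁻¹
      left_inv := fun x => by rw [← h2, inv_mul_cancel, h1]
      right_inv := fun x => by rw [← h2, mul_inv_cancel, h1]
      isometry_toFun := Isometry.of_dist_eq (h3 g) }
  map_one' := by ext x; exact h1 x
  map_mul' g h := by ext x; exact h2 g h x

theorem actHom_apply {H X : Type} [Group H] [MetricSpace X] (ρ : H → X → X) (h1 : ∀ x, ρ 1 x = x)
    (h2 : ∀ g h x, ρ (g * h) x = ρ g (ρ h x)) (h3 : ∀ g x y, dist (ρ g x) (ρ g y) = dist x y)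
    (g : H) (x : X) : actHom ρ h1 h2 h3 g x = ρ g x := rfl

/-- the part of the argument which uses the group G = SL(3,R) -/
theorem core0 (Γ : Subgroup (Matrix.SpecialLinearGroup (Fin 3) ℝ)) {X : Type} [MetricSpace X]
    (ρ : Γ → X → X) (d : Fin 3 → ℝ) (hd : d 0 * d 1 * d 2 = 1)
    (h1 : 0 < |d 1|) (h2 : |d 1| < |d 0|) (h3 : |d 0| < |d 2|) (hmem : Dg d hd ∈ Γ)
    (hfix : ∀ x : X, ρ ⟨Dg d hd, hmem⟩ x ≠ x) (N : ℕ → ℕ) (hN : ∀ j, j ≤ N j)
    (hrec : ∀ x : X, Tendsto (fun j => dist (ρ ((⟨Dg d hd, hmem⟩ : Γ) ^ (N j)) x) x) atTop (nhds 0))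
    (Z : Set X) (ρ₁ : Matrix.SpecialLinearGroup (Fin 3) ℝ →* (Z ≃ᵢ Z))
    (hcont : ∀ z : Z, Continuous fun g => ρ₁ g z)
    (z : Z) (hagree : ∀ γ : Γ, ρ γ (z : X) = (ρ₁ (γ : Matrix.SpecialLinearGroup (Fin 3) ℝ) z : X)) : False := by
  set γ₀ : Γ := ⟨Dg d hd, hmem⟩ with hγ₀
  have hrec1 : Tendsto (fun j => dist (ρ₁ (Dg d hd ^ (N j)) z) z) atTop (nhds 0) := by
    refine (hrec (z : X)).congr fun j => ?_
    rw [hagree (γ₀ ^ (N j)), Subtype.dist_eq]
    rfl
  have hrec2 : Tendsto (fun j => dist (ρ₁ ((Dg d hd ^ (N j))⁻¹) z) z) atTop (nhds 0) := by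
    refine hrec1.congr fun j => ?_
    rw [← (ρ₁ (Dg d hd ^ (N j))).isometry.dist_eq (ρ₁ (Dg d hd ^ (N j))⁻¹ z) z]
    have : ρ₁ (Dg d hd ^ (N j)) (ρ₁ (Dg d hd ^ (N j))⁻¹ z) = z := by
      rw [← IsometryEquiv.mul_apply, ← map_mul, mul_inv_cancel, map_one]; rfl
    rw [this, dist_comm]
  have hNt : Tendsto N atTop atTop := tendsto_atTop_mono hN tendsto_id
  have hdne : ∀ i, d i ≠ 0 := by
    intro i h
    fin_cases i
    · have : d 0 = 0 := h
      rw [this] at h2; simp at h2; linarith [abs_nonneg (d 1)]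
    · have : d 1 = 0 := h
      rw [this] at h1; simp at h1
    · have : d 2 = 0 := h
      rw [this] at h3; simp at h3; linarith [abs_nonneg (d 0)]
  have habs : ∀ a b : Fin 3, a ≠ b → |d b| < |d a| ∨ |d a| < |d b| := by
    intro a b hab
    fin_cases a <;> fin_cases b <;> first
      | exact absurd rfl hab
      | exact Or.inl h2
      | exact Or.inr h2
      | exact Or.inl h3
      | exact Or.inr h3
      | exact Or.inl (h2.trans h3)
      | exact Or.inr (h2.trans h3)
  have hEl : ∀ a b h t, ρ₁ (El a b h t) z = z := by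
    intro a b h t
    rcases habs a b h with hlt | hlt
    · -- |d b| < |d a| : g⁻¹ E g → 1
      have hr : |d b / d a| < 1 := by
        rw [abs_div, div_lt_one (abs_pos.2 (hdne a))]; exact hlt
      refine mautner ρ₁ z (hcont z) (fun j => Dg d hd ^ (N j)) (fun j => El a b h (t * (d b / d a) ^ (N j))) _
        (fun j => ?_) ?_ hrec1
      · obtain ⟨hD, hpow⟩ := Dg_pow d hd (N j)
        rw [eq_mul_inv_iff_mul_eq, hpow]
        apply Dg_conj
        have hne := pow_ne_zero (N j) (hdne a)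
        show d a ^ (N j) * (t * (d b / d a) ^ (N j)) = t * d b ^ (N j)
        rw [div_pow]; field_simp
      · have h5 : Tendsto (fun j => t * (d b / d a) ^ (N j)) atTop (nhds (t * 0)) :=
          ((tendsto_pow_atTop_nhds_zero_of_abs_lt_one hr).comp hNt).const_mul t
        rw [mul_zero] at h5
        have h6 := ((El_continuous a b h).tendsto 0).comp h5
        rw [El_zero] at h6
        exact h6
    · -- |d a| < |d b| : g E g⁻¹ → 1
      have hr : |d a / d b| < 1 := by
        rw [abs_div, div_lt_one (abs_pos.2 (hdne b))]; exact hlt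
      refine mautner ρ₁ z (hcont z) (fun j => (Dg d hd ^ (N j))⁻¹) (fun j => El a b h (t * (d a / d b) ^ (N j))) _
        (fun j => ?_) ?_ hrec2
      · obtain ⟨hD, hpow⟩ := Dg_pow d hd (N j)
        rw [inv_inv, mul_assoc, eq_inv_mul_iff_mul_eq, hpow]
        symm
        apply Dg_conj
        have hne := pow_ne_zero (N j) (hdne b)
        show d a ^ (N j) * t = t * (d a / d b) ^ (N j) * d b ^ (N j)
        rw [div_pow]; field_simp
      · have h5 : Tendsto (fun j => t * (d a / d b) ^ (N j)) atTop (nhds (t * 0)) :=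
          ((tendsto_pow_atTop_nhds_zero_of_abs_lt_one hr).comp hNt).const_mul t
        rw [mul_zero] at h5
        have h6 := ((El_continuous a b h).tendsto 0).comp h5
        rw [El_zero] at h6
        exact h6
  -- stabiliser of z
  let S : Subgroup (Matrix.SpecialLinearGroup (Fin 3) ℝ) :=
    { carrier := {g | ρ₁ g z = z}
      one_mem' := by show ρ₁ 1 z = z; rw [map_one]; rfl
      mul_mem' := by
        intro a b ha hb
        show ρ₁ (a * b) z = z
        rw [map_mul, IsometryEquiv.mul_apply, show ρ₁ b z = z from hb, show ρ₁ a z = z from ha]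
      inv_mem' := by
        intro a ha
        show ρ₁ a⁻¹ z = z
        have h7 : ρ₁ a z = z := ha
        conv_lhs => rw [← h7]
        rw [← IsometryEquiv.mul_apply, ← map_mul, inv_mul_cancel, map_one]; rfl }
  have hS : Dg d hd ∈ S := Dg_mem S (fun a b h t => hEl a b h t) d hd
  have h8 : ρ₁ (Dg d hd) z = z := hS
  apply hfix (z : X)
  rw [hagree γ₀]
  show ((ρ₁ (Dg d hd) z : Z) : X) = z
  rw [h8]

/-- the comparison inequality with the comparison triangle in the complex plane -/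
theorem comparisonC {X : Type} [MetricSpace X]
    (h : ∀ x y : X, ∀ τ ∈ Set.Icc (0 : ℝ) 1, ∃ m : X, ∀ z : X,
      dist z m ^ 2 ≤ (1 - τ) * dist z x ^ 2 + τ * dist z y ^ 2 - τ * (1 - τ) * dist x y ^ 2)
    (x y z : X) (α β : ℝ → X) (hα : J6_IsGeodesic α x y) (hβ : J6_IsGeodesic β x z) (x' y' z' : ℂ)
    (hxy : ‖x' - y'‖ = dist x y) (hxz : ‖x' - z'‖ = dist x z) (hyz : ‖y' - z'‖ = dist y z)
    (s : ℝ) (hs : s ∈ Set.Icc (0 : ℝ) 1) (t : ℝ) (ht : t ∈ Set.Icc (0 : ℝ) 1) :
    dist (α s) (β t) ≤ ‖((1 - s) * x' + s * y') - ((1 - t) * x' + t * z')‖ := by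
  have e1 := J6_star h hβ ht (α s)
  have e2 := J6_star h hα hs z
  have e3 : dist (α s) x = s * dist x y := by
    have := hα.2.2 s hs 0 ⟨le_rfl, zero_le_one⟩
    rw [hα.1, sub_zero, abs_of_nonneg hs.1] at this
    exact this
  rw [e3, dist_comm (α s) z] at e1
  rw [dist_comm z x, dist_comm z y] at e2
  have key : ‖((1 - s) * x' + s * y') - ((1 - t) * x' + t * z')‖ ^ 2 =
      (1 - t) * (s * dist x y) ^ 2 + t * ((1 - s) * dist x z ^ 2 + s * dist y z ^ 2 - s * (1 - s) * dist x y ^ 2)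
        - t * (1 - t) * dist x z ^ 2 := by
    rw [← hxy, ← hxz, ← hyz, mul_pow]
    simp only [← Complex.normSq_eq_norm_sq, Complex.normSq_apply, Complex.sub_re, Complex.sub_im, Complex.add_re,
      Complex.add_im, Complex.mul_re, Complex.mul_im, Complex.ofReal_re, Complex.ofReal_im, Complex.one_re,
      Complex.one_im]
    ring
  apply le_of_sq_le_sq _ (norm_nonneg _)
  rw [key]
  have ht0 := ht.1
  nlinarith [mul_le_mul_of_nonneg_left e2 ht.1]

end Bac815
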