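import Mathlib
set_option autoImplicit false
namespace Bac815
open Real NNReal

/-- truncated rescaled quotient distance on `T` modulo the group `L`. -/
noncomputable def K1_A {T L : Type*} [PseudoMetricSpace T] [Group L] [MulAction L T] (ε : ℝ)
    (x y : T) : ℝ := ⨅ l : L, min π (ε * dist x (l • y))

/-- squared Euclidean cone distance on `T × ℝ≥0` over the quotient of `T` by `L`. -/
noncomputable def K1_Q {T L : Type*} [PseudoMetricSpace T] [Group L] [MulAction L T] (ε : ℝ)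
    (u v : T × ℝ≥0) : ℝ :=
  (u.2 : ℝ) ^ 2 + (v.2 : ℝ) ^ 2 - 2 * u.2 * v.2 * cos (K1_A (L := L) ε u.1 v.1)

section K1aux

variable {T L : Type*} [PseudoMetricSpace T] [Group L] [MulAction L T] {ε : ℝ}

theorem K1_bdd (hε : 0 < ε) (x y : T) :
    BddBelow (Set.range fun l : L => min π (ε * dist x (l • y))) := by
  refine ⟨0, ?_⟩
  rintro _ ⟨l, rfl⟩
  exact le_min Real.pi_pos.le (by positivity)

theorem K1_nonneg (hε : 0 < ε) (x y : T) : 0 ≤ K1_A (L := L) ε x y :=
  le_ciInf fun l => le_min Real.pi_pos.le (by positivity)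

theorem K1_le_pi (hε : 0 < ε) (x y : T) : K1_A (L := L) ε x y ≤ π :=
  (ciInf_le (K1_bdd hε x y) 1).trans (min_le_left _ _)

theorem K1_le (hε : 0 < ε) (x y : T) (l : L) : K1_A (L := L) ε x y ≤ ε * dist x (l • y) :=
  (ciInf_le (K1_bdd hε x y) l).trans (min_le_right _ _)

theorem K1_le' (hε : 0 < ε) (x y : T) : K1_A (L := L) ε x y ≤ ε * dist x y := by
  have := K1_le (L := L) hε x y 1
  rwa [one_smul] at this

theorem K1_dist_smul (hiso : ∀ (l : L) (x y : T), dist (l • x) (l • y) = dist x y)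
    (l l' : L) (y : T) : dist (l • y) (l' • y) = dist y ((l⁻¹ * l') • y) := by
  rw [← hiso l⁻¹ (l • y) (l' • y), inv_smul_smul, smul_smul]

theorem K1_eq (hiso : ∀ (l : L) (x y : T), dist (l • x) (l • y) = dist x y)
    (hε : 0 < ε) (hsys : ∀ l : L, l ≠ 1 → ∀ x : T, 2 * π ≤ ε * dist x (l • x))
    {x y : T} {l : L} (h : ε * dist x (l • y) < π) :
    K1_A (L := L) ε x y = ε * dist x (l • y) := by
  refine le_antisymm (K1_le hε x y l) (le_ciInf fun l' => ?_)
  refine le_min h.le ?_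
  by_cases hl : l' = l
  · rw [hl]
  · have h1 : l⁻¹ * l' ≠ 1 := by
      intro h2
      apply hl
      rw [inv_mul_eq_one] at h2
      exact h2.symm
    have h2 := hsys _ h1 y
    rw [← K1_dist_smul hiso] at h2
    have h3 : dist (l • y) (l' • y) ≤ dist x (l • y) + dist x (l' • y) := by
      have := dist_triangle (l • y) x (l' • y)
      rwa [dist_comm (l • y) x] at this
    nlinarith

theorem K1_attain (hiso : ∀ (l : L) (x y : T), dist (l • x) (l • y) = dist x y)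
    (hε : 0 < ε) (hsys : ∀ l : L, l ≠ 1 → ∀ x : T, 2 * π ≤ ε * dist x (l • x))
    {x y : T} (h : K1_A (L := L) ε x y < π) :
    ∃ l : L, ε * dist x (l • y) = K1_A (L := L) ε x y := by
  obtain ⟨l, hl⟩ := exists_lt_of_ciInf_lt h
  have h1 : ε * dist x (l • y) < π := by
    rcases min_lt_iff.1 hl with h2 | h2
    · exact absurd h2 (lt_irrefl _)
    · exact h2
  exact ⟨l, (K1_eq hiso hε hsys h1).symm⟩

theorem K1_symm_le (hiso : ∀ (l : L) (x y : T), dist (l • x) (l • y) = dist x y)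
    (hε : 0 < ε) (x y : T) : K1_A (L := L) ε y x ≤ K1_A (L := L) ε x y := by
  refine le_ciInf fun l => ?_
  have h1 : dist x (l • y) = dist y (l⁻¹ • x) := by
    rw [← hiso l⁻¹ x (l • y), inv_smul_smul, dist_comm]
  rw [h1]
  exact le_min (K1_le_pi hε _ _) (K1_le hε _ _ _)

theorem K1_symm (hiso : ∀ (l : L) (x y : T), dist (l • x) (l • y) = dist x y)
    (hε : 0 < ε) (x y : T) : K1_A (L := L) ε x y = K1_A (L := L) ε y x :=
  le_antisymm (K1_symm_le hiso hε y x) (K1_symm_le hiso hε x y)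

theorem K1_triangle (hiso : ∀ (l : L) (x y : T), dist (l • x) (l • y) = dist x y)
    (hε : 0 < ε) (hsys : ∀ l : L, l ≠ 1 → ∀ x : T, 2 * π ≤ ε * dist x (l • x)) (x y z : T) :
    K1_A (L := L) ε x z ≤ K1_A (L := L) ε x y + K1_A (L := L) ε y z := by
  have hp := K1_le_pi (L := L) hε x z
  have n1 := K1_nonneg (L := L) hε x y
  have n2 := K1_nonneg (L := L) hε y z
  by_cases h1 : K1_A (L := L) ε x y < π
  · by_cases h2 : K1_A (L := L) ε y z < π
    · obtain ⟨l, hl⟩ := K1_attain hiso hε hsys h1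
      obtain ⟨l', hl'⟩ := K1_attain hiso hε hsys h2
      have h3 := K1_le (L := L) hε x z (l * l')
      have h4 := dist_triangle x (l • y) ((l * l') • z)
      have h5 : dist (l • y) ((l * l') • z) = dist y (l' • z) := by
        rw [mul_smul, hiso]
      rw [h5] at h4
      nlinarith
    · push Not at h2
      linarith
  · push Not at h1
    linarith

theorem K1_smul (hiso : ∀ (l : L) (x y : T), dist (l • x) (l • y) = dist x y)
    (hε : 0 < ε) (hsys : ∀ l : L, l ≠ 1 → ∀ x : T, 2 * π ≤ ε * dist x (l • x)) (l : L) (w y : T) :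
    K1_A (L := L) ε w (l • y) = K1_A (L := L) ε w y := by
  have h0 : K1_A (L := L) ε y (l • y) ≤ 0 := by
    have := K1_le (L := L) hε y (l • y) l⁻¹
    rwa [inv_smul_smul, dist_self, mul_zero] at this
  have h1 := K1_triangle hiso hε hsys w y (l • y)
  have h2 := K1_triangle hiso hε hsys w (l • y) y
  have h3 := K1_symm hiso hε (l • y) y
  linarith

theorem K1_caseB (hiso : ∀ (l : L) (x y : T), dist (l • x) (l • y) = dist x y)
    (hε : 0 < ε) (hsys : ∀ l : L, l ≠ 1 → ∀ x : T, 2 * π ≤ ε * dist x (l • x)) (x y : T)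
    (al be : ℝ) (hbe : 0 ≤ be) (hab : be ≤ al) (h : K1_A (L := L) ε x y = π) :
    ∃ (p : T) (ρ : ℝ), 0 ≤ ρ ∧
      ρ ^ 2 = al ^ 2 + be ^ 2 + 2 * al * be * cos (K1_A (L := L) ε x y) ∧
      ∀ w : T, al * cos (K1_A (L := L) ε w x) + be * cos (K1_A (L := L) ε w y) ≤
        ρ * cos (K1_A (L := L) ε w p) := by
  refine ⟨x, al - be, by linarith, ?_, fun w => ?_⟩
  · rw [h, cos_pi]; ring
  · have h1 := K1_triangle hiso hε hsys x w y
    rw [K1_symm hiso hε x w, h] at h1
    have h2 : cos (K1_A (L := L) ε w y) ≤ cos (π - K1_A (L := L) ε w x) := by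
      apply cos_le_cos_of_nonneg_of_le_pi
      · linarith [K1_le_pi (L := L) hε w x]
      · exact K1_le_pi hε w y
      · linarith
    rw [cos_pi_sub] at h2
    nlinarith

theorem K1_A2 {al be ρ c θ a' b' φ : ℝ} (hal : 0 < al) (hbe : 0 < be) (hρpos : 0 < ρ)
    (hθ0 : 0 ≤ θ) (hθpi : θ ≤ π) (hθltc : θ ≤ c) (hcpi : c < π)
    (hρid : ρ = al * cos θ + be * cos (c - θ))
    (hid : ∀ a : ℝ, al * cos a + be * cos (c - a) = ρ * cos (a - θ))
    (ha0 : 0 ≤ a') (hb0 : 0 ≤ b') (hab : a' + b' ≤ c) (hφ0 : 0 ≤ φ) (hφπ : φ ≤ π)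
    (hφ1 : a' - θ ≤ φ) (hφ2 : b' - (c - θ) ≤ φ) :
    ρ * cos φ ≤ al * cos a' + be * cos b' := by
  by_cases h1 : a' ≤ θ
  · by_cases h2 : b' ≤ c - θ
    · have h3 : cos θ ≤ cos a' := cos_le_cos_of_nonneg_of_le_pi ha0 hθpi h1
      have h4 : cos (c - θ) ≤ cos b' :=
        cos_le_cos_of_nonneg_of_le_pi hb0 (by linarith) h2
      have h5 : ρ * cos φ ≤ ρ * 1 := mul_le_mul_of_nonneg_left (cos_le_one φ) hρpos.le
      have h6 := mul_le_mul_of_nonneg_left h3 hal.le
      have h7 := mul_le_mul_of_nonneg_left h4 hbe.le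
      linarith
    · push Not at h2
      have h3 : cos (c - b') ≤ cos a' :=
        cos_le_cos_of_nonneg_of_le_pi ha0 (by linarith) (by linarith)
      have h4 := hid (c - b')
      have e5 : c - (c - b') = b' := by ring
      rw [e5] at h4
      have h6 : cos (c - b' - θ) = cos (b' - (c - θ)) := by
        rw [← cos_neg]; congr 1; ring
      have h7 : cos φ ≤ cos (b' - (c - θ)) :=
        cos_le_cos_of_nonneg_of_le_pi (by linarith) hφπ hφ2
      rw [h6] at h4
      have h8 := mul_le_mul_of_nonneg_left h3 hal.le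
      have h9 := mul_le_mul_of_nonneg_left h7 hρpos.le
      linarith
  · push Not at h1
    have h3 : cos (c - a') ≤ cos b' :=
      cos_le_cos_of_nonneg_of_le_pi hb0 (by linarith) (by linarith)
    have h4 := hid a'
    have h7 : cos φ ≤ cos (a' - θ) :=
      cos_le_cos_of_nonneg_of_le_pi (by linarith) hφπ hφ1
    have h8 := mul_le_mul_of_nonneg_left h3 hbe.le
    have h9 := mul_le_mul_of_nonneg_left h7 hρpos.le
    linarith

theorem K1_caseA
    (J1 : ∀ (a b c θ e : ℝ), 0 ≤ a → 0 ≤ b → 0 < c → c < π → 0 ≤ θ → θ ≤ c → a ≤ b + c → b ≤ a + c →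
      c ≤ a + b → a + b + c < 2 * π → 0 ≤ e →
      e ^ 2 ≤ (1 - θ / c) * a ^ 2 + (θ / c) * b ^ 2 - (θ / c) * (1 - θ / c) * c ^ 2 →
      sin (c - θ) * cos a + sin θ * cos b ≤ sin c * cos e ∧ e ≤ π)
    (hiso : ∀ (l : L) (x y : T), dist (l • x) (l • y) = dist x y)
    (hε : 0 < ε)
    (hsys : ∀ l : L, l ≠ 1 → ∀ x : T, 2 * π ≤ ε * dist x (l • x))
    (hCN : ∀ x y : T, ∀ τ ∈ Set.Icc (0 : ℝ) 1, ∃ m : T, ∀ z : T,
      dist z m ^ 2 ≤ (1 - τ) * dist z x ^ 2 + τ * dist z y ^ 2 - τ * (1 - τ) * dist x y ^ 2)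
    (x y : T) (al be : ℝ) (hal : 0 < al) (hbe : 0 < be) (c : ℝ) (hc0 : 0 < c) (hcpi : c < π)
    (hc : K1_A (L := L) ε x y = c) (hcd : ε * dist x y = c) :
    ∃ (p : T) (ρ : ℝ), 0 ≤ ρ ∧
      ρ ^ 2 = al ^ 2 + be ^ 2 + 2 * al * be * cos c ∧
      ∀ w : T, al * cos (K1_A (L := L) ε w x) + be * cos (K1_A (L := L) ε w y) ≤
        ρ * cos (K1_A (L := L) ε w p) := by
  have hsc : 0 < sin c := sin_pos_of_pos_of_lt_pi hc0 hcpi
  have hsq := sin_sq_add_cos_sq c
  have hR : al ^ 2 + be ^ 2 + 2 * al * be * cos c = (al + be * cos c) ^ 2 + (be * sin c) ^ 2 := by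
    nlinarith
  have hRpos : 0 < al ^ 2 + be ^ 2 + 2 * al * be * cos c := by
    rw [hR]
    have : 0 < be * sin c := mul_pos hbe hsc
    positivity
  set ρ := Real.sqrt (al ^ 2 + be ^ 2 + 2 * al * be * cos c) with hρ
  have hρpos : 0 < ρ := Real.sqrt_pos.2 hRpos
  have hρsq : ρ ^ 2 = al ^ 2 + be ^ 2 + 2 * al * be * cos c := Real.sq_sqrt hRpos.le
  have hbs : 0 < be * sin c := mul_pos hbe hsc
  -- the angle
  obtain ⟨θ, hθ0, hθpi, hθc, hθs⟩ : ∃ θ : ℝ, 0 ≤ θ ∧ θ ≤ π ∧ ρ * cos θ = al + be * cos c ∧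
      ρ * sin θ = be * sin c := by
    refine ⟨arccos ((al + be * cos c) / ρ), arccos_nonneg _, arccos_le_pi _, ?_, ?_⟩
    · have habs : |(al + be * cos c) / ρ| ≤ 1 := by
        rw [abs_div, abs_of_pos hρpos, div_le_one hρpos]
        apply abs_le_of_sq_le_sq _ hρpos.le
        rw [hρsq, hR]
        nlinarith
      obtain ⟨h1, h2⟩ := abs_le.1 habs
      rw [cos_arccos h1 h2]
      field_simp
    · rw [sin_arccos]
      have h3 : 1 - ((al + be * cos c) / ρ) ^ 2 = (be * sin c / ρ) ^ 2 := by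
        rw [div_pow, div_pow, eq_div_iff (by positivity), sub_mul, div_mul_cancel₀ _ (by positivity),
          one_mul, hρsq, hR]
        ring
      rw [h3, Real.sqrt_sq (by positivity)]
      field_simp
  have hθs' : ρ * sin (c - θ) = al * sin c := by
    rw [sin_sub]
    have : ρ * (sin c * cos θ - cos c * sin θ) = sin c * (ρ * cos θ) - cos c * (ρ * sin θ) := by
      ring
    rw [this, hθc, hθs]; ring
  have hθltc : θ ≤ c := by
    by_contra hcon
    push Not at hcon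
    have h1 : sin (θ - c) ≥ 0 := sin_nonneg_of_nonneg_of_le_pi (by linarith) (by linarith)
    have h2 : sin (c - θ) = - sin (θ - c) := by rw [← sin_neg]; congr 1; ring
    have h3 : ρ * sin (c - θ) ≤ 0 := by rw [h2]; nlinarith
    rw [hθs'] at h3
    have : 0 < al * sin c := mul_pos hal hsc
    linarith
  have hρid : ρ = al * cos θ + be * cos (c - θ) := by
    rw [cos_sub]
    have h1 : ρ * (ρ : ℝ) = ρ * (al * cos θ + be * (cos c * cos θ + sin c * sin θ)) := by
      have e : ρ * (al * cos θ + be * (cos c * cos θ + sin c * sin θ)) =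
        (al + be * cos c) * (ρ * cos θ) + (be * sin c) * (ρ * sin θ) := by ring
      rw [e, hθc, hθs, ← sq, hρsq, hR]
      ring
    exact mul_left_cancel₀ hρpos.ne' h1
  have hid : ∀ a : ℝ, al * cos a + be * cos (c - a) = ρ * cos (a - θ) := by
    intro a
    rw [cos_sub, cos_sub]
    have e : ρ * (cos a * cos θ + sin a * sin θ) = cos a * (ρ * cos θ) + sin a * (ρ * sin θ) := by
      ring
    rw [e, hθc, hθs]; ring
  set σ := θ / c with hσ
  have hσ0 : 0 ≤ σ := div_nonneg hθ0 hc0.le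
  have hσ1 : σ ≤ 1 := (div_le_one hc0).2 hθltc
  have hσc : σ * c = θ := by rw [hσ]; field_simp
  obtain ⟨p, hp⟩ := hCN x y σ ⟨hσ0, hσ1⟩
  have hpx : ε * dist x p ≤ θ := by
    have h1 := hp x
    rw [dist_self] at h1
    have h2 : dist x p ^ 2 ≤ (σ * dist x y) ^ 2 := by nlinarith
    have h3 : dist x p ≤ σ * dist x y := by
      exact (pow_le_pow_iff_left₀ dist_nonneg (by positivity) two_ne_zero).1 h2
    calc ε * dist x p ≤ ε * (σ * dist x y) := mul_le_mul_of_nonneg_left h3 hε.le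
      _ = σ * (ε * dist x y) := by ring
      _ = θ := by rw [hcd, hσc]
  have hpy : ε * dist y p ≤ c - θ := by
    have h1 := hp y
    rw [dist_self, dist_comm y x] at h1
    have h2 : dist y p ^ 2 ≤ ((1 - σ) * dist x y) ^ 2 := by nlinarith
    have h3 : dist y p ≤ (1 - σ) * dist x y := by
      exact (pow_le_pow_iff_left₀ dist_nonneg (mul_nonneg (by linarith) dist_nonneg)
        two_ne_zero).1 h2
    calc ε * dist y p ≤ ε * ((1 - σ) * dist x y) := mul_le_mul_of_nonneg_left h3 hε.le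
      _ = (1 - σ) * (ε * dist x y) := by ring
      _ = c - θ := by rw [hcd, sub_mul, hσc, one_mul]
  refine ⟨p, ρ, hρpos.le, hρsq, fun w => ?_⟩
  set a := K1_A (L := L) ε w x with ha
  set b := K1_A (L := L) ε w y with hb
  have ha0 : 0 ≤ a := K1_nonneg hε w x
  have hb0 : 0 ≤ b := K1_nonneg hε w y
  have hapi : a ≤ π := K1_le_pi hε w x
  have hbpi : b ≤ π := K1_le_pi hε w y
  have t1 : a ≤ b + c := by
    have := K1_triangle hiso hε hsys w y x
    rw [K1_symm hiso hε y x, hc] at this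
    exact this
  have t2 : b ≤ a + c := by
    have := K1_triangle hiso hε hsys w x y
    rw [hc] at this
    exact this
  have t3 : c ≤ a + b := by
    have := K1_triangle hiso hε hsys x w y
    rw [K1_symm hiso hε x w, hc] at this
    exact this
  by_cases hsum : a + b + c < 2 * π
  · have haπ : a < π := by
      rcases hapi.lt_or_eq with h | h
      · exact h
      · linarith
    have hbπ : b < π := by
      rcases hbpi.lt_or_eq with h | h
      · exact h
      · linarith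
    obtain ⟨l1, hl1⟩ := K1_attain hiso hε hsys haπ
    obtain ⟨l2, hl2⟩ := K1_attain hiso hε hsys hbπ
    rw [← ha] at hl1
    rw [← hb] at hl2
    have e1 : dist w (l1 • x) = dist (l1⁻¹ • w) x := by
      rw [← hiso l1⁻¹ w (l1 • x), inv_smul_smul]
    have e2 : dist w (l2 • y) = dist (l2⁻¹ • w) y := by
      rw [← hiso l2⁻¹ w (l2 • y), inv_smul_smul]
    rw [e1] at hl1
    rw [e2] at hl2
    have hll : l1 = l2 := by
      by_contra hne
      have h1 : l1 * l2⁻¹ ≠ 1 := by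
        intro h2; exact hne (mul_inv_eq_one.1 h2)
      have h2 := hsys _ h1 w
      have h3 : dist w ((l1 * l2⁻¹) • w) = dist (l1⁻¹ • w) (l2⁻¹ • w) := by
        rw [K1_dist_smul hiso, inv_inv]
      rw [h3] at h2
      have h4 : dist (l1⁻¹ • w) (l2⁻¹ • w) ≤ dist (l1⁻¹ • w) x + dist x y + dist (l2⁻¹ • w) y := by
        have := dist_triangle4 (l1⁻¹ • w) x y (l2⁻¹ • w)
        rwa [dist_comm y (l2⁻¹ • w)] at this
      have h5 : ε * dist (l1⁻¹ • w) (l2⁻¹ • w) ≤ a + c + b := by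
        calc ε * dist (l1⁻¹ • w) (l2⁻¹ • w) ≤
            ε * (dist (l1⁻¹ • w) x + dist x y + dist (l2⁻¹ • w) y) :=
              mul_le_mul_of_nonneg_left h4 hε.le
          _ = a + c + b := by rw [mul_add, mul_add, hl1, hcd, hl2]
      linarith
    rw [← hll] at hl2
    have he0 : 0 ≤ ε * dist (l1⁻¹ • w) p := by positivity
    have he2 : (ε * dist (l1⁻¹ • w) p) ^ 2 ≤ (1 - θ / c) * a ^ 2 + (θ / c) * b ^ 2 -
        (θ / c) * (1 - θ / c) * c ^ 2 := by
      have h1 := hp (l1⁻¹ • w)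
      have h2 := mul_le_mul_of_nonneg_left h1 (sq_nonneg ε)
      rw [← hσ, ← hl1, ← hl2, ← hcd]
      calc (ε * dist (l1⁻¹ • w) p) ^ 2 = ε ^ 2 * dist (l1⁻¹ • w) p ^ 2 := by ring
        _ ≤ _ := h2
        _ = _ := by ring
    obtain ⟨j1, j2⟩ := J1 a b c θ (ε * dist (l1⁻¹ • w) p) ha0 hb0 hc0 hcpi hθ0 hθltc t1 t2 t3 hsum
      he0 he2
    have h6 : K1_A (L := L) ε w p ≤ ε * dist (l1⁻¹ • w) p := by
      have := K1_le (L := L) hε w p l1
      rwa [← hiso l1⁻¹ w (l1 • p), inv_smul_smul] at this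
    have h7 : cos (ε * dist (l1⁻¹ • w) p) ≤ cos (K1_A (L := L) ε w p) :=
      cos_le_cos_of_nonneg_of_le_pi (K1_nonneg hε w p) j2 h6
    have h8 : sin c * (al * cos a + be * cos b) ≤ sin c * (ρ * cos (ε * dist (l1⁻¹ • w) p)) := by
      calc sin c * (al * cos a + be * cos b) = (al * sin c) * cos a + (be * sin c) * cos b := by
            ring
        _ = ρ * (sin (c - θ) * cos a + sin θ * cos b) := by rw [← hθs', ← hθs]; ring
        _ ≤ ρ * (sin c * cos (ε * dist (l1⁻¹ • w) p)) := mul_le_mul_of_nonneg_left j1 hρpos.le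
        _ = _ := by ring
    have h9 := le_of_mul_le_mul_left h8 hsc
    exact h9.trans (mul_le_mul_of_nonneg_left h7 hρpos.le)
  · push Not at hsum
    have hwp0 := K1_nonneg (L := L) hε w p
    have hwppi := K1_le_pi (L := L) hε w p
    have hA1 : K1_A (L := L) ε w p ≤ a + θ := by
      have := K1_triangle hiso hε hsys w x p
      have h2 := K1_le' (L := L) hε x p
      linarith
    have hA2 : K1_A (L := L) ε w p ≤ b + (c - θ) := by
      have := K1_triangle hiso hε hsys w y p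
      have h2 := K1_le' (L := L) hε y p
      linarith
    have hcosw : cos (K1_A (L := L) ε w p) = - cos (π - K1_A (L := L) ε w p) := by
      rw [cos_pi_sub, neg_neg]
    have hcosa : cos a = - cos (π - a) := by rw [cos_pi_sub, neg_neg]
    have hcosb : cos b = - cos (π - b) := by rw [cos_pi_sub, neg_neg]
    set φ := π - K1_A (L := L) ε w p with hφ
    set a' := π - a with ha'
    set b' := π - b with hb'
    rw [hcosw, hcosa, hcosb]
    suffices h : ρ * cos φ ≤ al * cos a' + be * cos b' by linarith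
    exact K1_A2 hal hbe hρpos hθ0 hθpi hθltc hcpi hρid hid (by linarith) (by linarith)
      (by linarith) (by linarith) (by linarith) (by linarith) (by linarith)

theorem K1_core
    (J1 : ∀ (a b c θ e : ℝ), 0 ≤ a → 0 ≤ b → 0 < c → c < π → 0 ≤ θ → θ ≤ c → a ≤ b + c → b ≤ a + c →
      c ≤ a + b → a + b + c < 2 * π → 0 ≤ e →
      e ^ 2 ≤ (1 - θ / c) * a ^ 2 + (θ / c) * b ^ 2 - (θ / c) * (1 - θ / c) * c ^ 2 →
      sin (c - θ) * cos a + sin θ * cos b ≤ sin c * cos e ∧ e ≤ π)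
    (hiso : ∀ (l : L) (x y : T), dist (l • x) (l • y) = dist x y)
    (hε : 0 < ε)
    (hsys : ∀ l : L, l ≠ 1 → ∀ x : T, 2 * π ≤ ε * dist x (l • x))
    (hCN : ∀ x y : T, ∀ τ ∈ Set.Icc (0 : ℝ) 1, ∃ m : T, ∀ z : T,
      dist z m ^ 2 ≤ (1 - τ) * dist z x ^ 2 + τ * dist z y ^ 2 - τ * (1 - τ) * dist x y ^ 2)
    (x y : T) (al be : ℝ) (hal : 0 ≤ al) (hbe : 0 ≤ be) :
    ∃ (p : T) (ρ : ℝ), 0 ≤ ρ ∧
      ρ ^ 2 = al ^ 2 + be ^ 2 + 2 * al * be * cos (K1_A (L := L) ε x y) ∧
      ∀ w : T, al * cos (K1_A (L := L) ε w x) + be * cos (K1_A (L := L) ε w y) ≤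
        ρ * cos (K1_A (L := L) ε w p) := by
  rcases (K1_le_pi (L := L) hε x y).lt_or_eq with hlt | heq
  · rcases hal.eq_or_lt with h0 | hal'
    · refine ⟨y, be, hbe, ?_, fun w => ?_⟩
      · rw [← h0]; ring
      · rw [← h0]; simp
    rcases hbe.eq_or_lt with h0 | hbe'
    · refine ⟨x, al, hal, ?_, fun w => ?_⟩
      · rw [← h0]; ring
      · rw [← h0]; simp
    rcases (K1_nonneg (L := L) hε x y).eq_or_lt with h0 | hpos
    · refine ⟨x, al + be, by linarith, ?_, fun w => ?_⟩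
      · rw [← h0, cos_zero]; ring
      · have h1 := K1_triangle hiso hε hsys w y x
        have h2 := K1_triangle hiso hε hsys w x y
        rw [K1_symm hiso hε y x, ← h0] at h1
        rw [← h0] at h2
        have h3 : K1_A (L := L) ε w y = K1_A (L := L) ε w x := by linarith
        rw [h3]; linarith
    · obtain ⟨l, hl⟩ := K1_attain hiso hε hsys hlt
      have hA : K1_A (L := L) ε x (l • y) = K1_A (L := L) ε x y := K1_smul hiso hε hsys l x y
      obtain ⟨p, ρ, h1, h2, h3⟩ := K1_caseA J1 hiso hε hsys hCN x (l • y) al be hal' hbe'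
        (K1_A (L := L) ε x y) hpos hlt hA hl
      refine ⟨p, ρ, h1, h2, fun w => ?_⟩
      have h4 := h3 w
      rwa [K1_smul hiso hε hsys l w y] at h4
  · rcases le_total be al with h | h
    · exact K1_caseB hiso hε hsys x y al be hbe h heq
    · obtain ⟨p, ρ, h1, h2, h3⟩ := K1_caseB hiso hε hsys y x be al hal h
        (by rw [K1_symm hiso hε y x]; exact heq)
      refine ⟨p, ρ, h1, ?_, fun w => ?_⟩
      · rw [h2, K1_symm hiso hε y x]; ring
      · have := h3 w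
        linarith

end K1aux

/-- The Euclidean cone over the rescaled quotient `L \ T` (systole at least `2π`, `T` CAT(0)) satisfies the
strong CN inequality, i.e. it is CAT(0).  `J1` is the flat versus spherical comparison (available separately). -/
theorem K1_cone {T L : Type*} [PseudoMetricSpace T] [Group L] [MulAction L T]
    (J1 : ∀ (a b c θ e : ℝ), 0 ≤ a → 0 ≤ b → 0 < c → c < π → 0 ≤ θ → θ ≤ c → a ≤ b + c → b ≤ a + c →
      c ≤ a + b → a + b + c < 2 * π → 0 ≤ e →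
      e ^ 2 ≤ (1 - θ / c) * a ^ 2 + (θ / c) * b ^ 2 - (θ / c) * (1 - θ / c) * c ^ 2 →
      sin (c - θ) * cos a + sin θ * cos b ≤ sin c * cos e ∧ e ≤ π)
    (hiso : ∀ (l : L) (x y : T), dist (l • x) (l • y) = dist x y)
    (ε : ℝ) (hε : 0 < ε)
    (hsys : ∀ l : L, l ≠ 1 → ∀ x : T, 2 * π ≤ ε * dist x (l • x))
    (hCN : ∀ x y : T, ∀ τ ∈ Set.Icc (0 : ℝ) 1, ∃ m : T, ∀ z : T,
      dist z m ^ 2 ≤ (1 - τ) * dist z x ^ 2 + τ * dist z y ^ 2 - τ * (1 - τ) * dist x y ^ 2)
    (u v : T × ℝ≥0) (τ : ℝ) (hτ : τ ∈ Set.Icc (0 : ℝ) 1) :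
    ∃ m : T × ℝ≥0, ∀ z : T × ℝ≥0,
      K1_Q (L := L) ε z m ≤ (1 - τ) * K1_Q (L := L) ε z u + τ * K1_Q (L := L) ε z v
        - τ * (1 - τ) * K1_Q (L := L) ε u v := by
  obtain ⟨x, r⟩ := u
  obtain ⟨y, s⟩ := v
  have h1τ : 0 ≤ 1 - τ := by linarith [hτ.2]
  obtain ⟨p, ρ, hρ0, hρ2, hρ⟩ := K1_core J1 hiso hε hsys hCN x y ((1 - τ) * (r : ℝ)) (τ * (s : ℝ))
    (mul_nonneg h1τ r.coe_nonneg) (mul_nonneg hτ.1 s.coe_nonneg)
  obtain ⟨R, hR⟩ : ∃ R : ℝ≥0, (R : ℝ) = ρ := ⟨⟨ρ, hρ0⟩, rfl⟩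
  refine ⟨(p, R), ?_⟩
  rintro ⟨w, t⟩
  have h := hρ w
  have ht : (0 : ℝ) ≤ t := t.coe_nonneg
  have h2 := mul_le_mul_of_nonneg_left h (mul_nonneg (by norm_num : (0 : ℝ) ≤ 2) ht)
  unfold K1_Q
  simp only [hR]
  nlinarith [h2, hρ2]

end Bac815
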