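import Pool.Agent.H665M.L1
import Pool.Agent.H665M.K1
set_option autoImplicit false
namespace Bac815
open Real NNReal UniformSpace


structure PD (Γ T : Type) [Group Γ] [PseudoMetricSpace T] [MulAction Γ T] where
  t0 : T
  Λ : ℕ → Subgroup Γ
  normal : ∀ k, (Λ k).Normal
  ε : ℕ → ℝ
  εpos : ∀ k, 0 < ε k
  εsum : Summable fun k => ε k ^ 2
  iso : ∀ (g : Γ) (x y : T), dist (g • x) (g • y) = dist x y
  cn : ∀ x y : T, ∀ τ ∈ Set.Icc (0 : ℝ) 1, ∃ m : T, ∀ z : T,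
      dist z m ^ 2 ≤ (1 - τ) * dist z x ^ 2 + τ * dist z y ^ 2 - τ * (1 - τ) * dist x y ^ 2
  sys : ∀ k, ∀ l ∈ Λ k, l ≠ 1 → ∀ x : T, 2 * π ≤ ε k * dist x (l • x)

namespace PD

variable {Γ T : Type} [Group Γ] [PseudoMetricSpace T] [MulAction Γ T] (P : PD Γ T)

noncomputable def A (k : ℕ) (x y : T) : ℝ := K1_A (L := P.Λ k) (P.ε k) x y

noncomputable def Q (k : ℕ) (u v : T × ℝ≥0) : ℝ := K1_Q (L := P.Λ k) (P.ε k) u v

theorem iso' (k : ℕ) (l : P.Λ k) (x y : T) : dist (l • x) (l • y) = dist x y := by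
  rw [Subgroup.smul_def, Subgroup.smul_def, P.iso]

theorem sys' (k : ℕ) (l : P.Λ k) (hl : l ≠ 1) (x : T) : 2 * π ≤ P.ε k * dist x (l • x) := by
  rw [Subgroup.smul_def]
  exact P.sys k l.1 l.2 (fun h => hl (Subtype.ext h)) x

theorem A_nonneg (k : ℕ) (x y : T) : 0 ≤ P.A k x y := K1_nonneg (P.εpos k) x y
theorem A_le_pi (k : ℕ) (x y : T) : P.A k x y ≤ π := K1_le_pi (P.εpos k) x y
theorem A_le (k : ℕ) (x y : T) : P.A k x y ≤ P.ε k * dist x y := K1_le' (P.εpos k) x y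

theorem A_self (k : ℕ) (x : T) : P.A k x x = 0 := by
  apply le_antisymm _ (P.A_nonneg k x x)
  have := P.A_le k x x
  simpa using this

theorem A_symm (k : ℕ) (x y : T) : P.A k x y = P.A k y x := by
  exact K1_symm (P.iso' k) (P.εpos k) _ _

theorem A_smul_le (k : ℕ) (g : Γ) (x y : T) : P.A k (g • x) (g • y) ≤ P.A k x y := by
  refine le_ciInf fun l => ?_
  have hmem : g * l.1 * g⁻¹ ∈ P.Λ k := (P.normal k).conj_mem _ l.2 g
  have h1 := K1_le (P.εpos k) (g • x) (g • y) (⟨_, hmem⟩ : P.Λ k)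
  have h2 : dist (g • x) ((⟨_, hmem⟩ : P.Λ k) • g • y) = dist x (l • y) := by
    rw [Subgroup.smul_def, Subgroup.smul_def, smul_smul, ← P.iso g x]
    congr 1
    rw [smul_smul]
    congr 1
    show g * l.1 * g⁻¹ * g = g * l.1
    group
  rw [h2] at h1
  exact le_min (P.A_le_pi k _ _) h1

theorem A_smul (k : ℕ) (g : Γ) (x y : T) : P.A k (g • x) (g • y) = P.A k x y := by
  apply le_antisymm (P.A_smul_le k g x y)
  have := P.A_smul_le k g⁻¹ (g • x) (g • y)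
  rwa [inv_smul_smul, inv_smul_smul] at this

/-- elements of the subgroup move nothing in the quotient -/
theorem A_mem (k : ℕ) (g : Γ) (hg : g ∈ P.Λ k) (x : T) : P.A k (g • x) x = 0 := by
  apply le_antisymm _ (P.A_nonneg k _ _)
  have h1 := K1_le (P.εpos k) (g • x) x (⟨g, hg⟩ : P.Λ k)
  rw [Subgroup.smul_def] at h1
  have h2 : P.ε k * dist (g • x) ((⟨g, hg⟩ : P.Λ k).1 • x) = 0 := by simp
  rw [h2] at h1
  exact h1

theorem A_ge (k : ℕ) (c : ℝ) (g : Γ) (h : ∀ l ∈ P.Λ k, ∀ x : T, c ≤ dist x ((l * g) • x)) (x : T) :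
    min π (P.ε k * c) ≤ P.A k (g • x) x := by
  refine le_ciInf fun l => ?_
  apply min_le_min_left
  apply mul_le_mul_of_nonneg_left _ (P.εpos k).le
  have h1 : dist (g • x) (l • x) = dist x ((l.1⁻¹ * g) • x) := by
    rw [Subgroup.smul_def, ← P.iso l.1⁻¹, smul_smul, inv_smul_smul, dist_comm]
  rw [h1]
  exact h _ ((P.Λ k).inv_mem l.2) x

theorem Q_eq (k : ℕ) (u v : T × ℝ≥0) : P.Q k u v =
    (u.2 : ℝ) ^ 2 + (v.2 : ℝ) ^ 2 - 2 * u.2 * v.2 * cos (P.A k u.1 v.1) := rfl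

theorem Q_eq' (k : ℕ) (u v : T × ℝ≥0) : P.Q k u v =
    ((u.2 : ℝ) - v.2) ^ 2 + 2 * u.2 * v.2 * (1 - cos (P.A k u.1 v.1)) := by
  rw [Q_eq]; ring

theorem form (J1 : ∀ (a b c θ e : ℝ), 0 ≤ a → 0 ≤ b → 0 < c → c < π → 0 ≤ θ → θ ≤ c → a ≤ b + c → b ≤ a + c →
      c ≤ a + b → a + b + c < 2 * π → 0 ≤ e →
      e ^ 2 ≤ (1 - θ / c) * a ^ 2 + (θ / c) * b ^ 2 - (θ / c) * (1 - θ / c) * c ^ 2 →
      sin (c - θ) * cos a + sin θ * cos b ≤ sin c * cos e ∧ e ≤ π) (k : ℕ) : IsCNForm (P.Q k) where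
  nonneg u v := by
    rw [Q_eq']
    have := Real.cos_le_one (P.A k u.1 v.1)
    have h1 : 0 ≤ 2 * (u.2 : ℝ) * v.2 := by positivity
    have := mul_nonneg h1 (sub_nonneg.2 this)
    positivity
  self u := by rw [Q_eq', A_self]; simp
  symm u v := by rw [Q_eq', Q_eq', A_symm]; ring
  cn u v τ hτ := K1_cone J1 (P.iso' k) (P.ε k) (P.εpos k) (P.sys' k) P.cn u v τ hτ

end PD

end Bac815
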