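import Pool.Agent.H665M.L2
import Pool.Agent.H665M.J5
set_option autoImplicit false
namespace Bac815
open Real NNReal UniformSpace


/-- set-up together with the Cayley form property -/
structure PD' (Γ T : Type) [Group Γ] [PseudoMetricSpace T] [MulAction Γ T] extends PD Γ T where
  form' : ∀ k, IsCNForm (toPD.Q k)

namespace PD'

variable {Γ T : Type} [Group Γ] [PseudoMetricSpace T] [MulAction Γ T] (P : PD' Γ T)

/-- base point of the cones -/
def o : T × ℝ≥0 := (P.t0, 1)

/-- the pre-completed l2 product -/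
def X0 : Type := L2T P.Q P.o

noncomputable instance : PseudoMetricSpace P.X0 := (L2_form P.form').pm

theorem dist_X0 (u v : P.X0) : dist u v = √(L2Q P.Q P.o u v) := rfl

theorem dist_X0_sq (u v : P.X0) : dist u v ^ 2 = L2Q P.Q P.o u v :=
  Real.sq_sqrt ((L2_form P.form').nonneg _ _)

def cact (g : Γ) (u : T × ℝ≥0) : T × ℝ≥0 := (g • u.1, u.2)

theorem Q_smul (k : ℕ) (g : Γ) (u v : T × ℝ≥0) : P.Q k (cact g u) (cact g v) = P.Q k u v := by
  rw [PD.Q_eq, PD.Q_eq]
  simp only [cact, P.A_smul]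

theorem Q_o (k : ℕ) (g : Γ) : P.Q k (cact g P.o) P.o ≤ P.ε k ^ 2 * dist (g • P.t0) P.t0 ^ 2 := by
  rw [PD.Q_eq']
  simp only [cact, o]
  have h1 := Real.one_sub_sq_div_two_le_cos (x := P.A k (g • P.t0) P.t0)
  have h2 := P.A_le k (g • P.t0) P.t0
  have h3 := P.A_nonneg k (g • P.t0) P.t0
  have h4 : P.A k (g • P.t0) P.t0 ^ 2 ≤ (P.ε k * dist (g • P.t0) P.t0) ^ 2 := by gcongr
  rw [mul_pow] at h4
  simp only [NNReal.coe_one]
  linarith

theorem summ (g : Γ) (u : P.X0) : Summable fun k => P.Q k (cact g (u.val k)) P.o := by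
  have h1 : Summable fun k => 2 * P.Q k (u.val k) P.o + 2 * (P.ε k ^ 2 * dist (g • P.t0) P.t0 ^ 2) :=
    (u.summable.mul_left 2).add ((P.εsum.mul_right _).mul_left 2)
  refine Summable.of_nonneg_of_le (fun k => (P.form' k).nonneg _ _) (fun k => ?_) h1
  have h2 := (P.form' k).quasi (cact g (u.val k)) (cact g P.o) P.o
  rw [P.Q_smul] at h2
  have h3 := P.Q_o k g
  linarith

noncomputable instance : MulAction Γ P.X0 where
  smul g u := ⟨fun k => cact g (u.val k), P.summ g u⟩
  one_smul u := by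
    show (⟨fun k => cact 1 (u.val k), _⟩ : L2T P.Q P.o) = u
    cases u with
    | mk v hv =>
      congr 1
      funext k
      simp [cact]
  mul_smul g h u := by
    show (⟨fun k => cact (g * h) (u.val k), _⟩ : L2T P.Q P.o) = ⟨fun k => cact g (cact h (u.val k)), _⟩
    congr 1
    funext k
    simp [cact, mul_smul]

theorem smul_val (g : Γ) (u : P.X0) (k : ℕ) : (g • u).val k = cact g (u.val k) := rfl

theorem dist_smul' (g : Γ) (u v : P.X0) : dist (g • u) (g • v) = dist u v := by
  rw [dist_X0, dist_X0]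
  congr 1
  apply tsum_congr
  intro k
  exact P.Q_smul k g _ _

instance : IsIsometricSMul Γ P.X0 := ⟨fun g => Isometry.of_dist_eq fun u v => P.dist_smul' g u v⟩
instance : UniformContinuousConstSMul Γ P.X0 := ⟨fun g => (isometry_smul P.X0 g).uniformContinuous⟩

/-- the complete space -/
abbrev X : Type := Completion P.X0

theorem X_dist_smul (g : Γ) (x y : P.X) : dist (g • x) (g • y) = dist x y := by
  refine Completion.induction_on₂ x y (isClosed_eq ?_ ?_) fun u v => ?_
  · exact ((uniformContinuous_const_smul g).continuous.comp continuous_fst).dist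
      ((uniformContinuous_const_smul g).continuous.comp continuous_snd)
  · exact continuous_dist
  · rw [← Completion.coe_smul, ← Completion.coe_smul, Completion.dist_eq, Completion.dist_eq, P.dist_smul']

instance : IsIsometricSMul Γ P.X := ⟨fun g => Isometry.of_dist_eq fun u v => P.X_dist_smul g u v⟩

/-- the isometric action on the completed product -/
noncomputable def ρ : Γ →* (P.X ≃ᵢ P.X) where
  toFun g := IsometryEquiv.constSMul g
  map_one' := by ext x; simp
  map_mul' g h := by ext x; simp [mul_smul]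

theorem ρ_apply (g : Γ) (x : P.X) : P.ρ g x = g • x := rfl

theorem X_cn : ∀ x y : P.X, ∀ τ ∈ Set.Icc (0 : ℝ) 1, ∃ m : P.X, ∀ z : P.X,
    dist z m ^ 2 ≤ (1 - τ) * dist z x ^ 2 + τ * dist z y ^ 2 - τ * (1 - τ) * dist x y ^ 2 := by
  apply J5_completion
  intro x y τ hτ
  obtain ⟨m, hm⟩ := (L2_form P.form').cn x y τ hτ
  refine ⟨m, fun z => ?_⟩
  rw [P.dist_X0_sq, P.dist_X0_sq, P.dist_X0_sq, P.dist_X0_sq]
  exact hm z

noncomputable def base : P.X0 := ⟨fun _ => P.o, by
  have : (fun k => P.Q k P.o P.o) = fun _ => 0 := by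
    funext k; exact (P.form' k).self _
  rw [this]
  exact summable_zero⟩

theorem X_nonempty : Nonempty P.X := ⟨(P.base : P.X)⟩

/-- no fixed point -/
theorem no_fixed (δ : Γ) (c : ℝ) (hc : 0 < c)
    (hδ : ∀ k, ∀ l ∈ P.Λ k, ∀ x : T, c ≤ dist x ((l * δ) • x)) (x : P.X) : δ • x ≠ x := by
  intro hx
  obtain ⟨u, hu⟩ : ∃ u : P.X0, dist x (u : P.X) < 1/8 := by
    have := Completion.denseRange_coe (α := P.X0)
    exact this.exists_dist_lt x (by norm_num)
  -- radius of u_k tends to one
  have hr : ∀ (k : ℕ) (a b : T × ℝ≥0), |(a.2 : ℝ) - b.2| ≤ √(P.Q k a b) := by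
    intro k a b
    apply Real.abs_le_sqrt
    rw [PD.Q_eq']
    have := Real.cos_le_one (P.A k a.1 b.1)
    have h1 : 0 ≤ 2 * (a.2 : ℝ) * b.2 := by positivity
    have := mul_nonneg h1 (sub_nonneg.2 this)
    linarith
  have hlim : Filter.Tendsto (fun k => P.Q k (u.val k) P.o) Filter.atTop (nhds 0) := u.summable.tendsto_atTop_zero
  obtain ⟨k, hk⟩ : ∃ k, P.Q k (u.val k) P.o < 1/4 := (hlim.eventually (gt_mem_nhds (by norm_num))).exists
  have hk2 : (1/2 : ℝ) ≤ (u.val k).2 := by
    have h1 := hr k (u.val k) P.o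
    have h2 : √(P.Q k (u.val k) P.o) ≤ 1/2 := by
      rw [Real.sqrt_le_left (by norm_num)]; linarith
    have h3 := (abs_le.1 (h1.trans h2)).1
    have h4 : ((P.o.2 : ℝ≥0) : ℝ) = 1 := by simp [o]
    rw [h4] at h3
    linarith
  -- displacement in the k-th cone
  set a := min π (P.ε k * c) with ha
  have ha0 : 0 < a := lt_min Real.pi_pos (mul_pos (P.εpos k) hc)
  have haπ : a ≤ π := min_le_left _ _
  have hκ : 0 < 2 * (1 - cos a) := by
    have : cos a < cos 0 := Real.cos_lt_cos_of_nonneg_of_le_pi le_rfl haπ ha0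
    rw [Real.cos_zero] at this
    linarith
  have hdisp : ∀ v : P.X0, 2 * (1 - cos a) * ((v.val k).2 : ℝ) ^ 2 ≤ dist (δ • v) v ^ 2 := by
    intro v
    rw [P.dist_X0_sq]
    refine le_trans ?_ (L2_coord P.form' (δ • v) v k)
    rw [P.smul_val, PD.Q_eq']
    have h1 := P.A_ge k c δ (hδ k) (v.val k).1
    have h2 : cos (P.A k (δ • (v.val k).1) (v.val k).1) ≤ cos a :=
      Real.cos_le_cos_of_nonneg_of_le_pi ha0.le (P.A_le_pi k _ _) h1
    simp only [cact, sub_self]
    have h3 : 0 ≤ ((v.val k).2 : ℝ) ^ 2 := by positivity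
    nlinarith
  -- choose v very close to x
  obtain ⟨v, hv⟩ : ∃ v : P.X0, dist x (v : P.X) < min (1/8) (√(2 * (1 - cos a)) / 16) := by
    have := Completion.denseRange_coe (α := P.X0)
    exact this.exists_dist_lt x (lt_min (by norm_num) (div_pos (Real.sqrt_pos.2 hκ) (by norm_num)))
  have hv1 : dist x (v : P.X) < 1/8 := lt_of_lt_of_le hv (min_le_left _ _)
  have hv2 : dist x (v : P.X) < √(2 * (1 - cos a)) / 16 := lt_of_lt_of_le hv (min_le_right _ _)
  have hd : dist (δ • v) v ≤ √(2 * (1 - cos a)) / 8 := by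
    have h1 : dist (δ • v) v = dist (δ • (v : P.X)) (v : P.X) := by
      rw [← Completion.coe_smul, Completion.dist_eq]
    have h2 : dist (δ • (v : P.X)) (v : P.X) ≤ dist (δ • (v : P.X)) (δ • x) + dist (δ • x) (v : P.X) := dist_triangle _ _ _
    rw [P.X_dist_smul, hx, dist_comm (v : P.X) x] at h2
    rw [h1]; linarith
  have hrv : ((v.val k).2 : ℝ) ≤ 1/8 := by
    have h1 := hdisp v
    have h2 : dist (δ • v) v ^ 2 ≤ (√(2 * (1 - cos a)) / 8) ^ 2 := by
      have := dist_nonneg (x := δ • v) (y := v)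
      gcongr
    have h3 : (√(2 * (1 - cos a)) / 8) ^ 2 = 2 * (1 - cos a) * (1/8) ^ 2 := by
      rw [div_pow, Real.sq_sqrt hκ.le]; ring
    rw [h3] at h2
    have h4 := le_of_mul_le_mul_left (h1.trans h2) hκ
    exact le_of_sq_le_sq h4 (by norm_num)
  have huv : dist u v < 1/4 := by
    rw [← Completion.dist_eq]
    have := dist_triangle (u : P.X) x (v : P.X)
    rw [dist_comm (u : P.X) x] at this
    linarith
  have h5 : |((u.val k).2 : ℝ) - (v.val k).2| ≤ dist u v := by
    refine (hr k _ _).trans ?_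
    rw [P.dist_X0]
    exact Real.sqrt_le_sqrt (L2_coord P.form' u v k)
  have := (abs_le.1 h5).2
  linarith

theorem recur0 (g : ℕ → Γ) (hg : ∀ j, ∀ i ≤ j, g j ∈ P.Λ i)
    (hd : ∀ j k, j < k → P.ε k * dist (g j • P.t0) P.t0 ≤ (1/2)^k) (u : P.X0) :
    Filter.Tendsto (fun j => dist (g j • u) u) Filter.atTop (nhds 0) := by
  have hF : Summable fun k => 6 * P.Q k (u.val k) P.o + 4 * (1/4 : ℝ)^k :=
    (u.summable.mul_left 6).add ((summable_geometric_of_lt_one (by norm_num) (by norm_num)).mul_left 4)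
  have h1 : Filter.Tendsto (fun j => ∑' k, P.Q k ((g j • u).val k) (u.val k)) Filter.atTop (nhds (∑' _ : ℕ, (0:ℝ))) := by
    apply tendsto_tsum_of_dominated_convergence hF
    · intro k
      apply tendsto_const_nhds.congr'
      filter_upwards [Filter.eventually_ge_atTop k] with j hj
      rw [P.smul_val, PD.Q_eq']
      simp only [cact, sub_self]
      rw [P.A_mem k (g j) (hg j k hj), Real.cos_zero]
      ring
    · filter_upwards with j k
      rw [Real.norm_eq_abs, abs_of_nonneg ((P.form' k).nonneg _ _)]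
      have hQ0 : 0 ≤ P.Q k (u.val k) P.o := (P.form' k).nonneg _ _
      by_cases hjk : k ≤ j
      · rw [P.smul_val, PD.Q_eq']
        simp only [cact, sub_self]
        rw [P.A_mem k (g j) (hg j k hjk), Real.cos_zero]
        have : (0:ℝ) < (1/4)^k := by positivity
        nlinarith
      · push Not at hjk
        have q1 := (P.form' k).quasi (cact (g j) (u.val k)) P.o (u.val k)
        have q2 := (P.form' k).quasi (cact (g j) (u.val k)) (cact (g j) P.o) P.o
        rw [P.Q_smul] at q2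
        have q3 := P.Q_o k (g j)
        rw [(P.form' k).symm P.o] at q1
        have q4 : P.ε k ^ 2 * dist (g j • P.t0) P.t0 ^ 2 ≤ (1/4)^k := by
          rw [← mul_pow]
          have h0 : 0 ≤ P.ε k * dist (g j • P.t0) P.t0 := mul_nonneg (P.εpos k).le dist_nonneg
          calc (P.ε k * dist (g j • P.t0) P.t0) ^ 2 ≤ ((1/2 : ℝ)^k)^2 := by
                have := hd j k hjk
                gcongr
            _ = (1/4)^k := by rw [← pow_mul, mul_comm, pow_mul]; norm_num
        have q5 : (0:ℝ) < (1/4)^k := by positivity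
        rw [P.smul_val]
        nlinarith
  rw [tsum_zero] at h1
  have h2 := h1.sqrt
  rw [Real.sqrt_zero] at h2
  exact h2

theorem recur (g : ℕ → Γ) (hg : ∀ j, ∀ i ≤ j, g j ∈ P.Λ i)
    (hd : ∀ j k, j < k → P.ε k * dist (g j • P.t0) P.t0 ≤ (1/2)^k) (x : P.X) :
    Filter.Tendsto (fun j => dist (g j • x) x) Filter.atTop (nhds 0) := by
  rw [Metric.tendsto_atTop]
  intro e he
  obtain ⟨u, hu⟩ : ∃ u : P.X0, dist x (u : P.X) < e/4 := by
    have := Completion.denseRange_coe (α := P.X0)
    exact this.exists_dist_lt x (by positivity)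
  obtain ⟨N, hN⟩ := (Metric.tendsto_atTop.1 (P.recur0 g hg hd u)) (e/4) (by positivity)
  refine ⟨N, fun n hn => ?_⟩
  have h1 := hN n hn
  rw [Real.dist_eq, sub_zero, abs_of_nonneg dist_nonneg] at h1 ⊢
  have h2 : dist (g n • u) u = dist (g n • (u : P.X)) (u : P.X) := by
    rw [← Completion.coe_smul, Completion.dist_eq]
  have h3 : dist (g n • x) x ≤ dist (g n • x) (g n • (u : P.X)) + dist (g n • (u : P.X)) (u : P.X) + dist (u : P.X) x :=
    dist_triangle4 _ _ _ _
  rw [P.X_dist_smul, ← h2, dist_comm (u : P.X) x] at h3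
  linarith
end PD'

end Bac815
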